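import Pool.Agent.Lib.MP_d03834_ag.Nag.Defs
import Pool.Agent.Lib.MP_d03834_ag.H19Final

/-! From emptiness with additional simple points to the Hilbert function in all degrees. -/

set_option autoImplicit false

namespace Pool.Agent.Lib.MP_d03834_ag.Nag

open MvPolynomial Module H19

/-- r more simple points leave nothing, so the dimension is at most r -/
theorem fin_le {n r d m : ℕ} (h : Nag.Emp d (Sum.elim (fun _ : Fin n => m) fun _ : Fin r => 1)) :
    Gen n fun P => finrank ℂ ↥(sp (tri (d + 1)) ⊓ van m (Set.range P)) ≤ r := by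
  obtain ⟨G, G0, hG⟩ := h
  obtain ⟨x, hx⟩ : ∃ x, eval x G ≠ 0 := by
    by_contra hn
    push Not at hn
    exact G0 (MvPolynomial.funext fun x => by rw [hn, map_zero])
  let Q : Fin r → Pt := fun q a => x (.inr q, a)
  let s : (Fin n ⊕ Fin r) × Fin 2 → MvPolynomial (Fin n × Fin 2) ℂ := fun ij =>
    Sum.elim (fun i => X (i, ij.2)) (fun q => C (Q q ij.2)) ij.1
  have e : ∀ y : Fin n × Fin 2 → ℂ, eval y (aeval s G) = eval (fun ij : (Fin n ⊕ Fin r) × Fin 2 =>
      Sum.elim (fun i a => y (i, a)) Q ij.1 ij.2) G := by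
    intro y
    rw [← coe_aeval_eq_eval, ← coe_aeval_eq_eval, RingHom.coe_coe, RingHom.coe_coe,
      ← AlgHom.comp_apply, comp_aeval]
    congr 2
    funext ⟨i, a⟩
    rcases i with i | q <;> simp [s]
  refine ⟨aeval s G, fun h0 => hx ?_, fun P hP => ?_⟩
  · have := e fun ij => x (.inl ij.1, ij.2)
    rw [h0, map_zero] at this
    rw [this]
    congr 2
    funext ⟨i, a⟩
    rcases i with i | q <;> rfl
  rw [e] at hP
  have : FiniteDimensional ℂ ↥(sp (tri (d + 1)) ⊓ van m (Set.range P)) :=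
    Submodule.finiteDimensional_of_le inf_le_left
  have l := finrank_lower 1 r Q (sp (tri (d + 1)) ⊓ van m (Set.range P))
  have z : sp (tri (d + 1)) ⊓ van m (Set.range P) ⊓ van 1 (Set.range Q) = ⊥ := by
    rw [eq_bot_iff]
    rintro F ⟨⟨a, b⟩, c⟩
    obtain ⟨F, hF, rfl⟩ := exists_hom d F a
    rw [hG (Sum.elim P Q) hP F hF, map_zero]
    · exact Submodule.zero_mem _
    · rintro (i | q)
      · exact mem_of_dh _ _ d hF (b _ ⟨i, rfl⟩)
      · exact mem_of_dh _ _ d hF (c _ ⟨q, rfl⟩)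
  rw [z, finrank_bot] at l
  simpa [tn] using l

/-- the two critical degrees give the Hilbert function in every degree -/
theorem assemble {n m : ℕ} (hn : 0 < n) (hm : 0 < m)
    (h : ∀ d : ℕ, (d + 1).choose 2 ≤ n * (m + 1).choose 2 → n * (m + 1).choose 2 < (d + 3).choose 2 →
      Nag.Emp d (Sum.elim (fun _ : Fin n => m)
        fun _ : Fin ((d + 2).choose 2 - n * (m + 1).choose 2) => 1)) :
    Gen n fun P => ∀ d, finrank ℂ ↥(homogeneousSubmodule (Fin 3) ℂ d ⊓
      Submodule.restrictScalars ℂ (⨅ i : Fin n, H19.hid (P i) ^ m)) =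
      Nat.choose (d + 2) 2 - n * Nat.choose (m + 1) 2 := by
  classical
  have hex : ∃ d, n * tn m < tn (d + 1) := ⟨n * tn m, by
    have := two_tn (n * tn m + 1); nlinarith⟩
  obtain ⟨d1, hd1, hmin⟩ : ∃ d1, n * tn m < tn (d1 + 1) ∧ ∀ d < d1, ¬ n * tn m < tn (d + 1) :=
    ⟨Nat.find hex, Nat.find_spec hex, fun d hd => Nat.find_min hex hd⟩
  have hM := tn_pos hm
  obtain ⟨d0, rfl⟩ : ∃ d0, d1 = d0 + 1 := by
    rcases d1 with _ | d0
    · exfalso
      have : tn (0 + 1) = 1 := by simp [tn]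
      nlinarith
    · exact ⟨d0, rfl⟩
  have hd0 := not_lt.mp (hmin d0 (by omega))
  have g0 := fin_le (h d0 ((tn_mono d0.le_succ).trans hd0) hd1)
  have g1 := fin_le (h (d0 + 1) hd0 (hd1.trans_le (tn_mono (Nat.le_succ _))))
  refine (g0.and g1).mono ?_
  rintro P ⟨a0, a1⟩ d
  rw [finrank_hom]
  change _ ≤ tn (d0 + 1) - n * tn m at a0
  change _ ≤ tn (d0 + 1 + 1) - n * tn m at a1
  change _ = tn (d + 1) - n * tn m
  have b1 := finrank_lower m n P (sp (tri (d + 1)))
  rw [finrank_sp, card_tri] at b1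
  rcases le_or_gt d d0 with h | h
  · have : FiniteDimensional ℂ ↥(sp (tri (d0 + 1)) ⊓ van m (Set.range P)) :=
      Submodule.finiteDimensional_of_le inf_le_left
    have b2 : finrank ℂ ↥(sp (tri (d + 1)) ⊓ van m (Set.range P)) ≤
        finrank ℂ ↥(sp (tri (d0 + 1)) ⊓ van m (Set.range P)) :=
      Submodule.finrank_mono (inf_le_inf_right _ (tri_mono (by omega)))
    have b3 : tn (d + 1) ≤ tn (d0 + 1) := tn_mono (by omega)
    omega
  · have b2 := propagate (c := n * tn m) (m := m) (S := Set.range P)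
      (tri_mono (show d0 + 1 + 1 ≤ d + 1 by omega)) (by rw [finrank_sp, card_tri]; omega)
    rw [finrank_sp, card_tri] at b2
    omega

end Pool.Agent.Lib.MP_d03834_ag.Nag
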