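import Mathlib

/-! Arithmetic of the amplifier: one slope serves all distributions of the multiplicities. -/

set_option autoImplicit false

namespace Pool.Agent.Lib.MP_d03834_ag.Nag

open Finset

lemma ampS_two (m : ℕ) : ∑ i ∈ range (2 * m + 1), (2 * m - i + 1) / 2 = m * (m + 1) := by
  rw [← sum_range_reflect]
  have : ∀ k : ℕ, ∑ i ∈ range (2 * k + 1), (i + 1) / 2 = k * (k + 1) := by
    intro k
    induction k with
    | zero => simp
    | succ k ih =>
      rw [show 2 * (k + 1) + 1 = 2 * k + 1 + 1 + 1 by ring, sum_range_succ, sum_range_succ, ih]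
      have e1 : (2 * k + 1 + 1) / 2 = k + 1 := by omega
      have e2 : (2 * k + 1 + 1 + 1) / 2 = k + 1 := by omega
      rw [e1, e2]
      ring
  rw [← this m]
  refine sum_congr rfl fun i hi => ?_
  have := mem_range.1 hi
  omega

lemma ampS_three (m : ℕ) :
    2 * ∑ i ∈ range (2 * m + 1), (6 * m - 3 * i + 3) / 4 = 3 * (m * (m + 1)) := by
  rw [← sum_range_reflect]
  have : ∀ k : ℕ, 2 * ∑ i ∈ range (2 * k + 1), (3 * i + 3) / 4 = 3 * (k * (k + 1)) := by
    intro k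
    induction k with
    | zero => simp
    | succ k ih =>
      rw [show 2 * (k + 1) + 1 = 2 * k + 1 + 1 + 1 by ring, sum_range_succ, sum_range_succ,
        mul_add, mul_add, ih]
      have e1 : 2 * ((3 * (2 * k + 1) + 3) / 4) + 2 * ((3 * (2 * k + 1 + 1) + 3) / 4) =
          6 * (k + 1) := by omega
      rw [add_assoc, e1]
      ring
  rw [← this m]
  congr 1
  refine sum_congr rfl fun i hi => ?_
  have := mem_range.1 hi
  omega

lemma ampS_one (m : ℕ) : ∑ i ∈ range (2 * m + 1), (2 * m - i) = m * (2 * m + 1) := by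
  rw [← sum_range_reflect]
  have h := Finset.sum_range_id_mul_two (2 * m + 1)
  have e : ∑ i ∈ range (2 * m + 1), (2 * m - (2 * m + 1 - 1 - i)) = ∑ i ∈ range (2 * m + 1), i := by
    refine sum_congr rfl fun i hi => ?_
    have := mem_range.1 hi
    omega
  rw [e]
  rw [Nat.add_sub_cancel] at h
  nlinarith

/-- the conditions on level i when all big points have multiplicity 2 m -/
def nd (m c r2 r3 i : ℕ) : ℕ :=
  c * (2 * m - i) + r2 * ((2 * m - i + 1) / 2) + r3 * ((6 * m - 3 * i + 3) / 4)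

lemma nd_sum (m c r2 r3 : ℕ) : 2 * ∑ i ∈ range (2 * m + 1), nd m c r2 r3 i + 2 * (m * c) =
    (4 * c + 2 * r2 + 3 * r3) * (m * (m + 1)) := by
  unfold nd
  rw [sum_add_distrib, sum_add_distrib, ← mul_sum, ← mul_sum, ← mul_sum, ampS_one, ampS_two]
  have := ampS_three m
  nlinarith

lemma nd_bd {m c r2 r3 i : ℕ} (hi : i ≤ 2 * m) :
    (4 * c + 2 * r2 + 3 * r3) * (2 * m - i) ≤ 4 * nd m c r2 r3 i ∧
      4 * nd m c r2 r3 i ≤ (4 * c + 2 * r2 + 3 * r3) * (2 * m - i) + (2 * r2 + 3 * r3) := by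
  unfold nd
  obtain ⟨x, hx⟩ : ∃ x, 2 * m = i + x := ⟨2 * m - i, by omega⟩
  have e1 : 2 * m - i = x := by omega
  have e2 : 6 * m - 3 * i = 3 * x := by omega
  rw [e1, e2]
  have a1 : x ≤ 2 * ((x + 1) / 2) := by omega
  have a2 : 2 * ((x + 1) / 2) ≤ x + 1 := by omega
  have a3 : 3 * x ≤ 4 * ((3 * x + 3) / 4) := by omega
  have a4 : 4 * ((3 * x + 3) / 4) ≤ 3 * x + 3 := by omega
  constructor
  · nlinarith [Nat.mul_le_mul_left r2 a1, Nat.mul_le_mul_left r3 a3]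
  · nlinarith [Nat.mul_le_mul_left r2 a2, Nat.mul_le_mul_left r3 a4]

lemma ampS_key {κ θ ρ δ m : ℝ} (hk : 3 ≤ κ) (hρ : ρ ≤ 5 / 4) (hm : 2 ≤ m)
    (hθ : θ * ((2 * m + 1) * (m + 1)) ≤ 1 / 4) (hθ0 : 0 ≤ θ) (hr : κ ≤ 11 ∨ κ ^ 2 ≤ 6 * m)
    (h1 : -5 / 2 < δ) (h2 : 1 < κ ^ 2 - 3 * κ + 1 + ρ - κ * δ) :
    (δ + 1) * (δ + 2) / 2 + 2 * θ * m * (m + 1) ≤ 2 * m * (3 / 2 * κ - 1 - ρ) := by
  have h3 : δ < κ - 5 / 2 := by
    by_contra h
    push Not at h
    nlinarith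
  have h4 : (δ + 1) * (δ + 2) / 2 ≤ κ ^ 2 / 2 - κ + 3 / 8 := by nlinarith
  have h5 : 2 * θ * m * (m + 1) ≤ 1 / 4 := by nlinarith
  have h6 : m * (3 * κ - 9 / 2) ≤ 2 * m * (3 / 2 * κ - 1 - ρ) := by nlinarith
  rcases hr with h | h
  · nlinarith
  · nlinarith

theorem ampS_real {n m d c r2 r3 : ℕ} {κ : ℝ} (h : ℕ → ℕ) (hc : n = 4 * c + 2 * r2 + 3 * r3)
    (h2 : r2 ≤ 1) (h3 : r3 ≤ 1) (hn : 36 ≤ n) (hm : 2 ≤ m) (hr : n < 400 ∨ n < 24 * m)
    (hk0 : 0 ≤ κ) (hk1 : (n : ℝ) ≤ 4 * κ ^ 2)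
    (hk2 : (κ ^ 2 - n / 4) * ((2 * m + 1) * (m + 1)) ≤ 1 / 4)
    (hd1 : d * (d + 1) ≤ n * (m * (m + 1))) (hd2 : n * (m * (m + 1)) < (d + 2) * (d + 3))
    (hZ : ∀ i : ℕ, d < κ * i → h i = 0)
    (hU : ∀ i : ℕ, κ * i ≤ d → (h i : ℝ) ≤ κ * d - κ ^ 2 * i + 1)
    (hL : ∀ i : ℕ, κ * d - κ ^ 2 * (i + 1) + 3 * κ - 1 < h i)
    (hS : 2 * ∑ i ∈ range (2 * m + 1), h i ≤ (d + 1) * (d + 2)) {r : ℕ}
    (hr2 : (d + 1) * (d + 2) ≤ n * (m * (m + 1)) + 2 * r) :
    h (2 * m + 1) = 0 ∧ ∀ z o : ℕ, z + o = c → ∑ i ∈ range (2 * m + 1),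
      (h i - (z * (2 * m - i) + o * (2 * m + 1 - i) + r2 * ((2 * m - i + 1) / 2) +
        r3 * ((6 * m - 3 * i + 3) / 4))) ≤ r + m * z := by
  have hnR : (36 : ℝ) ≤ n := by exact_mod_cast hn
  have hmR : (2 : ℝ) ≤ m := by exact_mod_cast hm
  have hk3 : 3 ≤ κ := by nlinarith
  set θ : ℝ := κ ^ 2 - n / 4 with hθ
  have hθ0 : 0 ≤ θ := by rw [hθ]; linarith
  set ρ : ℝ := (2 * r2 + 3 * r3) / 4 with hρ
  have hρ1 : ρ ≤ 5 / 4 := by
    have a : (r2 : ℝ) ≤ 1 := by exact_mod_cast h2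
    have b : (r3 : ℝ) ≤ 1 := by exact_mod_cast h3
    rw [hρ]; linarith
  have hcR : (c : ℝ) = n / 4 - ρ := by rw [hρ, hc]; push_cast; ring
  have hθ1 : θ * (2 * m + 1) ≤ 1 / 4 := by nlinarith
  have hd1R : (d : ℝ) * (d + 1) ≤ n * (m * (m + 1)) := by exact_mod_cast hd1
  have hd2R : (n : ℝ) * (m * (m + 1)) < (d + 2) * (d + 3) := by exact_mod_cast hd2
  have hd0 : (0 : ℝ) ≤ d := Nat.cast_nonneg d
  have hup : (d : ℝ) + 1 / 2 < κ * (2 * m + 1) := by
    refine lt_of_pow_lt_pow_left₀ 2 (by positivity) ?_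
    have : (n : ℝ) * (2 * m + 1) ^ 2 ≤ 4 * κ ^ 2 * (2 * m + 1) ^ 2 :=
      mul_le_mul_of_nonneg_right hk1 (by positivity)
    nlinarith
  have hlo : 2 * κ * m < d + 5 / 2 := by
    refine lt_of_pow_lt_pow_left₀ 2 (by positivity) ?_
    have e : (2 * κ * m) ^ 2 = n * m ^ 2 + 4 * θ * m ^ 2 := by rw [hθ]; ring
    have : θ * m ≤ 1 := by nlinarith
    nlinarith
  have hndR : ∀ i ≤ 2 * m, (n : ℝ) / 4 * (2 * m - i) ≤ nd m c r2 r3 i ∧
      (nd m c r2 r3 i : ℝ) ≤ n / 4 * (2 * m - i) + ρ := by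
    intro i hi
    obtain ⟨a, b⟩ := nd_bd (c := c) (r2 := r2) (r3 := r3) hi
    rw [← hc] at a b
    have a' : (n : ℝ) * (2 * m - i) ≤ 4 * nd m c r2 r3 i := by
      have := (Nat.cast_le (α := ℝ)).2 a
      push_cast [Nat.cast_sub hi] at this
      exact this
    have b' : 4 * (nd m c r2 r3 i : ℝ) ≤ n * (2 * m - i) + (2 * r2 + 3 * r3) := by
      have := (Nat.cast_le (α := ℝ)).2 b
      push_cast [Nat.cast_sub hi] at this
      exact this
    rw [hρ]
    constructor <;> linarith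
  have E1 : ∀ i ≤ 2 * m, h i ≤ nd m c r2 r3 i + c := by
    intro i hi
    rcases lt_or_ge (d : ℝ) (κ * i) with a | a
    · rw [hZ i a]; exact Nat.zero_le _
    · have b := hU i a
      have hiR : (i : ℝ) ≤ 2 * m := by exact_mod_cast hi
      have hi0 : (0 : ℝ) ≤ i := Nat.cast_nonneg i
      have e := (hndR i hi).1
      have : (h i : ℝ) < nd m c r2 r3 i + c + 1 := by
        have k1 : κ * d < κ * (κ * (2 * m + 1) - 1 / 2) :=
          mul_lt_mul_of_pos_left (by linarith) (by linarith)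
        have k2 : θ * (2 * m - i + 1) ≤ θ * (2 * m + 1) :=
          mul_le_mul_of_nonneg_left (by linarith) hθ0
        have k3 : κ ^ 2 = n / 4 + θ := by rw [hθ]; ring
        have k4 : κ * (κ * (2 * m + 1) - 1 / 2) - κ ^ 2 * i =
            (n / 4 + θ) * (2 * m - i + 1) - κ / 2 := by rw [← k3]; ring
        nlinarith
      exact_mod_cast Nat.lt_succ_iff.1 (by exact_mod_cast this)
  have hN := nd_sum m c r2 r3
  rw [← hc] at hN
  have E0 : ∑ i ∈ range (2 * m + 1), (h i - nd m c r2 r3 i) ≤ r + m * c := by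
    set δ : ℝ := d - 2 * κ * m with hδ
    set β : ℝ := κ ^ 2 - 3 * κ + 1 + ρ - κ * δ with hβ
    have low : ∀ i ≤ 2 * m, (nd m c r2 r3 i : ℝ) - β < h i := by
      intro i hi
      have hiR : (i : ℝ) ≤ 2 * m := by exact_mod_cast hi
      have a := hL i
      have b := (hndR i hi).2
      have k2 : 0 ≤ θ * (2 * m - i) := mul_nonneg hθ0 (by linarith)
      have k3 : κ * d - κ ^ 2 * (i + 1) + 3 * κ - 1 =
          n / 4 * (2 * m - i) + θ * (2 * m - i) + ρ - β := by rw [hβ, hδ, hθ]; ring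
      linarith
    rcases le_or_gt β 1 with hb | hb
    · have : ∑ i ∈ range (2 * m + 1), (h i - nd m c r2 r3 i) +
          ∑ i ∈ range (2 * m + 1), nd m c r2 r3 i = ∑ i ∈ range (2 * m + 1), h i := by
        rw [← sum_add_distrib]
        refine sum_congr rfl fun i hi => Nat.sub_add_cancel ?_
        have a := low i (Nat.lt_succ_iff.1 (mem_range.1 hi))
        have : (nd m c r2 r3 i : ℝ) < h i + 1 := by linarith
        exact Nat.lt_succ_iff.1 (by exact_mod_cast this)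
      omega
    · have hrr : κ ≤ 11 ∨ κ ^ 2 ≤ 6 * m := by
        rcases hr with a | a
        · left
          have : (n : ℝ) < 400 := by exact_mod_cast a
          nlinarith
        · right
          have : (n : ℝ) + 1 ≤ 24 * m := by exact_mod_cast a
          nlinarith
      have key := ampS_key hk3 hρ1 hmR hk2 hθ0 hrr (δ := δ) (by rw [hδ]; linarith) hb
      have t : ∀ i ∈ range (2 * m), ((h i - nd m c r2 r3 i : ℕ) : ℝ) ≤ h i - nd m c r2 r3 i + β := by
        intro i hi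
        have a := low i (mem_range.1 hi).le
        rcases le_total (h i) (nd m c r2 r3 i) with b | b
        · rw [Nat.sub_eq_zero_of_le b]; push_cast; linarith
        · rw [Nat.cast_sub b]; linarith
      have t1 := sum_le_sum t
      rw [sum_add_distrib, sum_sub_distrib, sum_const, card_range, nsmul_eq_mul] at t1
      have z0 : nd m c r2 r3 (2 * m) = 0 := by
        unfold nd
        have : 6 * m - 3 * (2 * m) = 0 := by omega
        simp [this]
      rw [sum_range_succ] at hS hN ⊢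
      rw [z0] at hN ⊢
      have hS' : 2 * (∑ i ∈ range (2 * m), (h i : ℝ) + h (2 * m)) ≤ (d + 1) * (d + 2) := by
        exact_mod_cast hS
      have hN' : 2 * (∑ i ∈ range (2 * m), (nd m c r2 r3 i : ℝ)) + 2 * (m * c) =
          n * (m * (m + 1)) := by exact_mod_cast hN
      have fin : ∑ i ∈ range (2 * m), ((h i - nd m c r2 r3 i : ℕ) : ℝ) + h (2 * m) ≤ m * c := by
        have e : ((d : ℝ) + 1) * (d + 2) / 2 - n * (m * (m + 1)) / 2 + 2 * m * β =
            (δ + 1) * (δ + 2) / 2 + 2 * θ * m * (m + 1) - 2 * m * (3 / 2 * κ - 1 - ρ) := by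
          rw [hβ, hδ, hθ]; ring
        push_cast at t1
        linarith
      have : ∑ i ∈ range (2 * m), (h i - nd m c r2 r3 i) + h (2 * m) ≤ m * c := by
        exact_mod_cast fin
      omega
  refine ⟨hZ _ (by push_cast; linarith), fun z o hzo => ?_⟩
  have hc0 : 0 < c := by omega
  refine Nat.le_of_mul_le_mul_left ?_ hc0
  calc c * ∑ i ∈ range (2 * m + 1), (h i - (z * (2 * m - i) + o * (2 * m + 1 - i) +
        r2 * ((2 * m - i + 1) / 2) + r3 * ((6 * m - 3 * i + 3) / 4)))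
      ≤ z * ∑ i ∈ range (2 * m + 1), (h i - nd m c r2 r3 i) := by
        rw [mul_sum, mul_sum]
        refine sum_le_sum fun i hi => ?_
        have hi' := Nat.lt_succ_iff.1 (mem_range.1 hi)
        have a := E1 i hi'
        have e : z * (2 * m - i) + o * (2 * m + 1 - i) + r2 * ((2 * m - i + 1) / 2) +
            r3 * ((6 * m - 3 * i + 3) / 4) = nd m c r2 r3 i + o := by
          unfold nd
          rw [← hzo, show 2 * m + 1 - i = 2 * m - i + 1 by omega]
          ring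
        rw [e, ← Nat.sub_sub]
        have b : h i - nd m c r2 r3 i ≤ c := by omega
        generalize h i - nd m c r2 r3 i = y at b ⊢
        rcases le_total y o with w | w
        · rw [Nat.sub_eq_zero_of_le w]; exact Nat.zero_le _
        · obtain ⟨u, rfl⟩ := Nat.exists_eq_add_of_le w
          rw [Nat.add_sub_cancel_left, ← hzo]
          have : u ≤ z := by omega
          nlinarith
    _ ≤ z * (r + m * c) := Nat.mul_le_mul_left _ E0
    _ ≤ c * (r + m * z) := by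
        have : z ≤ c := by omega
        nlinarith

/-- a dyadic slope just above half the square root of n -/
theorem ampS_slope (n d T : ℕ) (hT : 0 < T) : ∃ N a : ℤ, 0 < N ∧ 0 ≤ a ∧ ¬N ∣ a ∧
    (∀ D : ℕ, 0 < D → D ≤ d → ¬N ∣ a * D) ∧ (n : ℝ) ≤ 4 * ((a : ℝ) / N) ^ 2 ∧
      (((a : ℝ) / N) ^ 2 - n / 4) * T ≤ 1 / 4 := by
  set k : ℕ := d + 12 * (n + 4) * T + 1 with hk
  have hlt : k < 2 ^ k := Nat.lt_two_pow_self
  set s : ℝ := √n with hs
  have hs0 : 0 ≤ s := Real.sqrt_nonneg _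
  have hs2 : s ^ 2 = n := Real.sq_sqrt (Nat.cast_nonneg n)
  set N : ℕ := 2 ^ k with hN
  have hN0 : (0 : ℝ) < N := by rw [hN]; positivity
  set e : ℕ := ⌈(N : ℝ) * s / 4⌉₊ with he
  have e1 : (N : ℝ) * s / 4 ≤ e := Nat.le_ceil _
  have e2 : (e : ℝ) < N * s / 4 + 1 := Nat.ceil_lt_add_one (by positivity)
  have hdv : ∀ D : ℕ, 0 < D → D < N → ¬(N : ℤ) ∣ ((2 * e + 1 : ℕ) : ℤ) * D := by
    intro D h0 h1 h2
    have h3 : N ∣ (2 * e + 1) * D := by exact_mod_cast h2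
    have hco : Nat.Coprime N (2 * e + 1) := by
      rw [hN]
      exact Nat.Coprime.pow_left _ (Nat.coprime_two_left.2 ⟨e, rfl⟩)
    exact absurd (Nat.le_of_dvd h0 (hco.dvd_of_dvd_mul_left h3)) (by omega)
  have hT1 : 12 * (n + 4) * T ≥ 1 := Nat.mul_pos (by omega) hT
  refine ⟨N, ((2 * e + 1 : ℕ) : ℤ), by exact_mod_cast hN0, by positivity, ?_,
    fun D a b => hdv D a (by omega), ?_, ?_⟩
  · simpa using hdv 1 one_pos (by omega)
  · have : s / 2 ≤ (((2 * e + 1 : ℕ) : ℤ) : ℝ) / ((N : ℤ) : ℝ) := by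
      push_cast
      rw [le_div_iff₀ hN0]
      linarith
    nlinarith
  · set κ : ℝ := (((2 * e + 1 : ℕ) : ℤ) : ℝ) / ((N : ℤ) : ℝ) with hκ
    have k0 : 0 ≤ κ := by rw [hκ]; positivity
    have k1 : κ ≤ s / 2 + 3 / N := by
      rw [hκ]
      push_cast
      rw [div_le_iff₀ hN0, add_mul, div_mul_cancel₀ _ hN0.ne']
      linarith
    have hNb : (12 : ℝ) * (n + 4) * T ≤ N := by
      have : 12 * (n + 4) * T ≤ N := by omega
      exact_mod_cast this
    have hTR : (1 : ℝ) ≤ T := by exact_mod_cast hT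
    have hn0 : (0 : ℝ) ≤ n := Nat.cast_nonneg n
    set u : ℝ := 3 / N with hu
    have u0 : 0 ≤ u := by rw [hu]; positivity
    have u1 : u * ((n + 4) * T) ≤ 1 / 4 := by
      rw [hu, div_mul_eq_mul_div, div_le_iff₀ hN0]
      linarith
    have u2 : u ≤ 1 := by
      have w : (1 : ℝ) ≤ (n + 4) * T := by nlinarith
      have := mul_le_mul_of_nonneg_left w u0
      linarith
    have s1 : s ≤ n + 1 := by nlinarith
    have k2 : κ ^ 2 ≤ (s / 2 + u) ^ 2 := pow_le_pow_left₀ k0 k1 2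
    have k3 : κ ^ 2 - n / 4 ≤ u * (n + 4) := by nlinarith
    nlinarith

end Pool.Agent.Lib.MP_d03834_ag.Nag
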