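import Pool.Agent.Lib.MP_d03834_ag.Nag.CritB

/-! The columns of the triangle. -/

set_option autoImplicit false

namespace Pool.Agent.Lib.MP_d03834_ag.Nag

open Finset

lemma ampT_last (Q : ℕ → Prop) (h : Q 0) (J : ℕ) : ∃ j ≤ J, Q j ∧ (j = J ∨ ¬Q (j + 1)) := by
  induction J with
  | zero => exact ⟨0, le_rfl, h, .inl rfl⟩
  | succ J ih =>
    obtain ⟨j, a, b, rfl | c⟩ := ih
    · by_cases e : Q (j + 1)
      · exact ⟨j + 1, le_rfl, e, .inl rfl⟩
      · exact ⟨j, a.trans j.le_succ, b, .inr e⟩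
    · exact ⟨j, a.trans J.le_succ, b, .inr c⟩

lemma ampT_up {F : Finset ℤ} {M A B : ℤ} (hM : 0 < M) (hA : A ≤ B)
    (h : ∀ b ∈ F, A ≤ M * b ∧ M * b ≤ B) : M * F.card ≤ B - A + M := by
  rcases F.eq_empty_or_nonempty with rfl | ne
  · simp; omega
  have h1 := (h _ (F.min'_mem ne)).1
  have h2 := (h _ (F.max'_mem ne)).2
  have h3 : F.card ≤ (Icc (F.min' ne) (F.max' ne)).card :=
    card_le_card fun b hb => mem_Icc.2 ⟨F.min'_le b hb, F.le_max' b hb⟩
  have h4 := F.min'_le_max' ne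
  rw [Int.card_Icc] at h3
  have h5 : (F.card : ℤ) ≤ F.max' ne + 1 - F.min' ne := by omega
  nlinarith

lemma ampT_low {F : Finset ℤ} {M A B : ℤ} (hM : 0 < M)
    (h : ∀ b, A ≤ M * b → M * b ≤ B → b ∈ F) : B - A - M < M * F.card := by
  have p1 := Int.mul_ediv_add_emod (-A) M
  have p2 := Int.emod_nonneg (-A) hM.ne'
  have p3 := Int.emod_lt_of_pos (-A) hM
  have q1 := Int.mul_ediv_add_emod B M
  have q2 := Int.emod_nonneg B hM.ne'
  have q3 := Int.emod_lt_of_pos B hM
  have h3 : (Icc (-(-A / M)) (B / M)).card ≤ F.card := card_le_card fun b hb => by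
    obtain ⟨a, c⟩ := mem_Icc.1 hb
    exact h b (by nlinarith) (by nlinarith)
  rw [Int.card_Icc] at h3
  have h5 : B / M + 1 - -(-A / M) ≤ (F.card : ℤ) := by omega
  nlinarith

lemma ampT_sum (d : ℕ) :
    ∑ j ∈ range (d / 3 + 1), (if d - 3 * j = 0 then 1 else 3 * (d - 3 * j)) ≤ (d + 2).choose 2 := by
  induction d using Nat.strong_induction_on with
  | _ d ih =>
  by_cases h : d < 3
  · interval_cases d <;> simp [Nat.choose]
  obtain ⟨d, rfl⟩ : ∃ e, d = e + 3 := ⟨d - 3, by omega⟩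
  rw [Nat.add_div_right _ (by norm_num), sum_range_succ']
  have e : ∀ j, d + 3 - 3 * (j + 1) = d - 3 * j := fun j => by omega
  simp only [e]
  have := ih d (by omega)
  rw [if_neg (by omega), show d + 3 + 2 = d + 2 + 1 + 1 + 1 from rfl]
  have f : ∀ x, (x + 1).choose 2 = x + x.choose 2 := fun x => by
    rw [Nat.choose_succ_succ' _ 1, Nat.choose_one_right]
  rw [f, f, f]
  omega

theorem tri_col {N a : ℤ} (d : ℕ) (hN : 0 < N) (h3 : 3 * N ≤ a)
    (hd : ∀ D : ℕ, 0 < D → D ≤ d → ¬N ∣ a * D) :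
    ∃ (U : Finset ℤ) (lo len : ℤ → ℕ), (∀ M, Sup N a d M → Col U lo len M) ∧
      ∑ b ∈ U, len b ≤ (d + 2).choose 2 ∧ ∀ i : ℕ, (N * d < a * i → hh U len i = 0) ∧
        (a * i ≤ N * d → N ^ 2 * (hh U len i : ℤ) ≤ N * a * d - a ^ 2 * i + N ^ 2) ∧
        N * a * d - a ^ 2 * (i + 1) + 3 * N * a - N ^ 2 < N ^ 2 * (hh U len i : ℤ) := by
  classical
  let C : ℤ → ℕ → Prop := fun b j =>
    3 * j ≤ d ∧ -(a * (d - 3 * j)) ≤ N * b ∧ N * b ≤ (3 * N - a) * (d - 3 * j)
  let J : ℤ → Finset ℕ := fun b => (range (d / 3 + 1)).filter (C b)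
  have mJ : ∀ {b j}, j ∈ J b ↔ C b j := by
    intro b j
    simp only [J, mem_filter, mem_range, and_iff_right_iff_imp]
    exact fun h => by have := h.1; omega
  have cv : ∀ {b j j' k}, C b j → C b j' → j ≤ k → k ≤ j' → C b k := by
    rintro b j j' k ⟨-, -, p⟩ ⟨q, r, -⟩ s t
    have s' : (j : ℤ) ≤ k := by exact_mod_cast s
    have t' : (k : ℤ) ≤ j' := by exact_mod_cast t
    exact ⟨by omega, by nlinarith, by nlinarith⟩
  have big : ∀ {b j i}, C b j → C b (j + i) → i < (J b).card := fun {b j i} p q => by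
    have : (Icc j (j + i)).card ≤ (J b).card := card_le_card fun k hk =>
      mJ.2 (cv p q (mem_Icc.1 hk).1 (mem_Icc.1 hk).2)
    rw [Nat.card_Icc] at this
    omega
  have big' : ∀ {b i}, i < (J b).card → ∃ j, C b j ∧ C b (j + i) := fun {b i} h => by
    have ne : (J b).Nonempty := card_pos.1 (by omega)
    have h1 : (J b).card ≤ (Icc ((J b).min' ne) ((J b).max' ne)).card :=
      card_le_card fun k hk => mem_Icc.2 ⟨min'_le _ k hk, le_max' _ k hk⟩
    rw [Nat.card_Icc] at h1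
    exact ⟨_, mJ.1 (min'_mem _ ne),
      cv (mJ.1 (min'_mem _ ne)) (mJ.1 (max'_mem _ ne)) (by omega) (by omega)⟩
  have mU : ∀ {b j}, C b j → b ∈ Icc (-(a * d)) 0 := by
    rintro b j ⟨p, q, r⟩
    have p' : 3 * (j : ℤ) ≤ d := by exact_mod_cast p
    have : (0 : ℤ) ≤ j := Int.natCast_nonneg j
    have b0 : b ≤ 0 := by
      by_contra h
      nlinarith [mul_nonneg (sub_nonneg.2 h3) (sub_nonneg.2 p')]
    exact mem_Icc.2 ⟨by nlinarith, b0⟩
  have key : ∀ (i : ℕ) b, b ∈ (Icc (-(a * d)) 0).filter (fun b => i < (J b).card) →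
      ∃ D : ℤ, D + 3 * i ≤ d ∧ -(a * D) ≤ N * b ∧ N * b ≤ (3 * N - a) * (D + 3 * i) ∧
        (a - 3 * N) * i ≤ N * D := fun i b hb => by
    obtain ⟨j, ⟨-, -, p⟩, -, q, -⟩ := big' (mem_filter.1 hb).2
    push_cast at q
    have : (0 : ℤ) ≤ j := Int.natCast_nonneg j
    refine ⟨d - 3 * (j + i), by omega, q, by linarith, by linarith⟩
  refine ⟨Icc (-(a * d)) 0, fun b => sInf {j | C b j}, fun b => (J b).card,
    fun M hM j b h => ?_, ?_, fun i => ⟨fun h => ?_, fun h => ?_, ?_⟩⟩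
  · have c : C b j := hM j b h
    have l : sInf {j | C b j} ≤ j := Nat.sInf_le c
    have c0 : C b (sInf {j | C b j}) := Nat.sInf_mem (s := {j | C b j}) ⟨j, c⟩
    have := big (i := j - sInf {j | C b j}) c0 (by rwa [Nat.add_sub_cancel' l])
    exact ⟨mU c, l, by beta_reduce; omega⟩
  · simp only [J, card_filter]
    rw [sum_comm]
    refine le_trans (sum_le_sum fun j hj => ?_) (ampT_sum d)
    rw [← card_filter]
    have hj' : 3 * j ≤ d := by have := mem_range.1 hj; omega
    obtain ⟨D, rfl⟩ := Nat.exists_eq_add_of_le hj'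
    rw [Nat.add_sub_cancel_left]
    have e : ((3 * j + D : ℕ) : ℤ) - 3 * j = D := by push_cast; ring
    split_ifs with h0
    · subst h0
      refine card_le_one_iff_subset_singleton.2 ⟨0, fun b hb => mem_singleton.2 ?_⟩
      obtain ⟨-, p, q⟩ := (mem_filter.1 hb).2
      rw [e] at p q
      simp only [Nat.cast_zero, mul_zero, neg_zero] at p q
      exact (mul_eq_zero.1 (le_antisymm q p)).resolve_left hN.ne'
    · have p1 := Int.mul_ediv_add_emod (-(a * D)) N
      have p2 := Int.emod_nonneg (-(a * D)) hN.ne'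
      have p3 := Int.emod_lt_of_pos (-(a * D)) hN
      have p4 : -(a * D) % N ≠ 0 := fun z =>
        hd D (by omega) (by omega) (dvd_neg.1 (Int.dvd_of_emod_eq_zero z))
      have p5 := lt_of_le_of_ne p2 p4.symm
      refine (card_le_card (t := Ioc (-(a * D) / N) (-(a * D) / N + 3 * D)) fun b hb => ?_).trans ?_
      · obtain ⟨-, p, q⟩ := (mem_filter.1 hb).2
        rw [e] at p q
        exact mem_Ioc.2 ⟨lt_of_mul_lt_mul_left (a := N) (by linarith) hN.le,
          Int.lt_add_one_iff.1 (lt_of_mul_lt_mul_left (a := N) (by linarith) hN.le)⟩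
      · rw [Int.card_Ioc]
        omega
  · refine card_eq_zero.2 (eq_empty_of_forall_notMem fun b hb => ?_)
    obtain ⟨D, p, -, -, q⟩ := key i b hb
    nlinarith
  · have := ampT_up (F := (Icc (-(a * d)) 0).filter fun b => i < (J b).card) (M := N ^ 2)
      (A := -(N * a * (d - 3 * i))) (B := -((a - 3 * N) * a * i)) (by positivity)
      (by nlinarith) fun b hb => by
        obtain ⟨D, p, q, r, s⟩ := key i b hb
        have a0 : 0 ≤ a := by linarith
        have q1 := mul_le_mul_of_nonneg_left q hN.le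
        have q2 := mul_le_mul_of_nonneg_left p (mul_nonneg hN.le a0)
        have q3 := mul_le_mul_of_nonneg_left r hN.le
        have q4 := mul_le_mul_of_nonneg_left s (sub_nonneg.2 h3)
        exact ⟨by linarith, by linarith⟩
    unfold hh
    linarith
  have a0 : 0 < a := by linarith
  have i0 : (0 : ℤ) ≤ i := Int.natCast_nonneg i
  have c0 : 0 ≤ (a - 3 * N) * (i + 1) := mul_nonneg (by linarith) (by linarith)
  by_cases h0 : (a - 3 * N) * (i + 1) ≤ N * (d - 3 * (((0 : ℕ) : ℤ) + i))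
  swap
  · have : (0 : ℤ) ≤ N ^ 2 * (hh (Icc (-(a * d)) 0) (fun b => (J b).card) i : ℤ) := by positivity
    push_cast at h0
    have := mul_lt_mul_of_pos_left (not_le.1 h0) a0
    nlinarith
  obtain ⟨k, -, k1, k2⟩ :=
    ampT_last (fun j : ℕ => (a - 3 * N) * (i + 1) ≤ N * (d - 3 * (j + i))) h0 d
  have k3 : N * (d - 3 * k) < a * (i + 1) := by
    rcases k2 with rfl | k2
    · have : (0 : ℤ) ≤ k := Int.natCast_nonneg k
      nlinarith
    · push_cast at k2
      linarith
  have := ampT_low (F := (Icc (-(a * d)) 0).filter fun b => i < (J b).card) (M := N)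
    (A := -(a * (d - 3 * i))) (B := (3 * N - a) * (d - 3 * k)) hN fun b p q => by
      obtain ⟨j, j1, j2, j3⟩ :=
        ampT_last (fun j : ℕ => -(a * (d - 3 * (j + i))) ≤ N * b) (by simpa using p) k
      have j4 : (j : ℤ) ≤ k := by exact_mod_cast j1
      have j5 : 0 ≤ (d : ℤ) - 3 * (k + i) := nonneg_of_mul_nonneg_right (c0.trans k1) hN
      have j6 : N * b ≤ (3 * N - a) * (d - 3 * j) := by
        rcases j1.eq_or_lt with rfl | j7
        · exact q
        · have j8 := j3.resolve_left j7.ne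
          have j9 : (j : ℤ) + 1 ≤ k := by exact_mod_cast j7
          push_cast at j8
          nlinarith
      have u : C b j := ⟨by omega, by nlinarith, j6⟩
      exact mem_filter.2 ⟨mU u, big u ⟨by omega, by exact_mod_cast j2, by push_cast; nlinarith⟩⟩
  have h5 := mul_lt_mul_of_pos_left this hN
  have h6 := mul_le_mul_of_nonneg_left k3.le (sub_nonneg.2 h3)
  unfold hh
  linarith

end Pool.Agent.Lib.MP_d03834_ag.Nag
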