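import Pool.Agent.Lib.MP_d03834_ag.Nag.CritC

/-! The criterion with additional simple points. -/

set_option autoImplicit false

namespace Pool.Agent.Lib.MP_d03834_ag.Nag

open Polynomial

lemma critD_pt {F : B} (h : F ≠ 0) : ∃ z σ, F ∉ pt z σ := by
  by_contra hn
  push Not at hn
  refine h (Polynomial.ext fun j => ?_)
  refine desc (n := (F.coeff j).coeff.support.card) (fun _ => 1)
    (fun b hb => Finsupp.mem_support_iff.2 hb) (fun l => ?_) (by simp)
  have : F.map (evL (zz l)) = 0 := zero_of_eval_zero _ fun σ => by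
    rw [eval_map]
    exact hn (zz l) σ
  rw [pow_one, RingHom.mem_ker, ← coeff_map, this, coeff_zero]

lemma critD_pts (r : ℕ) (W : Submodule ℂ B) [FiniteDimensional ℂ W] (h : Module.finrank ℂ W ≤ r) :
    ∃ (z : Fin r → ℂˣ) (σ : Fin r → ℂ), ∀ F ∈ W, (∀ q, F ∈ pt (z q) (σ q)) → F = 0 := by
  induction r generalizing W with
  | zero =>
    refine ⟨1, 0, fun F hF _ => ?_⟩
    rwa [Submodule.finrank_eq_zero.1 (Nat.le_zero.1 h), Submodule.mem_bot] at hF
  | succ r ih =>
    by_cases h0 : ∀ F ∈ W, F = 0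
    · exact ⟨1, 0, fun F hF _ => h0 F hF⟩
    push Not at h0
    obtain ⟨F0, h1, h2⟩ := h0
    obtain ⟨z0, σ0, h3⟩ := critD_pt h2
    have hlt : W ⊓ (pt z0 σ0).restrictScalars ℂ < W :=
      lt_of_le_of_ne inf_le_left fun e => h3 (e.ge h1).2
    obtain ⟨z, σ, hz⟩ := ih (W ⊓ (pt z0 σ0).restrictScalars ℂ) (by
      have := Submodule.finrank_lt_finrank_of_lt hlt
      omega)
    exact ⟨Fin.cons z0 z, Fin.cons σ0 σ, fun F hF hq => hz F ⟨hF, hq 0⟩ fun q => hq q.succ⟩

/-- graded elements with n fat points on the leaf -/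
noncomputable def critW (n m : ℕ) (U : Finset ℤ) (len : ℤ → ℕ) : Submodule ℂ B where
  carrier := {F | Col U 0 len F ∧ ∀ l : Fin n, F ∈ pt (zz l) 0 ^ m}
  zero_mem' := ⟨fun j b h => by simp at h, fun l => Ideal.zero_mem _⟩
  add_mem' := by
    rintro F G ⟨a1, a2⟩ ⟨b1, b2⟩
    refine ⟨fun j b h => ?_, fun l => Ideal.add_mem _ (a2 l) (b2 l)⟩
    by_cases h0 : (F.coeff j).coeff b = 0
    · exact b1 j b (by simpa [h0] using h)
    · exact a1 j b h0
  smul_mem' := by
    rintro c F ⟨a1, a2⟩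
    refine ⟨fun j b h => a1 j b fun e => h ?_, fun l => Submodule.smul_of_tower_mem _ c (a2 l)⟩
    rw [coeff_smul, AddMonoidAlgebra.coeff_smul, Finsupp.smul_apply, e, smul_zero]

/-- general criterion: r simple points kill what the levels leave -/
theorem crit_pts {n m r K : ℕ} {U : Finset ℤ} (lo : ℤ → ℕ) {len : ℤ → ℕ} (hK : hh U len K = 0)
    (hr : ∑ i ∈ Finset.range K, (hh U len i - n * (m - i)) ≤ r) :
    ∃ (z : Fin n ⊕ Fin r → ℂˣ) (σ : Fin n ⊕ Fin r → ℂ), ∀ M, Col U lo len M →
      (∀ l, M ∈ pt (z l) (σ l) ^ Sum.elim (fun _ => m) (fun _ => 1) l) → M = 0 := by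
  classical
  have hV : ∀ i, ∃ V ⊆ U.filter fun b => i < len b, V.card = min (hh U len i) (n * (m - i)) :=
    fun i => Finset.exists_subset_card_eq (min_le_left _ _)
  choose V hV1 hV2 using hV
  let S : Finset ((_ : ℕ) × ℤ) := (Finset.range K).sigma fun i => (U.filter fun b => i < len b) \ V i
  have hS : S.card ≤ r := by
    rw [Finset.card_sigma]
    refine le_trans (Finset.sum_le_sum fun i _ => ?_) hr
    rw [Finset.card_sdiff_of_subset (hV1 i), hV2]
    unfold hh
    omega
  let φ : critW n m U len →ₗ[ℂ] S → ℂ :=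
    { toFun := fun F s => (F.1.coeff s.1.1).coeff s.1.2
      map_add' := fun F G => by ext s; simp
      map_smul' := fun c F => by ext s; simp }
  have hφ0 : ∀ x, φ x = 0 → x = 0 := by
    rintro ⟨F, h1, h2⟩ h0
    refine Subtype.ext (Polynomial.ext fun i => ?_)
    by_cases hi : i < K
    · refine desc (fun _ : Fin n => m - i) (U := V i) (fun b hb => ?_) (fun l => ?_) ?_
      · by_contra hn
        exact hb (congrFun h0 ⟨⟨i, b⟩, Finset.mem_sigma.2 ⟨Finset.mem_range.2 hi,
          Finset.mem_sdiff.2 ⟨critC_sup h1 i b hb, hn⟩⟩⟩)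
      · have := critC_tay _ _ m (h2 l) i
        rwa [map_zero, taylor_zero] at this
      · rw [hV2]
        simp
    · exact critC_zero h1 hK i (not_lt.1 hi)
  have hφ : Function.Injective φ := fun x y h => by
    have := hφ0 (x + (-1 : ℂ) • y) (by rw [φ.map_add, φ.map_smul, h, neg_one_smul, add_neg_cancel])
    have h2 : x.1 + (-1 : ℂ) • y.1 = 0 := congrArg Subtype.val this
    rw [neg_one_smul ℂ y.1, add_neg_eq_zero] at h2
    exact Subtype.ext h2
  haveI : FiniteDimensional ℂ (critW n m U len) := Module.Finite.of_injective φ hφ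
  obtain ⟨z, σ, hz⟩ := critD_pts r (critW n m U len) (by
    have := LinearMap.finrank_le_finrank_of_injective hφ
    rw [Module.finrank_fintype_fun_eq_card, Fintype.card_coe] at this
    omega)
  exact ⟨Sum.elim zz z, compress lo _ (Sum.elim 0 σ) _ fun F h1 h2 =>
    hz F ⟨h1, fun l => h2 (Sum.inl l)⟩ fun q => by simpa using h2 (Sum.inr q)⟩

lemma hh_sum {U : Finset ℤ} {len : ℤ → ℕ} {K : ℕ} (hK : ∀ b ∈ U, len b ≤ K) :
    ∑ i ∈ Finset.range K, hh U len i = ∑ b ∈ U, len b := by
  simp only [hh, Finset.card_filter]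
  rw [Finset.sum_comm]
  refine Finset.sum_congr rfl fun b hb => ?_
  rw [← Finset.card_filter]
  have : (Finset.range K).filter (fun i => i < len b) = Finset.range (len b) := by
    ext i
    have := hK b hb
    simp only [Finset.mem_filter, Finset.mem_range]
    omega
  rw [this, Finset.card_range]

lemma critD_tri (m K : ℕ) (h : m ≤ K) : ∑ i ∈ Finset.range K, (m - i) = (m + 1).choose 2 := by
  rw [← Finset.sum_subset (Finset.range_mono h) fun i _ hi => by
    rw [Finset.mem_range] at hi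
    omega]
  induction m with
  | zero => simp
  | succ m ih =>
    rw [Finset.sum_range_succ', Nat.choose_succ_succ' (m + 1) 1, ← ih (by omega)]
    simp [add_comm]

/-- criterion for independent conditions -/
theorem crit_onto {n m r : ℕ} {U : Finset ℤ} (lo : ℤ → ℕ) {len : ℤ → ℕ}
    (h1 : ∀ i < m, n * (m - i) ≤ hh U len i) (hr : ∑ b ∈ U, len b ≤ n * (m + 1).choose 2 + r) :
    ∃ (z : Fin n ⊕ Fin r → ℂˣ) (σ : Fin n ⊕ Fin r → ℂ), ∀ M, Col U lo len M →
      (∀ l, M ∈ pt (z l) (σ l) ^ Sum.elim (fun _ => m) (fun _ => 1) l) → M = 0 := by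
  have hK : ∀ b ∈ U, len b ≤ max m (U.sup len) := fun b hb =>
    le_max_of_le_right (Finset.le_sup (f := len) hb)
  refine crit_pts lo (K := max m (U.sup len)) ?_ ?_
  · rw [hh, Finset.card_eq_zero, Finset.filter_eq_empty_iff]
    exact fun b hb => not_lt.2 (hK b hb)
  · have e : ∑ i ∈ Finset.range (max m (U.sup len)), (hh U len i - n * (m - i)) +
        ∑ i ∈ Finset.range (max m (U.sup len)), n * (m - i) =
        ∑ i ∈ Finset.range (max m (U.sup len)), hh U len i := by
      rw [← Finset.sum_add_distrib]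
      refine Finset.sum_congr rfl fun i _ => Nat.sub_add_cancel ?_
      by_cases hi : i < m
      · exact h1 i hi
      · rw [Nat.sub_eq_zero_of_le (not_lt.1 hi)]
        exact Nat.zero_le _
    rw [hh_sum hK, ← Finset.mul_sum, critD_tri m _ (le_max_left _ _)] at e
    omega

end Pool.Agent.Lib.MP_d03834_ag.Nag
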