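import Pool.Agent.Lib.MP_d03834_ag.Nag.Win

/-! The cubic relation between three theta series. -/

set_option autoImplicit false

namespace Pool.Agent.Lib.MP_d03834_ag.Nag

open MvPolynomial

/-- the series of the coefficients of y ^ b -/
noncomputable def Cubic_v (b : ℤ) (f : R) : O :=
  PowerSeries.mk fun e => (PowerSeries.coeff e f).coeff b

theorem Cubic_v_sub (b : ℤ) (f g : R) : Cubic_v b (f - g) = Cubic_v b f - Cubic_v b g := by
  ext e
  simp [Cubic_v]

theorem Cubic_v_alg (b : ℤ) (o : O) (f : R) :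
    Cubic_v b (algebraMap O R o * f) = o * Cubic_v b f := by
  ext e
  rw [Cubic_v, PowerSeries.coeff_mk, PowerSeries.coeff_mul, PowerSeries.coeff_mul,
    AddMonoidAlgebra.coeff_sum, Finsupp.finsetSum_apply]
  refine Finset.sum_congr rfl fun p _ => ?_
  rw [Win_coeff_alg, Cubic_v, PowerSeries.coeff_mk, ← LaurentPolynomial.smul_eq_C_mul]
  simp

theorem Cubic_v_const (b : ℤ) (f : R) :
    PowerSeries.constantCoeff (Cubic_v b f) = (PowerSeries.constantCoeff f).coeff b := by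
  rw [← PowerSeries.coeff_zero_eq_constantCoeff_apply, Cubic_v, PowerSeries.coeff_mk,
    PowerSeries.coeff_zero_eq_constantCoeff_apply]

theorem Cubic_sub (f g : R) (b e : ℤ) : cz (f - g) b e = cz f b e - cz g b e := by
  unfold cz
  split_ifs <;> simp

theorem Cubic_Th_sub {N r a : ℤ} {f g : R} (hf : Th N r a f) (hg : Th N r a g) :
    Th N r a (f - g) := by
  intro b e
  rw [Cubic_sub, Cubic_sub, hf, hg]

theorem Cubic_Cl_sub {k : ℤ} {f g : R} (hf : Cl k f) (hg : Cl k g) : Cl k (f - g) := by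
  intro b e h
  rw [Cubic_sub] at h
  by_cases h1 : cz f b e = 0
  · refine hg b e fun h2 => h ?_
    rw [h1, h2, sub_zero]
  · exact hf b e h1

theorem Cubic_Cl_alg (o : O) : Cl 0 (algebraMap O R o) := by
  intro b e h
  by_cases hb : b = 0
  · simp [hb]
  · exfalso
    apply h
    unfold cz
    split_ifs
    · rw [Win_coeff_alg]
      simp [hb]
    · rfl

theorem Cubic_Cl_congr {k k' : ℤ} {f : R} (hf : Cl k f) (h : (3 : ℤ) ∣ k - k') : Cl k' f := by
  intro b e hb
  have := dvd_add (hf b e hb) h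
  rwa [show b - k + (k - k') = b - k' by ring] at this

theorem Cubic_inj {N a : ℤ} {f : R} (hf : Th N 9 a f) (hc : Cl 0 f)
    (h : ∀ k : Fin 3, Cubic_v (3 * (k : ℕ)) f = 0) : f = 0 := by
  have h0 : ∀ k : Fin 3, ∀ e, cz f (3 * (k : ℕ)) e = 0 := by
    intro k e
    unfold cz
    split_ifs
    · have := congrArg (PowerSeries.coeff e.toNat) (h k)
      rwa [Cubic_v, PowerSeries.coeff_mk, map_zero] at this
    · rfl
  have step : ∀ b : ℤ, (∀ e, cz f (b + 9) e = 0) ↔ ∀ e, cz f b e = 0 := by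
    intro b
    constructor
    · intro h1 e
      rw [← hf b e]
      exact h1 _
    · intro h1 e
      have := hf b (e - N * b - a)
      rw [show e - N * b - a + N * b + a = e by ring] at this
      rw [this]
      exact h1 _
  have h1 : ∀ (c : ℤ), (∀ e, cz f c e = 0) → ∀ q : ℤ, ∀ e, cz f (c + 9 * q) e = 0 := by
    intro c hc0 q
    induction q using Int.induction_on with
    | zero => simpa using hc0
    | succ i ih =>
      rw [show c + 9 * ((i : ℤ) + 1) = c + 9 * i + 9 by ring, step]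
      exact ih
    | pred i ih =>
      rw [← step, show c + 9 * (-(i : ℤ) - 1) + 9 = c + 9 * -(i : ℤ) by ring]
      exact ih
  refine cz_ext fun b e => ?_
  have hz : cz (0 : R) b e = 0 := by simp [cz]
  rw [hz]
  by_contra hb
  obtain ⟨c, hc1⟩ := hc b e hb
  apply hb
  have h2 : b = 3 * (((⟨(c % 3).toNat, by omega⟩ : Fin 3) : ℕ) : ℤ) + 9 * (c / 3) := by
    simp only
    omega
  rw [h2]
  exact h1 _ (h0 _) _ _

theorem exists_cubic {N a : ℤ} {θ : Fin 3 → R} (h1 : ∀ i, Th N 3 a (θ i))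
    (h2 : ∀ i : Fin 3, Cl (i : ℕ) (θ i))
    (h3 : ∀ i : Fin 3, PowerSeries.constantCoeff (θ i) = LaurentPolynomial.T ((i : ℕ) : ℤ)) :
    ∃ α β γ : O, PowerSeries.constantCoeff α = 0 ∧ PowerSeries.constantCoeff β = 1 ∧
      PowerSeries.constantCoeff γ = 0 ∧ aeval ![θ 1, θ 0, θ 2] (cub α β γ) = 0 := by
  classical
  set M : Matrix (Fin 3) (Fin 3) O :=
    Matrix.of fun k i => Cubic_v (3 * (k : ℕ)) (θ i * θ i * θ i) with hM
  set w : Fin 3 → O := fun k => Cubic_v (3 * (k : ℕ)) (θ 1 * θ 0 * θ 2) with hw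
  have hT : ∀ i j k : Fin 3, PowerSeries.constantCoeff (θ i * θ j * θ k) =
      LaurentPolynomial.T (((i : ℕ) : ℤ) + ((j : ℕ) : ℤ) + ((k : ℕ) : ℤ)) := by
    intro i j k
    rw [map_mul, map_mul, h3, h3, h3, LaurentPolynomial.T_add, LaurentPolynomial.T_add]
  have hM1 : (PowerSeries.constantCoeff (R := ℂ)).mapMatrix M = 1 := by
    refine Matrix.ext fun k i => ?_
    rw [RingHom.mapMatrix_apply, Matrix.map_apply, hM, Matrix.of_apply, Cubic_v_const, hT,
      Matrix.one_apply, LaurentPolynomial.T_apply]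
    fin_cases k <;> fin_cases i <;> simp
  have hdet : IsUnit M.det := by
    rw [PowerSeries.isUnit_iff_constantCoeff, RingHom.map_det, hM1, Matrix.det_one]
    exact isUnit_one
  set x : Fin 3 → O := M⁻¹.mulVec w with hx
  have hMx : M.mulVec x = w := by
    rw [hx, Matrix.mulVec_mulVec, Matrix.mul_nonsing_inv _ hdet, Matrix.one_mulVec]
  have hc : ∀ k, PowerSeries.constantCoeff (x k) = PowerSeries.constantCoeff (w k) := by
    intro k
    have h5 := RingHom.map_mulVec (PowerSeries.constantCoeff (R := ℂ)) M x k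
    have : M.map (PowerSeries.constantCoeff (R := ℂ)) = 1 := hM1
    rw [this, Matrix.one_mulVec, hMx] at h5
    exact h5.symm
  have hcw : ∀ k : Fin 3, PowerSeries.constantCoeff (w k) = if k = 1 then 1 else 0 := by
    intro k
    rw [hw]
    simp only
    rw [Cubic_v_const, hT]
    fin_cases k <;> simp
  refine ⟨x 0, x 1, x 2, by rw [hc, hcw]; simp, by rw [hc, hcw]; simp, by rw [hc, hcw]; simp, ?_⟩
  have he : aeval ![θ 1, θ 0, θ 2] (cub (x 0) (x 1) (x 2)) =
      θ 1 * θ 0 * θ 2 - algebraMap O R (x 0) * (θ 0 * θ 0 * θ 0) -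
        algebraMap O R (x 1) * (θ 1 * θ 1 * θ 1) - algebraMap O R (x 2) * (θ 2 * θ 2 * θ 2) := by
    simp [cub, pow_succ]
  rw [he]
  have t3 : ∀ i j k : Fin 3, Th N 9 (3 * a) (θ i * θ j * θ k) := by
    intro i j k
    have := Th_mul (Th_mul (h1 i) (h1 j)) (h1 k)
    rwa [show (3 : ℤ) + 3 + 3 = 9 by norm_num, show a + a + a = 3 * a by ring] at this
  have t4 : ∀ (o : O) (i : Fin 3), Th N 9 (3 * a) (algebraMap O R o * (θ i * θ i * θ i)) := by
    intro o i
    have := Th_mul (Th_alg N o) (t3 i i i)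
    rwa [zero_add, zero_add] at this
  have c4 : ∀ (o : O) (i : Fin 3), Cl 0 (algebraMap O R o * (θ i * θ i * θ i)) := by
    intro o i
    refine Cubic_Cl_congr (Cl_mul (Cubic_Cl_alg o) (Cl_mul (Cl_mul (h2 i) (h2 i)) (h2 i))) ?_
    exact ⟨(i : ℕ), by ring⟩
  have c3 : Cl 0 (θ 1 * θ 0 * θ 2) :=
    Cubic_Cl_congr (Cl_mul (Cl_mul (h2 1) (h2 0)) (h2 2)) ⟨1, by simp⟩
  refine Cubic_inj (N := N) (a := 3 * a)
    (Cubic_Th_sub (Cubic_Th_sub (Cubic_Th_sub (t3 _ _ _) (t4 _ _)) (t4 _ _)) (t4 _ _))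
    (Cubic_Cl_sub (Cubic_Cl_sub (Cubic_Cl_sub c3 (c4 _ _)) (c4 _ _)) (c4 _ _)) fun k => ?_
  have := congrFun hMx k
  rw [Matrix.mulVec, dotProduct, Fin.sum_univ_three] at this
  rw [Cubic_v_sub, Cubic_v_sub, Cubic_v_sub, Cubic_v_alg, Cubic_v_alg, Cubic_v_alg]
  simp only [hM, hw, Matrix.of_apply] at this
  rw [← this]
  ring

end Pool.Agent.Lib.MP_d03834_ag.Nag
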