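import Pool.Agent.Lib.MP_d03834_ag.Nag.Defs

/-! The cubic has no root as a polynomial in the first variable. -/

set_option autoImplicit false

namespace Pool.Agent.Lib.MP_d03834_ag.Nag

open MvPolynomial

/-- the one variable statement: after `X 1 ↦ s * X 0` the root is linear. -/
theorem Root_lin {P : Type} [CommRing P] [IsDomain P] {β u v : P} (hβ : β ≠ 0)
    (r : Polynomial P)
    (h : r * Polynomial.X * (Polynomial.C u * Polynomial.X) - Polynomial.C v * Polynomial.X ^ 3 -
      Polynomial.C β * r ^ 3 = 0) : ∃ c : P, c * u - v - β * c ^ 3 = 0 := by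
  have h0 : Polynomial.X ∣ r := by
    rw [Polynomial.X_dvd_iff, Polynomial.coeff_zero_eq_eval_zero]
    have := congrArg (Polynomial.eval 0) h
    simpa [hβ] using this
  obtain ⟨q, rfl⟩ := h0
  have h1 : Polynomial.X ^ 3 * (q * Polynomial.C u - Polynomial.C v - Polynomial.C β * q ^ 3) = 0 := by
    rw [← h]; ring
  have h2 := (mul_eq_zero.1 h1).resolve_left (pow_ne_zero _ Polynomial.X_ne_zero)
  exact ⟨q.eval 0, by simpa using congrArg (Polynomial.eval 0) h2⟩

theorem Root_deg {P : Type} [CommRing P] [IsDomain P] {α β γ : P} (hβ : β ≠ 0)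
    (c : Polynomial P) (h : c * Polynomial.X - (Polynomial.C α + Polynomial.C γ * Polynomial.X ^ 3) -
      Polynomial.C β * c ^ 3 = 0) : ∃ x y : P, c = Polynomial.C x * Polynomial.X + Polynomial.C y := by
  refine ⟨c.coeff 1, c.coeff 0, Polynomial.eq_X_add_C_of_natDegree_le_one ?_⟩
  by_contra hd
  have e : Polynomial.C β * c ^ 3 =
      c * Polynomial.X - (Polynomial.C α + Polynomial.C γ * Polynomial.X ^ 3) := by
    linear_combination -h
  have d1 : (Polynomial.C β * c ^ 3).natDegree = 3 * c.natDegree := by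
    rw [Polynomial.natDegree_C_mul hβ, Polynomial.natDegree_pow]
  have d2 : (c * Polynomial.X - (Polynomial.C α + Polynomial.C γ * Polynomial.X ^ 3)).natDegree ≤
      c.natDegree + 2 := by
    refine (Polynomial.natDegree_sub_le _ _).trans (max_le ?_ ?_)
    · exact Polynomial.natDegree_mul_le.trans (by simp)
    · refine le_trans (by compute_degree : _ ≤ 3) (by omega)
  rw [← e, d1] at d2
  omega

theorem Root_co {P : Type} [CommRing P] {a b c e : P}
    (h : Polynomial.C a * Polynomial.X ^ 3 + Polynomial.C b * Polynomial.X ^ 2 +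
      Polynomial.C c * Polynomial.X + Polynomial.C e = 0) : a = 0 ∧ b = 0 ∧ c = 0 ∧ e = 0 :=
  ⟨by simpa [Polynomial.coeff_X, Polynomial.coeff_C] using congrArg (Polynomial.coeff · 3) h,
    by simpa [Polynomial.coeff_X, Polynomial.coeff_C] using congrArg (Polynomial.coeff · 2) h,
    by simpa [Polynomial.coeff_X, Polynomial.coeff_C] using congrArg (Polynomial.coeff · 1) h,
    by simpa [Polynomial.coeff_X, Polynomial.coeff_C] using congrArg (Polynomial.coeff · 0) h⟩

theorem no_root {α β γ : O} (hα : PowerSeries.constantCoeff α = 0)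
    (hβ : PowerSeries.constantCoeff β = 1) (ρ : MvPolynomial (Fin 2) O)
    (h : ρ * X 0 * X 1 - C α * X 0 ^ 3 - C β * ρ ^ 3 - C γ * X 1 ^ 3 = 0) : α = 0 ∧ γ = 0 := by
  have hβ0 : β ≠ 0 := fun h0 => by simp [h0] at hβ
  let f : MvPolynomial (Fin 2) O →+* Polynomial (Polynomial O) :=
    eval₂Hom (Polynomial.C.comp Polynomial.C)
      ![Polynomial.X, Polynomial.C Polynomial.X * Polynomial.X]
  have h1 := congrArg f h
  obtain ⟨c, hc⟩ := Root_lin (P := Polynomial O) (β := Polynomial.C β) (u := Polynomial.X)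
    (v := Polynomial.C α + Polynomial.C γ * Polynomial.X ^ 3) (Polynomial.C_ne_zero.2 hβ0) (f ρ) (by
      rw [map_zero] at h1
      rw [← h1]
      simp only [map_sub, map_mul, map_pow, map_add, f, coe_eval₂Hom, eval₂_X, eval₂_C,
        Matrix.cons_val_zero, Matrix.cons_val_one, RingHom.comp_apply]
      ring)
  obtain ⟨x, y, rfl⟩ := Root_deg hβ0 c hc
  have e : (Polynomial.C x * Polynomial.X + Polynomial.C y) * Polynomial.X -
      (Polynomial.C α + Polynomial.C γ * Polynomial.X ^ 3) -
      Polynomial.C β * (Polynomial.C x * Polynomial.X + Polynomial.C y) ^ 3 =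
      Polynomial.C (-γ - β * x ^ 3) * Polynomial.X ^ 3 +
      Polynomial.C (x - 3 * β * x ^ 2 * y) * Polynomial.X ^ 2 +
      Polynomial.C (y - 3 * β * x * y ^ 2) * Polynomial.X + Polynomial.C (-α - β * y ^ 3) := by
    simp only [map_sub, map_mul, map_pow, map_neg, map_ofNat]
    ring
  rw [e] at hc
  obtain ⟨c3, c2, c1, c0⟩ := Root_co hc
  have y0 : PowerSeries.constantCoeff y = 0 := by
    have := congrArg PowerSeries.constantCoeff c0
    simpa [hα, hβ] using this
  have hu : (1 - 3 * β * x * y : O) ≠ 0 := fun h0 => by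
    have := congrArg PowerSeries.constantCoeff h0
    simp [y0] at this
  have hy : y = 0 := (mul_eq_zero.1 (show y * (1 - 3 * β * x * y) = 0 by
    linear_combination c1)).resolve_right hu
  have hx : x = 0 := (mul_eq_zero.1 (show x * (1 - 3 * β * x * y) = 0 by
    linear_combination c2)).resolve_right hu
  subst hx hy
  exact ⟨by linear_combination -c0, by linear_combination -c3⟩

end Pool.Agent.Lib.MP_d03834_ag.Nag
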