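import Pool.Agent.Lib.MP_d03834_ag.Nag.Inj
import Pool.Agent.Lib.MP_d03834_ag.Nag.Root

/-! The relations between the three theta series are the multiples of the cubic. -/

set_option autoImplicit false

namespace Pool.Agent.Lib.MP_d03834_ag.Nag

open MvPolynomial

theorem Ker_aux {P S : Type} [CommRing P] [IsDomain P] [IsIntegrallyClosed P] [CommRing S]
    [IsDomain S] (f : P →+* S) (hf : Function.Injective f) (x : S) (p q : Polynomial P)
    (hp : p.Monic) (hi : Irreducible p) (h1 : p.eval₂ f x = 0) (h2 : q.eval₂ f x = 0) : p ∣ q := by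
  letI : Algebra P S := f.toAlgebra
  haveI : FaithfulSMul P S := (faithfulSMul_iff_algebraMap_injective P S).2 hf
  have hx : IsIntegral P x := ⟨p, hp, h1⟩
  have a1 : minpoly P x ∣ p := minpoly.isIntegrallyClosed_dvd hx h1
  have a2 : minpoly P x ∣ q := minpoly.isIntegrallyClosed_dvd hx h2
  rcases (hi.dvd_iff).1 a1 with h | h
  · exact absurd h (minpoly.not_isUnit P x)
  · exact h.dvd.trans a2

theorem Ker_scale {S : Type} [CommRing S] [Algebra O S] (φ : Fin 3 → S) {D : ℕ}
    {G : MvPolynomial (Fin 3) O} (hG : G.IsHomogeneous D) :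
    aeval (fun i => Polynomial.X * Polynomial.C (φ i)) G =
      Polynomial.X ^ D * Polynomial.C (aeval φ G) := by
  conv_lhs => rw [G.as_sum]
  conv_rhs => rw [G.as_sum]
  rw [map_sum, map_sum, map_sum, Finset.mul_sum]
  refine Finset.sum_congr rfl fun s hs => ?_
  have hd : D = ∑ i, s i := by
    rw [hG.degree_eq_sum_deg_support hs]
    exact Finset.sum_subset (Finset.subset_univ _) fun i _ hi => by simpa using hi
  rw [aeval_monomial, aeval_monomial, Finsupp.prod_fintype _ _ (by simp),
    Finsupp.prod_fintype _ _ (by simp), hd]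
  simp only [mul_pow, Finset.prod_mul_distrib, Finset.prod_pow_eq_pow_sum, map_mul, map_prod,
    map_pow, Polynomial.algebraMap_apply]
  ring

theorem Ker_succ {S : Type} [CommRing S] [Algebra O S] (x y z : S) (G : MvPolynomial (Fin 3) O) :
    (finSuccEquiv O 2 G).eval₂ (aeval ![y, z] : MvPolynomial (Fin 2) O →ₐ[O] S).toRingHom x =
      aeval ![x, y, z] G := by
  have : (Polynomial.eval₂RingHom (aeval ![y, z] : MvPolynomial (Fin 2) O →ₐ[O] S).toRingHom x).comp
      (finSuccEquiv O 2).toRingEquiv.toRingHom =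
      (aeval ![x, y, z] : MvPolynomial (Fin 3) O →ₐ[O] S).toRingHom := by
    refine MvPolynomial.ringHom_ext (fun r => ?_) fun i => ?_
    · simp [finSuccEquiv_apply]
    · refine Fin.cases ?_ (fun j => ?_) i
      · simp [finSuccEquiv_X_zero]
      · simp [finSuccEquiv_X_succ]
  exact RingHom.congr_fun this G

theorem Ker_cub (α β γ : O) : finSuccEquiv O 2 (cub α β γ) =
    Polynomial.X * Polynomial.C (X 0) * Polynomial.C (X 1) - Polynomial.C (C α * X 0 ^ 3) -
      Polynomial.C (C β) * Polynomial.X ^ 3 - Polynomial.C (C γ * X 1 ^ 3) := by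
  have e1 : finSuccEquiv O 2 (X 1) = Polynomial.C (X 0) := finSuccEquiv_X_succ (j := 0)
  have e2 : finSuccEquiv O 2 (X 2) = Polynomial.C (X 1) := finSuccEquiv_X_succ (j := 1)
  have e3 : ∀ r : O, finSuccEquiv O 2 (C r) = Polynomial.C (C r) := fun r => by
    simp [finSuccEquiv_apply]
  simp only [cub, map_sub, map_mul, map_pow, finSuccEquiv_X_zero, e1, e2, e3]

theorem Ker_norm {P : Type} [CommRing P] (b β x y v w : P) (h : b * β = 1) :
    Polynomial.X ^ 3 + (Polynomial.C (-(b * x * y)) * Polynomial.X + Polynomial.C (b * (v + w))) =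
      Polynomial.C (-b) * (Polynomial.X * Polynomial.C x * Polynomial.C y - Polynomial.C v -
        Polynomial.C β * Polynomial.X ^ 3 - Polynomial.C w) := by
  have e : Polynomial.C b * Polynomial.C β = 1 := by rw [← map_mul, h, map_one]
  simp only [map_mul, map_neg, map_add]
  linear_combination (-Polynomial.X ^ 3) * e

theorem ker_cub {θ : Fin 3 → R} {α β γ : O}
    (h3 : ∀ i : Fin 3, PowerSeries.constantCoeff (θ i) = LaurentPolynomial.T ((i : ℕ) : ℤ))
    (h4 : ∀ β : O, θ 0 * θ 2 ≠ algebraMap O R β * θ 1 ^ 2)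
    (hα : PowerSeries.constantCoeff α = 0) (hβ : PowerSeries.constantCoeff β = 1)
    (hz : aeval ![θ 1, θ 0, θ 2] (cub α β γ) = 0) (D : ℕ) (G : MvPolynomial (Fin 3) O)
    (hG : G.IsHomogeneous D) (h : aeval ![θ 1, θ 0, θ 2] G = 0) : cub α β γ ∣ G := by
  obtain ⟨b, hb⟩ : ∃ b : O, b * β = 1 :=
    (PowerSeries.isUnit_iff_constantCoeff.2 (by rw [hβ]; exact isUnit_one)).exists_left_inv
  have hinj := inj_two (θ0 := θ 0) (θ2 := θ 2) (by simpa using h3 0) (by simpa using h3 2)
  have hv : ∀ {E : ℕ} {H : MvPolynomial (Fin 3) O}, H.IsHomogeneous E →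
      aeval ![θ 1, θ 0, θ 2] H = 0 → (finSuccEquiv O 2 H).eval₂
        (aeval ![Polynomial.X * Polynomial.C (θ 0), Polynomial.X * Polynomial.C (θ 2)] :
          MvPolynomial (Fin 2) O →ₐ[O] Polynomial R).toRingHom
        (Polynomial.X * Polynomial.C (θ 1)) = 0 := by
    intro E H hH h0
    have := Ker_scale ![θ 1, θ 0, θ 2] hH
    rw [h0, map_zero, mul_zero] at this
    rw [Ker_succ, ← this]
    congr 2
    funext i
    fin_cases i <;> rfl
  have hc : (cub α β γ).IsHomogeneous 3 := by
    unfold cub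
    refine ((IsHomogeneous.sub ?_ ?_).sub ?_).sub ?_
    · exact ((isHomogeneous_X O 0).mul (isHomogeneous_X O 1)).mul (isHomogeneous_X O 2)
    · exact (isHomogeneous_X_pow 1 3).C_mul _
    · exact (isHomogeneous_X_pow 0 3).C_mul _
    · exact (isHomogeneous_X_pow 2 3).C_mul _
  have hbb : (C b * C β : MvPolynomial (Fin 2) O) = 1 := by rw [← map_mul, hb, map_one]
  set p : Polynomial (MvPolynomial (Fin 2) O) := Polynomial.X ^ 3 +
    (Polynomial.C (-(C b * X 0 * X 1)) * Polynomial.X +
      Polynomial.C (C b * (C α * X 0 ^ 3 + C γ * X 1 ^ 3))) with hp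
  have hpe : p = Polynomial.C (-C b) * finSuccEquiv O 2 (cub α β γ) := by
    rw [Ker_cub, hp]
    exact Ker_norm _ _ _ _ _ _ hbb
  have hlt : (Polynomial.C (-(C b * X 0 * X 1)) * Polynomial.X +
      Polynomial.C (C b * (C α * X 0 ^ 3 + C γ * X 1 ^ 3)) :
      Polynomial (MvPolynomial (Fin 2) O)).degree < (3 : ℕ) :=
    Polynomial.degree_linear_le.trans_lt (by norm_num)
  have hm : p.Monic := Polynomial.monic_X_pow_add hlt
  have hdeg : p.natDegree = 3 := by
    rw [hp, Polynomial.natDegree_add_eq_left_of_degree_lt (by rwa [Polynomial.degree_X_pow]),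
      Polynomial.natDegree_X_pow]
  have hirr : Irreducible p := by
    rw [hm.irreducible_iff_roots_eq_zero_of_degree_le_three (by omega) (by omega),
      Multiset.eq_zero_iff_forall_notMem]
    intro ρ hρ
    have h1 : p.eval ρ = 0 := ((Polynomial.mem_roots hm.ne_zero).1 hρ)
    rw [hp] at h1
    simp only [Polynomial.eval_add, Polynomial.eval_mul, Polynomial.eval_pow, Polynomial.eval_X,
      Polynomial.eval_C] at h1
    obtain ⟨rfl, rfl⟩ := no_root (γ := γ) hα hβ ρ (by
      linear_combination (-C β) * h1 -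
        (ρ * X 0 * X 1 - C α * X 0 ^ 3 - C γ * X 1 ^ 3) * hbb)
    have h1ne : θ 1 ≠ 0 := fun h0 => by
      have := h3 1
      rw [h0, map_zero] at this
      exact (LaurentPolynomial.isUnit_T _).ne_zero this.symm
    refine h4 β (mul_left_cancel₀ h1ne ?_)
    simp [cub] at hz
    linear_combination hz
  have hdvd := Ker_aux _ hinj _ p _ hm hirr
    (by rw [hpe, Polynomial.eval₂_mul, hv hc hz, mul_zero]) (hv hG h)
  rw [hpe] at hdvd
  exact (map_dvd_iff (finSuccEquiv O 2)).1 ((Dvd.intro_left _ rfl).trans hdvd)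

end Pool.Agent.Lib.MP_d03834_ag.Nag
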