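import Pool.Agent.Lib.MP_d03834_ag.Nag.Th

/-! The three basic theta series of degree three. -/

set_option autoImplicit false

namespace Pool.Agent.Lib.MP_d03834_ag.Nag

open MvPolynomial

/-- the exponent of t in the term number k -/
def Theta_P (N a i k e : ℤ) : Prop := 2 * e = N * (2 * i * k + 3 * (k * (k - 1))) + 2 * a * k

lemma Theta_bound {N a i k e : ℤ} (h0 : 0 < a) (h1 : a < N) (hi : 0 ≤ i) (hi2 : i ≤ 2)
    (h : Theta_P N a i k e) : -e ≤ k ∧ k ≤ e := by
  unfold Theta_P at h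
  rcases le_or_gt 0 k with hk | hk
  · have h2 : 0 ≤ k * (k - 1) := by
      rcases eq_or_lt_of_le hk with rfl | h3
      · simp
      · exact mul_nonneg hk (by omega)
    have h3 : 0 ≤ N * (2 * i * k + 3 * (k * (k - 1))) :=
      mul_nonneg (by omega) (add_nonneg (by positivity) (by positivity))
    have h4 : k ≤ a * k := by nlinarith
    constructor <;> nlinarith
  · have h2 : -2 * k ≤ 2 * i * k + 3 * (k * (k - 1)) := by nlinarith
    have h3 : N * (-2 * k) ≤ N * (2 * i * k + 3 * (k * (k - 1))) :=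
      mul_le_mul_of_nonneg_left h2 (by omega)
    have h4 : -k ≤ (N - a) * (-k) := by nlinarith
    constructor <;> nlinarith

open Classical in
/-- the theta series -/
noncomputable def Theta_f (N a i : ℤ) : R :=
  PowerSeries.mk fun e : ℕ =>
    ∑ k ∈ (Finset.Icc (-(e : ℤ)) e).filter (fun k => Theta_P N a i k e),
      LaurentPolynomial.T (i + 3 * k)

lemma Theta_ne {N a i b e : ℤ} (h : cz (Theta_f N a i) b e ≠ 0) :
    ∃ k, b = i + 3 * k ∧ Theta_P N a i k e := by
  classical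
  rcases lt_or_ge e 0 with he | he
  · exact absurd (Th_neg _ _ he) h
  obtain ⟨n, rfl⟩ := Int.eq_ofNat_of_zero_le he
  rw [Th_nat, Theta_f, PowerSeries.coeff_mk, AddMonoidAlgebra.coeff_sum,
    Finsupp.finsetSum_apply] at h
  obtain ⟨k, hk, h2⟩ := Finset.exists_ne_zero_of_sum_ne_zero h
  refine ⟨k, ?_, (Finset.mem_filter.1 hk).2⟩
  by_contra h3
  exact h2 (by rw [LaurentPolynomial.T_apply, if_neg (Ne.symm h3)])

lemma Theta_one {N a i k e : ℤ} (h0 : 0 < a) (h1 : a < N) (hi : 0 ≤ i) (hi2 : i ≤ 2)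
    (h : Theta_P N a i k e) : cz (Theta_f N a i) (i + 3 * k) e = 1 := by
  classical
  have hb := Theta_bound h0 h1 hi hi2 h
  obtain ⟨n, rfl⟩ := Int.eq_ofNat_of_zero_le (show 0 ≤ e by omega)
  rw [Th_nat, Theta_f, PowerSeries.coeff_mk, AddMonoidAlgebra.coeff_sum,
    Finsupp.finsetSum_apply, Finset.sum_eq_single k]
  · rw [LaurentPolynomial.T_apply, if_pos rfl]
  · intro k' _ hk
    rw [LaurentPolynomial.T_apply, if_neg (by omega)]
  · intro hk
    exact absurd (Finset.mem_filter.2 ⟨Finset.mem_Icc.2 hb, h⟩) hk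

lemma Theta_th {N a i : ℤ} (h0 : 0 < a) (h1 : a < N) (hi : 0 ≤ i) (hi2 : i ≤ 2) :
    Th N 3 a (Theta_f N a i) := by
  intro b e
  by_cases h : cz (Theta_f N a i) b e = 0
  · rw [h]
    by_contra h2
    obtain ⟨k, hk, h3⟩ := Theta_ne h2
    have hb : b = i + 3 * (k - 1) := by omega
    have h4 : Theta_P N a i (k - 1) e := by
      unfold Theta_P at h3 ⊢
      rw [hb] at h3
      linarith
    rw [hb, Theta_one h0 h1 hi hi2 h4] at h
    exact one_ne_zero h
  · obtain ⟨k, rfl, h3⟩ := Theta_ne h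
    have h4 : Theta_P N a i (k + 1) (e + N * (i + 3 * k) + a) := by
      unfold Theta_P at h3 ⊢
      linarith
    rw [Theta_one h0 h1 hi hi2 h3, show i + 3 * k + 3 = i + 3 * (k + 1) by ring,
      Theta_one h0 h1 hi hi2 h4]

lemma Theta_const (N a i : ℤ) :
    PowerSeries.constantCoeff (Theta_f N a i) = LaurentPolynomial.T i := by
  classical
  rw [← PowerSeries.coeff_zero_eq_constantCoeff_apply, Theta_f, PowerSeries.coeff_mk,
    Finset.sum_eq_single 0]
  · simp
  · intro k hk h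
    have := Finset.mem_Icc.1 (Finset.mem_filter.1 hk).1
    omega
  · intro h
    exact absurd (Finset.mem_filter.2 ⟨by simp, by simp [Theta_P]⟩) h

lemma Theta_left {N a : ℤ} (h0 : 0 < a) (h1 : a < N) :
    cz (Theta_f N a 0 * Theta_f N a 2) 5 a = 1 := by
  rw [Th_conv, finsum_eq_single _ ((3 : ℤ), a)]
  · have h2 : cz (Theta_f N a 0) (0 + 3 * 1) a = 1 :=
      Theta_one h0 h1 le_rfl (by norm_num) (by unfold Theta_P; ring)
    have h3 : cz (Theta_f N a 2) (2 + 3 * 0) 0 = 1 :=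
      Theta_one h0 h1 (by norm_num) le_rfl (by unfold Theta_P; ring)
    norm_num at h2 h3 ⊢
    rw [h2, h3, one_mul]
  · rintro ⟨b, e⟩ hp
    by_contra h
    obtain ⟨k, hk, h2⟩ := Theta_ne (left_ne_zero_of_mul h)
    obtain ⟨k', hk', h3⟩ := Theta_ne (right_ne_zero_of_mul h)
    simp only at hk hk' h2 h3
    obtain rfl : k' = 1 - k := by omega
    unfold Theta_P at h2 h3
    have h4 : N * ((k - 1) * (3 * k - 2)) = 0 := by linarith
    rcases mul_eq_zero.1 h4 with h5 | h5
    · omega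
    rcases mul_eq_zero.1 h5 with h6 | h6
    · obtain rfl : k = 1 := by omega
      exact hp (Prod.ext (by simp only; omega) (by simp only; linarith))
    · omega

lemma Theta_right {N a : ℤ} (h0 : 0 < a) (h1 : a < N) (β : O) :
    cz (algebraMap O R β * Theta_f N a 1 ^ 2) 5 a = 0 := by
  rw [Th_conv]
  refine finsum_eq_zero_of_forall_eq_zero fun p => ?_
  by_contra h
  have h2 := left_ne_zero_of_mul h
  have h3 := right_ne_zero_of_mul h
  have h4 : 0 ≤ p.2 := not_lt.1 fun h5 => h2 (Th_neg _ _ h5)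
  have h5 : p.1 = 0 := by
    by_contra h6
    obtain ⟨n, hn⟩ := Int.eq_ofNat_of_zero_le h4
    rw [hn, Th_nat, show algebraMap O R β = PowerSeries.map (algebraMap ℂ L) β from rfl,
      PowerSeries.coeff_map] at h2
    exact h2 (by simp [h6])
  rw [sq, Th_conv] at h3
  refine h3 (finsum_eq_zero_of_forall_eq_zero fun q => ?_)
  by_contra h6
  obtain ⟨k, hk, h7⟩ := Theta_ne (left_ne_zero_of_mul h6)
  obtain ⟨k', hk', h8⟩ := Theta_ne (right_ne_zero_of_mul h6)
  obtain rfl : k' = 1 - k := by omega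
  unfold Theta_P at h7 h8
  have h9 : 0 ≤ k * (k - 1) := by
    rcases le_or_gt k 0 with h10 | h10
    · exact mul_nonneg_of_nonpos_of_nonpos h10 (by omega)
    · exact mul_nonneg (by omega) (by omega)
  have h10 : 0 < N * (1 + 3 * (k * (k - 1))) := mul_pos (by omega) (by omega)
  linarith

theorem exists_theta {N a : ℤ} (h0 : 0 < a) (h1 : a < N) : ∃ θ : Fin 3 → R,
    (∀ i, Th N 3 a (θ i)) ∧ (∀ i : Fin 3, Cl (i : ℕ) (θ i)) ∧
    (∀ i : Fin 3, PowerSeries.constantCoeff (θ i) = LaurentPolynomial.T ((i : ℕ) : ℤ)) ∧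
    ∀ β : O, θ 0 * θ 2 ≠ algebraMap O R β * θ 1 ^ 2 := by
  refine ⟨fun i => Theta_f N a (i : ℕ), fun i => Theta_th h0 h1 (by omega) (by omega),
    fun i b e h => ?_, fun i => Theta_const _ _ _, fun β h => ?_⟩
  · obtain ⟨k, hk, -⟩ := Theta_ne h
    exact ⟨k, by omega⟩
  · have h2 := Theta_left h0 h1
    have h3 := Theta_right h0 h1 β
    change Theta_f N a 0 * Theta_f N a 2 = algebraMap O R β * Theta_f N a 1 ^ 2 at h
    rw [h, h3] at h2
    exact zero_ne_one h2

end Pool.Agent.Lib.MP_d03834_ag.Nag
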