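import Pool.Agent.Lib.MP_d03834_ag.Nag.Win
import Pool.Agent.Lib.MP_d03834_ag.Nag.Theta
import Pool.Agent.Lib.MP_d03834_ag.Nag.Cubic
import Pool.Agent.Lib.MP_d03834_ag.Nag.Ker

set_option autoImplicit false

namespace Pool.Agent.Lib.MP_d03834_ag.Nag

open MvPolynomial

theorem Data_scale (τ : R) (ψ : Fin 3 → R) {D : ℕ} {G : MvPolynomial (Fin 3) O}
    (hG : G.IsHomogeneous D) : aeval (fun i => τ * ψ i) G = τ ^ D * aeval ψ G := by
  conv_lhs => rw [G.as_sum]
  conv_rhs => rw [G.as_sum]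
  rw [map_sum, map_sum, Finset.mul_sum]
  refine Finset.sum_congr rfl fun d hd => ?_
  have h1 : D = ∑ i, d i := by
    rw [← hG (mem_support_iff.1 hd), Finsupp.weight_apply, Finsupp.sum_fintype _ _ (by simp)]
    simp
  rw [aeval_monomial, aeval_monomial, Finsupp.prod_fintype _ _ (by simp),
    Finsupp.prod_fintype _ _ (by simp), h1]
  simp only [mul_pow, Finset.prod_mul_distrib, Finset.prod_pow_eq_pow_sum]
  ring

theorem Data_hom (α β γ : O) : (cub α β γ).IsHomogeneous 3 := by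
  unfold cub
  refine (((((isHomogeneous_X _ 0).mul (isHomogeneous_X _ 1)).mul (isHomogeneous_X _ 2)).sub
    ?_).sub ?_).sub ?_
  · exact ((isHomogeneous_X _ 1).pow 3).C_mul α
  · exact ((isHomogeneous_X _ 0).pow 3).C_mul β
  · exact ((isHomogeneous_X _ 2).pow 3).C_mul γ

theorem Data_der (α β γ : O) : pderiv 1 (cub α β γ) = X 0 * X 2 - C α * (3 * X 1 ^ 2) := by
  simp [cub, pderiv_X]
  ring

theorem exists_data {N a : ℤ} (hN : 0 < N) (ha : ¬N ∣ a) : ∃ φ c w, Data N a φ c w := by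
  have h0 : 0 < a % N :=
    lt_of_le_of_ne (Int.emod_nonneg a hN.ne') fun h => ha (Int.dvd_of_emod_eq_zero h.symm)
  obtain ⟨θ, h1, h2, h3, h4⟩ := exists_theta h0 (Int.emod_lt_of_pos a hN)
  obtain ⟨α, β, γ, hα, hβ, -, hz⟩ := exists_cubic h1 h2 h3
  set τ : R := PowerSeries.C (LaurentPolynomial.T (-(a / N))) with hτ
  have hc : PowerSeries.constantCoeff τ = LaurentPolynomial.T (-(a / N)) := by simp [hτ]
  have hu : IsUnit τ := by
    rw [PowerSeries.isUnit_iff_constantCoeff, hc]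
    exact LaurentPolynomial.isUnit_T _
  have hθ : ∀ i, IsUnit (PowerSeries.constantCoeff (θ i)) := fun i => by
    rw [h3]
    exact LaurentPolynomial.isUnit_T _
  have hd : IsUnit (aeval (fun i => τ * (![θ 1, θ 0, θ 2] : Fin 3 → R) i)
      (pderiv 1 (cub α β γ))) := by
    have hA : PowerSeries.constantCoeff (algebraMap O R α) = 0 := by
      rw [← PowerSeries.coeff_zero_eq_constantCoeff_apply, Win_coeff_alg,
        PowerSeries.coeff_zero_eq_constantCoeff_apply, hα, map_zero]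
    rw [PowerSeries.isUnit_iff_constantCoeff, Data_der]
    simp only [map_sub, map_mul, aeval_X, aeval_C, hA, zero_mul, sub_zero, Matrix.cons_val_zero,
      Matrix.cons_val, hc]
    exact ((LaurentPolynomial.isUnit_T _).mul (hθ 1)).mul
      ((LaurentPolynomial.isUnit_T _).mul (hθ 2))
  obtain ⟨w, hw⟩ := hd.exists_right_inv
  refine ⟨fun i => τ * (![θ 1, θ 0, θ 2] : Fin 3 → R) i, cub α β γ, w, fun i => ?_,
    Data_hom α β γ, ?_, hw, ?_, fun D G hG h => ?_⟩
  · have e : N * (a / N) + a % N = a := Int.mul_ediv_add_emod a N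
    have : Th N 3 (a % N) ((![θ 1, θ 0, θ 2] : Fin 3 → R) i) := by
      fin_cases i
      exacts [h1 1, h1 0, h1 2]
    have := Th_mul (Th_T N (a / N)) this
    rwa [zero_add, e] at this
  · rw [Data_scale τ _ (Data_hom α β γ), hz, mul_zero]
  · exact hu.mul (PowerSeries.isUnit_iff_constantCoeff.2 (hθ 2))
  · rw [Data_scale τ _ hG] at h
    exact ker_cub h3 h4 hα hβ hz D G hG (((hu.pow D).mul_right_eq_zero).1 h)

end Pool.Agent.Lib.MP_d03834_ag.Nag
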