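import Pool.Agent.Lib.MP_d03834_ag.Nag.Defs

set_option autoImplicit false

namespace Pool.Agent.Lib.MP_d03834_ag.Nag

open MvPolynomial

theorem co_coeff (e : ℕ) (M : Polynomial R) (j : ℕ) :
    (co e M).coeff j = PowerSeries.coeff e (M.coeff j) := by
  unfold co
  rw [Polynomial.sum, Polynomial.finsetSum_coeff]
  simp only [Polynomial.coeff_monomial]
  rw [Finset.sum_ite_eq']
  split_ifs with h
  · rfl
  · rw [Polynomial.notMem_support_iff.1 h, map_zero]

/-- polynomials over power series as power series over polynomials -/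
noncomputable def Filt_sw : Polynomial R →+* PowerSeries B :=
  Polynomial.eval₂RingHom (PowerSeries.map (Polynomial.C : L →+* B)) (PowerSeries.C Polynomial.X)

theorem Filt_sw_coeff (e : ℕ) (M : Polynomial R) : PowerSeries.coeff e (Filt_sw M) = co e M := by
  induction M using Polynomial.induction_on' with
  | add p q hp hq =>
    rw [map_add, map_add, hp, hq]
    ext1 j
    simp [co_coeff]
  | monomial n a =>
    ext1 j
    rw [co_coeff, Filt_sw, Polynomial.coe_eval₂RingHom, Polynomial.eval₂_monomial, ← map_pow,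
      PowerSeries.coeff_mul_C, PowerSeries.coeff_map, Polynomial.C_mul_X_pow_eq_monomial,
      Polynomial.coeff_monomial, Polynomial.coeff_monomial]
    split_ifs <;> simp

theorem Filt_mul {I I' : Ideal B} {x y : Polynomial (Polynomial R)}
    (hx : ∀ k e : ℕ, co e (x.coeff k) ∈ I) (hy : ∀ k e : ℕ, co e (y.coeff k) ∈ I') (k e : ℕ) :
    co e ((x * y).coeff k) ∈ I * I' := by
  rw [← Filt_sw_coeff, Polynomial.coeff_mul, map_sum, map_sum]
  refine Ideal.sum_mem _ fun p _ => ?_
  rw [map_mul, PowerSeries.coeff_mul]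
  refine Ideal.sum_mem _ fun q _ => ?_
  rw [Filt_sw_coeff, Filt_sw_coeff]
  exact Ideal.mul_mem_mul (hx _ _) (hy _ _)

/-- evaluation at y = z, s = σ -/
noncomputable def Filt_ev (z : ℂˣ) (σ : ℂ) : Polynomial R →+* O :=
  (PowerSeries.map (Polynomial.eval₂RingHom (evL z) σ)).comp Filt_sw

theorem Filt_ev_alg (z : ℂˣ) (σ : ℂ) (o : O) :
    Filt_ev z σ (Polynomial.C (algebraMap O R o)) = o := by
  have h : algebraMap O R o = PowerSeries.map (algebraMap ℂ L) o := rfl
  ext e
  rw [h, Filt_ev, RingHom.comp_apply, Filt_sw, Polynomial.coe_eval₂RingHom, Polynomial.eval₂_C,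
    PowerSeries.coeff_map, PowerSeries.coeff_map, PowerSeries.coeff_map,
    Polynomial.coe_eval₂RingHom, Polynomial.eval₂_C]
  exact LaurentPolynomial.eval₂_C _ _ _

theorem filt {φ : Fin 3 → R} (w : R) (hu : IsUnit (φ 2)) (z : ℂˣ) (σ : ℂ) : ∃ P : Fin 2 → A,
    ∀ (m : ℕ) (F : MvPolynomial (Fin 3) A), F ∈ hid P ^ m →
      ∀ k e : ℕ, co e ((Psi φ w F).coeff k) ∈ pt z σ ^ m := by
  obtain ⟨v, hv⟩ := ((hu.map (Polynomial.C : R →+* Polynomial R)).map (Filt_ev z σ)).exists_left_inv
  let ev : MvPolynomial (Fin 3) A →+* A :=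
    (Polynomial.mapRingHom (Filt_ev z σ)).comp (Psi φ w)
  have hC : ∀ p : A, ev (C p) = p := by
    intro p
    ext1 k
    simp only [ev, Psi, RingHom.comp_apply, eval₂Hom_C, Polynomial.coe_mapRingHom,
      Polynomial.coeff_map]
    exact Filt_ev_alg z σ _
  have h2 : Polynomial.C v * ev (X 2) = 1 := by
    simp only [ev, Psi, RingHom.comp_apply, eval₂Hom_X', Polynomial.coe_mapRingHom]
    rw [show ∀ x y u : Polynomial (Polynomial R), ![x, y, u] 2 = u from fun _ _ _ => rfl,
      Polynomial.map_C, ← map_mul, hv, map_one]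
  refine ⟨![ev (X 0) * Polynomial.C v, ev (X 1) * Polynomial.C v], fun m => ?_⟩
  have hker : hid ![ev (X 0) * Polynomial.C v, ev (X 1) * Polynomial.C v] ≤ RingHom.ker ev := by
    rw [hid, Ideal.span_le]
    rintro x (rfl | rfl)
    · rw [SetLike.mem_coe, RingHom.mem_ker, map_sub, map_mul, hC]
      simp only [Matrix.cons_val_zero]
      rw [mul_assoc, h2, mul_one, sub_self]
    · rw [SetLike.mem_coe, RingHom.mem_ker, map_sub, map_mul, hC]
      simp only [Matrix.cons_val_one, Matrix.cons_val_zero]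
      rw [mul_assoc, h2, mul_one, sub_self]
  induction m with
  | zero =>
    intro F _ k e
    simp
  | succ m ih =>
    intro F hF
    rw [pow_succ] at hF
    refine Submodule.mul_induction_on hF (fun x hx y hy k e => ?_) fun x y hx hy k e => ?_
    · rw [map_mul, Submodule.pow_succ]
      refine Filt_mul (ih x hx) (fun k e => ?_) k e
      have h3 := congrArg (fun p : A => PowerSeries.coeff e (p.coeff k)) (RingHom.mem_ker.1 (hker hy))
      simp only [ev, RingHom.comp_apply, Polynomial.coe_mapRingHom, Polynomial.coeff_map, Filt_ev,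
        PowerSeries.coeff_map, Filt_sw_coeff, Polynomial.coeff_zero, map_zero] at h3
      exact h3
    · rw [map_add, Polynomial.coeff_add, ← Filt_sw_coeff, map_add, map_add, Filt_sw_coeff,
        Filt_sw_coeff]
      exact Ideal.add_mem _ (hx k e) (hy k e)

end Pool.Agent.Lib.MP_d03834_ag.Nag
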