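import Pool.Agent.Lib.MP_d03834_ag.Nag.Defs

/-! From one configuration over a domain to general complex configurations. -/

set_option autoImplicit false

namespace Pool.Agent.Lib.MP_d03834_ag.Nag

open MvPolynomial

section ring
variable {K : Type*} [CommRing K]

/-- translation of the point to the origin -/
noncomputable def genTr (p : Fin 2 → K) : MvPolynomial (Fin 3) K →ₐ[K] MvPolynomial (Fin 3) K :=
  aeval ![X 0 + C (p 0) * X 2, X 1 + C (p 1) * X 2, X 2]

lemma genTr_neg (p : Fin 2 → K) (F : MvPolynomial (Fin 3) K) : genTr (-p) (genTr p F) = F := by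
  have : (genTr (-p)).comp (genTr p) = AlgHom.id K _ := by
    refine algHom_ext fun i => ?_
    fin_cases i <;> simp [genTr]
  exact DFunLike.congr_fun this F

lemma genTr_map {K' : Type*} [CommRing K'] (f : K →+* K') (p : Fin 2 → K)
    (F : MvPolynomial (Fin 3) K) : map f (genTr p F) = genTr (f ∘ p) (map f F) := by
  induction F using MvPolynomial.induction_on with
  | C a => simp [genTr]
  | add p q hp hq => simp [hp, hq]
  | mul_X q i hq =>
    simp only [map_mul, hq, map_X]
    congr 1
    fin_cases i <;> simp [genTr]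

lemma genTr_hom (p : Fin 2 → K) {d : ℕ} {F : MvPolynomial (Fin 3) K} (h : F.IsHomogeneous d) :
    (genTr p F).IsHomogeneous d := by
  have := h.aeval (S := K) (τ := Fin 3) ![X 0 + C (p 0) * X 2, X 1 + C (p 1) * X 2, X 2] (n := 1) fun i => by
    fin_cases i
    · exact (isHomogeneous_X K 0).add ((isHomogeneous_X K 2).C_mul _)
    · exact (isHomogeneous_X K 1).add ((isHomogeneous_X K 2).C_mul _)
    · exact isHomogeneous_X K 2
  rw [one_mul] at this
  exact this

lemma genTr_mem (p q : Fin 2 → K) (m : ℕ) {F : MvPolynomial (Fin 3) K} (h : F ∈ hid (p + q) ^ m) :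
    genTr p F ∈ hid q ^ m := by
  have h1 : (hid (p + q)).map (genTr p) ≤ hid q := by
    rw [hid, Ideal.map_span, Ideal.span_le]
    rintro _ ⟨x, hx | hx, rfl⟩
    · refine Ideal.subset_span (Or.inl ?_)
      rw [hx]; simp [genTr]; ring
    · refine Ideal.subset_span (Or.inr ?_)
      rw [Set.mem_singleton_iff.1 hx]; simp [genTr]; ring
  have h2 := Ideal.mem_map_of_mem (genTr p) h
  rw [Ideal.map_pow] at h2
  exact Ideal.pow_right_mono h1 m h2

lemma gen_origin (m : ℕ) (G : MvPolynomial (Fin 3) K) :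
    G ∈ hid (0 : Fin 2 → K) ^ m ↔ ∀ μ : Fin 3 →₀ ℕ, μ 0 + μ 1 < m → coeff μ G = 0 := by
  classical
  have e : hid (0 : Fin 2 → K) = Ideal.span {X 0, X 1} := by simp [hid]
  rw [e]
  constructor
  · induction m generalizing G with
    | zero => intro _ μ h; omega
    | succ m ih =>
      intro h
      rw [pow_succ] at h
      refine Submodule.mul_induction_on h (fun a ha b hb μ hμ => ?_) fun a b ha hb μ hμ => by
        rw [coeff_add, ha μ hμ, hb μ hμ, add_zero]
      obtain ⟨x, y, rfl⟩ := Ideal.mem_span_pair.1 hb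
      have k : ∀ z, ∀ ν : Fin 3 →₀ ℕ, ν 0 + ν 1 < m → coeff ν (a * z) = 0 := fun z =>
        ih _ (Ideal.mul_mem_right _ _ ha)
      rw [mul_add, ← mul_assoc, ← mul_assoc, coeff_add, coeff_mul_X', coeff_mul_X']
      have k0 : (if 0 ∈ μ.support then coeff (μ - Finsupp.single 0 1) (a * x) else 0) = 0 := by
        split_ifs with h0
        · rw [Finsupp.mem_support_iff] at h0
          exact k _ _ (by simp; omega)
        · rfl
      have k1 : (if 1 ∈ μ.support then coeff (μ - Finsupp.single 1 1) (a * y) else 0) = 0 := by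
        split_ifs with h0
        · rw [Finsupp.mem_support_iff] at h0
          exact k _ _ (by simp; omega)
        · rfl
      rw [k0, k1, add_zero]
  · intro h
    rw [G.as_sum]
    refine Ideal.sum_mem _ fun μ hμ => ?_
    have h1 : m ≤ μ 0 + μ 1 := not_lt.1 fun h' => mem_support_iff.1 hμ (h μ h')
    rw [monomial_eq, Finsupp.prod_fintype _ _ fun _ => pow_zero _, Fin.prod_univ_three]
    refine Ideal.mul_mem_left _ _ (Ideal.mul_mem_right _ _ (Ideal.pow_le_pow_right h1 ?_))
    rw [pow_add]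
    exact Ideal.mul_mem_mul (Ideal.pow_mem_pow (Ideal.subset_span (Set.mem_insert _ _)) _)
      (Ideal.pow_mem_pow (Ideal.subset_span (Set.mem_insert_of_mem _ (Set.mem_singleton _))) _)

lemma gen_mem (p : Fin 2 → K) (m : ℕ) (F : MvPolynomial (Fin 3) K) :
    F ∈ hid p ^ m ↔ ∀ μ : Fin 3 →₀ ℕ, μ 0 + μ 1 < m → coeff μ (genTr p F) = 0 := by
  rw [← gen_origin]
  refine ⟨fun h => genTr_mem p 0 m (by rwa [add_zero]), fun h => ?_⟩
  rw [← genTr_neg p F]
  exact genTr_mem (-p) p m (by rwa [neg_add_cancel])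

/-- exponents of degree `d` -/
abbrev GenE (d : ℕ) : Type := (Finset.univ : Finset (Fin 3)).finsuppAntidiag d

lemma genE_mem {d : ℕ} {μ : Fin 3 →₀ ℕ} :
    μ ∈ (Finset.univ : Finset (Fin 3)).finsuppAntidiag d ↔ μ.degree = d := by
  simp [Finset.mem_finsuppAntidiag, Finsupp.degree_eq_sum]

/-- the matrix of the conditions -/
noncomputable def genM {ι : Type} (d : ℕ) (m : ι → ℕ) (P : ι → Fin 2 → K) :
    Matrix (ι × GenE d) (GenE d) K := fun r ν =>
  if r.2.1 0 + r.2.1 1 < m r.1 then coeff r.2.1 (genTr (P r.1) (monomial ν.1 1)) else 0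

lemma genM_map {K' : Type*} [CommRing K'] (f : K →+* K') {ι : Type} (d : ℕ) (m : ι → ℕ)
    (P : ι → Fin 2 → K) : (genM d m P).map f = genM d m fun l => f ∘ P l := by
  ext r ν
  simp only [genM, Matrix.map_apply]
  split_ifs
  · rw [← coeff_map, genTr_map, map_monomial, map_one]
  · exact map_zero f

lemma genM_mulVec {ι : Type} (d : ℕ) (m : ι → ℕ) (P : ι → Fin 2 → K) (c : GenE d → K)
    (r : ι × GenE d) : (genM d m P).mulVec c r = if r.2.1 0 + r.2.1 1 < m r.1 then
      coeff r.2.1 (genTr (P r.1) (∑ ν : GenE d, monomial ν.1 (c ν))) else 0 := by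
  simp only [Matrix.mulVec, dotProduct, genM]
  split_ifs
  · rw [map_sum, coeff_sum]
    refine Finset.sum_congr rfl fun ν _ => ?_
    rw [mul_comm, ← smul_eq_mul, ← coeff_smul, ← map_smul, smul_monomial, smul_eq_mul, mul_one]
  · simp

lemma gen_iff {ι : Type} (d : ℕ) (m : ι → ℕ) (P : ι → Fin 2 → K) :
    (∀ F : MvPolynomial (Fin 3) K, F.IsHomogeneous d → (∀ l, F ∈ hid (P l) ^ m l) → F = 0) ↔
      ∀ c, (genM d m P).mulVec c = 0 → c = 0 := by
  classical
  have hc : ∀ (c : GenE d → K) (ν : GenE d),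
      coeff ν.1 (∑ ν : GenE d, monomial ν.1 (c ν)) = c ν := by
    intro c ν
    rw [coeff_sum, Finset.sum_eq_single ν]
    · simp
    · intro ν' _ h
      rw [coeff_monomial, if_neg fun e => h (Subtype.ext e)]
    · simp
  have hh : ∀ c : GenE d → K, (∑ ν : GenE d, monomial ν.1 (c ν)).IsHomogeneous d := fun c =>
    IsHomogeneous.sum _ _ _ fun ν _ => isHomogeneous_monomial _ (genE_mem.1 ν.2)
  constructor
  · intro h c h0
    have := h _ (hh c) fun l => (gen_mem _ _ _).2 fun μ hμ => by
      by_cases hd : μ.degree = d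
      · have := congrFun h0 (l, ⟨μ, genE_mem.2 hd⟩)
        rwa [genM_mulVec, if_pos hμ] at this
      · exact (genTr_hom _ (hh c)).coeff_eq_zero hd
    funext ν
    rw [← hc c ν, this]; simp
  · intro h F hF hm
    have e : ∑ ν : GenE d, monomial ν.1 (coeff ν.1 F) = F := by
      ext μ
      by_cases hd : μ.degree = d
      · exact hc (fun ν => coeff ν.1 F) ⟨μ, genE_mem.2 hd⟩
      · rw [(hh _).coeff_eq_zero hd, hF.coeff_eq_zero hd]
    have := h (fun ν => coeff ν.1 F) (funext fun r => by
      rw [genM_mulVec, e]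
      split_ifs with h1
      · exact (gen_mem _ _ _).1 (hm r.1) _ h1
      · rfl)
    rw [← e]
    exact Finset.sum_eq_zero fun ν _ => by rw [congrFun this ν]; simp

end ring

lemma gen_det {A K ρ σ : Type} [CommRing A] [IsDomain A] [Infinite A] [CommRing K] [IsDomain K]
    [Fintype ρ] [Fintype σ] [DecidableEq σ] (f : A →+* K) (M : Matrix ρ σ A)
    (h : ∀ c, (M.map f).mulVec c = 0 → c = 0) : ∃ Y : Matrix σ ρ A, (Y * M).det ≠ 0 := by
  classical
  let g : A →+* FractionRing K := (algebraMap K _).comp f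
  have h1 : LinearMap.ker (Matrix.toLin' (M.map g)) = ⊥ := by
    rw [LinearMap.ker_eq_bot']
    intro c hc
    obtain ⟨b, hb⟩ := IsLocalization.exist_integer_multiples_of_finite (nonZeroDivisors K) c
    choose c' hc' using hb
    have hb0 : algebraMap K (FractionRing K) b ≠ 0 :=
      IsFractionRing.to_map_ne_zero_of_mem_nonZeroDivisors b.2
    have h2 := h c' (funext fun r => IsFractionRing.injective K (FractionRing K) (by
      have h3 : ∑ j, g (M r j) * c j = 0 := congrFun hc r
      simp only [Matrix.mulVec, dotProduct, map_sum, map_mul, Matrix.map_apply, Pi.zero_apply,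
        map_zero, hc', Algebra.smul_def]
      rw [← mul_zero (algebraMap K (FractionRing K) b), ← h3, Finset.mul_sum]
      exact Finset.sum_congr rfl fun j _ => by simp only [g, RingHom.comp_apply]; ring))
    funext j
    have h4 := hc' j
    rw [h2, Pi.zero_apply, map_zero, Algebra.smul_def] at h4
    exact (mul_eq_zero.1 h4.symm).resolve_left hb0
  obtain ⟨Lm, hL⟩ := LinearMap.exists_leftInverse_of_injective _ h1
  have h2 : LinearMap.toMatrix' Lm * M.map g = 1 := by
    rw [← LinearMap.toMatrix'_toLin' (M.map g), ← LinearMap.toMatrix'_comp, hL,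
      LinearMap.toMatrix'_id]
  let Y0 : Matrix σ ρ (MvPolynomial (σ × ρ) A) := Matrix.of fun i j => X (i, j)
  let Z : Matrix σ σ (MvPolynomial (σ × ρ) A) := Y0 * M.map C
  let D : MvPolynomial (σ × ρ) A := Z.det
  have key : ∀ {S : Type} [CommRing S] (u : A →+* S) (Y : Matrix σ ρ S),
      eval₂Hom u (fun w => Y w.1 w.2) D = (Y * M.map u).det := by
    intro S _ u Y
    rw [RingHom.map_det]
    congr 1
    ext i j
    have e : Z i j = ∑ x, X (i, x) * C (M x j) := Matrix.mul_apply
    rw [RingHom.mapMatrix_apply, Matrix.map_apply, e, Matrix.mul_apply, map_sum]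
    simp
  by_contra hn
  push Not at hn
  have hD : D = 0 := MvPolynomial.funext fun x => by
    have := key (RingHom.id A) (Matrix.of fun i j => x (i, j))
    rw [RingHom.coe_id, Matrix.map_id, hn] at this
    rw [map_zero]
    exact this
  have := key g (LinearMap.toMatrix' Lm)
  rw [hD, h2, map_zero, Matrix.det_one] at this
  exact zero_ne_one this

theorem gen {ι : Type} [Fintype ι] {K : Type} [CommRing K] [IsDomain K] [Algebra ℂ K] (d : ℕ)
    (m : ι → ℕ) (P : ι → Fin 2 → K)
    (h : ∀ F : MvPolynomial (Fin 3) K, F.IsHomogeneous d → (∀ l, F ∈ hid (P l) ^ m l) → F = 0) :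
    Emp d m := by
  classical
  let M := genM d m fun (l : ι) (j : Fin 2) => (X (l, j) : MvPolynomial (ι × Fin 2) ℂ)
  obtain ⟨Y, hY⟩ := gen_det (eval₂Hom (algebraMap ℂ K) fun ij : ι × Fin 2 => P ij.1 ij.2) M (by
    rw [genM_map]
    convert (gen_iff d m P).1 h using 6
    funext j
    simp)
  refine ⟨_, hY, fun Q hQ => (gen_iff d m Q).2 fun c hc => ?_⟩
  rw [RingHom.map_det, RingHom.mapMatrix_apply, Matrix.map_mul, genM_map] at hQ
  refine Matrix.eq_zero_of_mulVec_eq_zero hQ ?_
  rw [← Matrix.mulVec_mulVec]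
  have : (fun l => (eval fun ij : ι × Fin 2 => Q ij.1 ij.2) ∘ fun j : Fin 2 =>
      (X (l, j) : MvPolynomial (ι × Fin 2) ℂ)) = Q := by
    funext l j; simp
  rw [this, hc, Matrix.mulVec_zero]

end Pool.Agent.Lib.MP_d03834_ag.Nag
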