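import Pool.Agent.Lib.MP_d03834_ag.Nag.Defs

/-! The leading coefficient of the substitution along the cubic. -/

set_option autoImplicit false

namespace Pool.Agent.Lib.MP_d03834_ag.Nag

open MvPolynomial

theorem Lead_factor {c G : MvPolynomial (Fin 3) O} {D : ℕ} (hc : c.IsHomogeneous 3)
    (hG : G.IsHomogeneous D) (h0 : G ≠ 0) (h : c ∣ G) :
    ∃ i : ℕ, ∃ G1 : MvPolynomial (Fin 3) O, D = 3 + i ∧ G1.IsHomogeneous i ∧ G = c * G1 := by
  obtain ⟨H, hH⟩ := h
  have e : G = ∑ i ∈ Finset.range (H.totalDegree + 1),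
      if D = 3 + i then c * homogeneousComponent i H else 0 := by
    have e1 : G = homogeneousComponent D G := by
      rw [homogeneousComponent_of_mem (n := D) hG, if_pos rfl]
    rw [e1, hH]
    conv_lhs => rw [← sum_homogeneousComponent H, Finset.mul_sum, map_sum]
    refine Finset.sum_congr rfl fun i _ => ?_
    exact homogeneousComponent_of_mem (hc.mul (homogeneousComponent_isHomogeneous i H))
  obtain ⟨i, hi, hne⟩ := Finset.exists_ne_zero_of_sum_ne_zero (e ▸ h0)
  have hD : D = 3 + i := by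
    by_contra hn
    exact hne (if_neg hn)
  refine ⟨i, homogeneousComponent i H, hD, homogeneousComponent_isHomogeneous i H, ?_⟩
  rw [e, Finset.sum_eq_single i, if_pos hD]
  · intro j _ hj
    exact if_neg (by omega)
  · intro hn
    exact absurd hi hn

theorem Lead_split {N a : ℤ} {φ : Fin 3 → R} {c : MvPolynomial (Fin 3) O} {w : R}
    (h : Data N a φ c w) : ∀ (D : ℕ) (G : MvPolynomial (Fin 3) O), G.IsHomogeneous D → G ≠ 0 →
    ∃ (j : ℕ) (G' : MvPolynomial (Fin 3) O), 3 * j ≤ D ∧ G'.IsHomogeneous (D - 3 * j) ∧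
      aeval φ G' ≠ 0 ∧ G = c ^ j * G' := by
  intro D
  induction D using Nat.strong_induction_on with
  | _ D ih =>
    intro G hG h0
    by_cases hz : aeval φ G = 0
    · obtain ⟨i, G1, rfl, h1, rfl⟩ := Lead_factor h.hom hG h0 (h.ker D G hG hz)
      obtain ⟨j, G', a1, a2, a3, rfl⟩ := ih i (by omega) G1 h1 (right_ne_zero_of_mul h0)
      refine ⟨j + 1, G', by omega, ?_, a3, by ring⟩
      rwa [show 3 + i - 3 * (j + 1) = i - 3 * j by omega]
    · exact ⟨0, G, by omega, by simpa using hG, hz, by simp⟩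

theorem Lead_coeff (φ : Fin 3 → R) (w : R) (G : MvPolynomial (Fin 3) O) :
    (Psi φ w (map Polynomial.C G)).coeff 0 = Polynomial.C (aeval φ G) ∧
      (Psi φ w (map Polynomial.C G)).coeff 1 =
        Polynomial.X * Polynomial.C (aeval φ (pderiv 1 G) * w) := by
  induction G using MvPolynomial.induction_on with
  | C a => simp [Psi, Polynomial.coeff_C]
  | add p q hp hq => simp only [map_add, Polynomial.coeff_add, hp.1, hp.2, hq.1, hq.2, add_mul,
      mul_add, and_self]
  | mul_X p i hp =>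
    rw [map_mul, map_mul, Polynomial.mul_coeff_zero, Polynomial.mul_coeff_one, hp.1, hp.2]
    fin_cases i <;> simp [Psi, Polynomial.coeff_C, pderiv_X, Polynomial.coeff_X] <;> ring

theorem Lead_one {N a : ℤ} {φ : Fin 3 → R} {c : MvPolynomial (Fin 3) O} {w : R}
    (h : Data N a φ c w) (j : ℕ) (G : MvPolynomial (Fin 3) O) :
    (∀ k < j, (Psi φ w (map Polynomial.C (c ^ j * G))).coeff k = 0) ∧
      (Psi φ w (map Polynomial.C (c ^ j * G))).coeff j = Polynomial.monomial j (aeval φ G) := by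
  obtain ⟨h0, h1⟩ := Lead_coeff φ w c
  rw [h.zero, map_zero] at h0
  rw [h.der, map_one, mul_one] at h1
  have e := Polynomial.X_mul_divX_add (Psi φ w (map Polynomial.C c))
  rw [h0, map_zero, add_zero] at e
  have hU : (Psi φ w (map Polynomial.C c)).divX.coeff 0 = Polynomial.X := by
    rw [Polynomial.coeff_divX, h1]
  generalize (Psi φ w (map Polynomial.C c)).divX = U at e hU
  rw [map_mul, map_mul, map_pow, map_pow, ← e,
    (Polynomial.commute_X U).mul_pow, mul_assoc]
  constructor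
  · intro k hk
    rw [Polynomial.coeff_X_pow_mul', if_neg (by omega)]
  · rw [Polynomial.coeff_X_pow_mul', if_pos le_rfl, Nat.sub_self, Polynomial.mul_coeff_zero,
      (Lead_coeff φ w G).1, ← Polynomial.constantCoeff_apply, map_pow,
      Polynomial.constantCoeff_apply, hU, mul_comm, Polynomial.C_mul_X_pow_eq_monomial]

theorem Lead_ind {N a : ℤ} {φ : Fin 3 → R} {c : MvPolynomial (Fin 3) O} {w : R}
    (h : Data N a φ c w) {d : ℕ} : ∀ (K : ℕ) (F : MvPolynomial (Fin 3) A), F.IsHomogeneous d →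
    (∀ m k, K ≤ k → (F.coeff m).coeff k = 0) → F ≠ 0 →
    ∃ μ : ℕ, (∀ k < μ, (Psi φ w F).coeff k = 0) ∧ (Psi φ w F).coeff μ ≠ 0 ∧
      ∀ j : ℕ, ((Psi φ w F).coeff μ).coeff j = 0 ∨
        (j ≤ μ ∧ 3 * j ≤ d ∧ ∃ G : MvPolynomial (Fin 3) O, G.IsHomogeneous (d - 3 * j) ∧
          ((Psi φ w F).coeff μ).coeff j = aeval φ G) := by
  intro K
  induction K with
  | zero =>
    intro F _ hK h0
    exact absurd (MvPolynomial.ext _ _ fun m => Polynomial.ext fun k => by
      simpa using hK m k (Nat.zero_le _)) h0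
  | succ K ih =>
    intro F hF hK h0
    obtain ⟨F', hF'⟩ : ∃ F' : MvPolynomial (Fin 3) A, ∀ m, F'.coeff m = (F.coeff m).divX := by
      refine ⟨∑ m ∈ F.support, monomial m (F.coeff m).divX, fun m => ?_⟩
      rw [coeff_sum]
      simp only [coeff_monomial, Finset.sum_ite_eq']
      split_ifs with hm
      · rfl
      · rw [notMem_support_iff.1 hm, Polynomial.divX_zero]
    obtain ⟨F0, hF0, e⟩ : ∃ F0 : MvPolynomial (Fin 3) O, F0.IsHomogeneous d ∧
        F = map Polynomial.C F0 + C Polynomial.X * F' := by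
      refine ⟨map Polynomial.constantCoeff F, hF.map _, MvPolynomial.ext _ _ fun m => ?_⟩
      rw [coeff_add, coeff_C_mul, hF', coeff_map, coeff_map, Polynomial.constantCoeff_apply,
        add_comm, Polynomial.X_mul_divX_add]
    have hom' : F'.IsHomogeneous d := by
      intro m hm
      refine hF fun hz => hm ?_
      rw [hF', hz, Polynomial.divX_zero]
    have hK' : ∀ m k, K ≤ k → (F'.coeff m).coeff k = 0 := by
      intro m k hk
      rw [hF', Polynomial.coeff_divX]
      exact hK m _ (by omega)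
    have eP : Psi φ w F = Psi φ w (map Polynomial.C F0) + Polynomial.X * Psi φ w F' := by
      rw [e, map_add, map_mul]
      congr 2
      simp [Psi]
    have hX : ∀ μ' : ℕ, (∀ k < μ', (Psi φ w F').coeff k = 0) →
        ∀ k < μ' + 1, (Polynomial.X * Psi φ w F').coeff k = 0 := by
      intro μ' hμ k hk
      rcases k with _ | k
      · simp
      · rw [Polynomial.coeff_X_mul]
        exact hμ k (by omega)
    have first : ∀ (j : ℕ) (G : MvPolynomial (Fin 3) O), 3 * j ≤ d →
        G.IsHomogeneous (d - 3 * j) → aeval φ G ≠ 0 → F0 = c ^ j * G →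
        (∀ k < j + 1, (Polynomial.X * Psi φ w F').coeff k = 0) →
        ∃ μ : ℕ, (∀ k < μ, (Psi φ w F).coeff k = 0) ∧ (Psi φ w F).coeff μ ≠ 0 ∧
          ∀ j : ℕ, ((Psi φ w F).coeff μ).coeff j = 0 ∨
            (j ≤ μ ∧ 3 * j ≤ d ∧ ∃ G : MvPolynomial (Fin 3) O, G.IsHomogeneous (d - 3 * j) ∧
              ((Psi φ w F).coeff μ).coeff j = aeval φ G) := by
      intro j G a1 a2 a3 a4 a5
      obtain ⟨b1, b2⟩ := Lead_one h j G
      rw [← a4] at b1 b2
      have e2 : (Psi φ w F).coeff j = Polynomial.monomial j (aeval φ G) := by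
        rw [eP, Polynomial.coeff_add, b2, a5 j (by omega), add_zero]
      refine ⟨j, fun k hk => ?_, ?_, fun i => ?_⟩
      · rw [eP, Polynomial.coeff_add, b1 k hk, a5 k (by omega), add_zero]
      · rw [e2]
        simpa using a3
      · rw [e2, Polynomial.coeff_monomial]
        split_ifs with hi
        · subst hi
          exact Or.inr ⟨le_rfl, a1, G, a2, rfl⟩
        · exact Or.inl rfl
    have second : ∀ μ' : ℕ, (∀ k < μ', (Psi φ w F').coeff k = 0) → (Psi φ w F').coeff μ' ≠ 0 →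
        (∀ j : ℕ, ((Psi φ w F').coeff μ').coeff j = 0 ∨
          (j ≤ μ' ∧ 3 * j ≤ d ∧ ∃ G : MvPolynomial (Fin 3) O, G.IsHomogeneous (d - 3 * j) ∧
            ((Psi φ w F').coeff μ').coeff j = aeval φ G)) →
        (∀ k < μ' + 2, (Psi φ w (map Polynomial.C F0)).coeff k = 0) →
        ∃ μ : ℕ, (∀ k < μ, (Psi φ w F).coeff k = 0) ∧ (Psi φ w F).coeff μ ≠ 0 ∧
          ∀ j : ℕ, ((Psi φ w F).coeff μ).coeff j = 0 ∨
            (j ≤ μ ∧ 3 * j ≤ d ∧ ∃ G : MvPolynomial (Fin 3) O, G.IsHomogeneous (d - 3 * j) ∧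
              ((Psi φ w F).coeff μ).coeff j = aeval φ G) := by
      intro μ' a1 a2 a3 a4
      have e2 : (Psi φ w F).coeff (μ' + 1) = (Psi φ w F').coeff μ' := by
        rw [eP, Polynomial.coeff_add, a4 _ (by omega), zero_add, Polynomial.coeff_X_mul]
      refine ⟨μ' + 1, fun k hk => ?_, by rwa [e2], fun i => ?_⟩
      · rw [eP, Polynomial.coeff_add, a4 k (by omega), hX μ' a1 k hk, add_zero]
      · rw [e2]
        exact (a3 i).imp id fun q => ⟨by omega, q.2⟩
    by_cases z' : F' = 0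
    · have z0 : F0 ≠ 0 := by
        rintro rfl
        exact h0 (by rw [e, z']; simp)
      obtain ⟨j, G, a1, a2, a3, a4⟩ := Lead_split h d F0 hF0 z0
      exact first j G a1 a2 a3 a4 (by simp [z'])
    obtain ⟨μ', c1, c2, c3⟩ := ih F' hom' hK' z'
    by_cases z0 : F0 = 0
    · exact second μ' c1 c2 c3 (by simp [z0])
    obtain ⟨j, G, a1, a2, a3, a4⟩ := Lead_split h d F0 hF0 z0
    obtain ⟨b1, b2⟩ := Lead_one h j G
    rw [← a4] at b1 b2
    rcases lt_trichotomy j (μ' + 1) with l | rfl | l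
    · exact first j G a1 a2 a3 a4 fun k hk => hX μ' c1 k (by omega)
    · have e2 : (Psi φ w F).coeff (μ' + 1) =
          Polynomial.monomial (μ' + 1) (aeval φ G) + (Psi φ w F').coeff μ' := by
        rw [eP, Polynomial.coeff_add, b2, Polynomial.coeff_X_mul]
      have e3 : ((Psi φ w F).coeff (μ' + 1)).coeff (μ' + 1) = aeval φ G := by
        rw [e2, Polynomial.coeff_add, Polynomial.coeff_monomial, if_pos rfl,
          (c3 (μ' + 1)).resolve_right (fun q => by omega), add_zero]
      refine ⟨μ' + 1, fun k hk => ?_, fun hz => a3 ?_, fun i => ?_⟩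
      · rw [eP, Polynomial.coeff_add, b1 k hk, hX μ' c1 k hk, add_zero]
      · rw [← e3, hz, Polynomial.coeff_zero]
      · by_cases hi : μ' + 1 = i
        · subst hi
          exact Or.inr ⟨le_rfl, a1, G, a2, e3⟩
        · rw [e2, Polynomial.coeff_add, Polynomial.coeff_monomial, if_neg hi, zero_add]
          exact (c3 i).imp id fun q => ⟨by omega, q.2⟩
    · exact second μ' c1 c2 c3 fun k hk => b1 k (by omega)

theorem lead {N a : ℤ} {φ : Fin 3 → R} {c : MvPolynomial (Fin 3) O} {w : R} (h : Data N a φ c w)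
    {d : ℕ} {F : MvPolynomial (Fin 3) A} (hF : F.IsHomogeneous d) (h0 : F ≠ 0) :
    ∃ μ : ℕ, (Psi φ w F).coeff μ ≠ 0 ∧ ∀ j : ℕ, ((Psi φ w F).coeff μ).coeff j = 0 ∨
      (3 * j ≤ d ∧ ∃ G : MvPolynomial (Fin 3) O, G.IsHomogeneous (d - 3 * j) ∧
        ((Psi φ w F).coeff μ).coeff j = aeval φ G) := by
  obtain ⟨μ, -, h1, h2⟩ := Lead_ind h (F.support.sup (fun m => (F.coeff m).natDegree) + 1) F hF
    (fun m k hk => by
      by_cases hm : m ∈ F.support
      · have := Finset.le_sup (f := fun m => (F.coeff m).natDegree) hm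
        exact Polynomial.coeff_eq_zero_of_natDegree_lt (by omega)
      · rw [notMem_support_iff.1 hm, Polynomial.coeff_zero]) h0
  exact ⟨μ, h1, fun j => (h2 j).imp id fun q => q.2⟩

end Pool.Agent.Lib.MP_d03834_ag.Nag
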