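import Pool.Agent.Lib.MP_d03834_ag.Nag.Win
import Pool.Agent.Lib.MP_d03834_ag.Nag.Data
import Pool.Agent.Lib.MP_d03834_ag.Nag.Lead
import Pool.Agent.Lib.MP_d03834_ag.Nag.Filt
import Pool.Agent.Lib.MP_d03834_ag.Nag.Gen

set_option autoImplicit false

namespace Pool.Agent.Lib.MP_d03834_ag.Nag

open MvPolynomial

theorem transfer {ι : Type} [Fintype ι] {N a : ℤ} (hN : 0 < N) (ha : ¬N ∣ a) (d : ℕ) (m : ι → ℕ)
    (z : ι → ℂˣ) (σ : ι → ℂ)
    (h : ∀ M : B, Sup N a d M → (∀ l, M ∈ pt (z l) (σ l) ^ m l) → M = 0) : Emp d m := by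
  classical
  obtain ⟨φ, c, w, hD⟩ := exists_data hN ha
  choose P hP using fun l => filt w hD.unit (z l) (σ l)
  refine gen (K := A) d m P fun F hF hm => ?_
  by_contra h0
  obtain ⟨μ, hμ, hj⟩ := lead hD hF h0
  have hex : ∃ e, co e ((Psi φ w F).coeff μ) ≠ 0 := by
    by_contra hc
    apply hμ
    refine Polynomial.ext fun j => PowerSeries.ext fun e => ?_
    have h1 : co e ((Psi φ w F).coeff μ) = 0 := by
      by_contra h2
      exact hc ⟨e, h2⟩
    rw [← co_coeff, h1]
    simp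
  apply Nat.find_spec hex
  refine h _ ?_ fun l => hP l _ F (hm l) μ _
  intro j b hb
  rw [co_coeff] at hb
  rcases hj j with h1 | ⟨h1, G, hG, h2⟩
  · rw [h1] at hb
    simp at hb
  · have ht := Th_aeval hD.th hG
    rw [← h2] at ht
    have hw := window ht (e := Nat.find hex) (fun e' he' => by
      have h3 := Nat.find_min hex he'
      rw [not_not] at h3
      rw [← co_coeff, h3]
      simp) hb
    have hc : ((d - 3 * j : ℕ) : ℤ) = d - 3 * j := by
      rw [Nat.cast_sub h1]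
      push_cast
      ring
    rw [hc] at hw
    refine ⟨h1, hw.1, ?_⟩
    have h4 := hw.2
    linarith

end Pool.Agent.Lib.MP_d03834_ag.Nag
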