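import Pool.Agent.Lib.MP_d03834_ag.Nag.AmpD
import Pool.Agent.Lib.MP_d03834_ag.Nag.AmpF
import Pool.Agent.Lib.MP_d03834_ag.Nag.AmpS
import Pool.Agent.Lib.MP_d03834_ag.Nag.AmpT
import Pool.Agent.Lib.MP_d03834_ag.Nag.CritD
import Pool.Agent.Lib.MP_d03834_ag.Nag.Transfer

/-! The Hilbert function of at least 36 general fat points of the same multiplicity. -/

set_option autoImplicit false

namespace Pool.Agent.Lib.MP_d03834_ag.Nag

open MvPolynomial Module

lemma ampZ_two (k : ℕ) : 2 * (k + 1).choose 2 = k * (k + 1) := by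
  induction k with
  | zero => simp
  | succ k ih =>
    rw [Nat.choose_succ_succ' (k + 1) 1, Nat.choose_one_right, mul_add, ih]
    ring

lemma ampZ_len {U : Finset ℤ} {len : ℤ → ℕ} {K : ℕ} (hK : hh U len K = 0) :
    ∑ i ∈ Finset.range K, hh U len i = ∑ b ∈ U, len b := by
  refine hh_sum fun b hb => ?_
  rw [hh, Finset.card_eq_zero, Finset.filter_eq_empty_iff] at hK
  exact not_lt.1 (hK hb)

lemma ampZ_three {N a : ℤ} {n : ℕ} (hn : 36 ≤ n) (hN : 0 < N) (ha : 0 ≤ a)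
    (h : (n : ℝ) ≤ 4 * ((a : ℝ) / N) ^ 2) : 3 * N ≤ a := by
  have hNR : (0 : ℝ) < N := by exact_mod_cast hN
  have haR : (0 : ℝ) ≤ a := by exact_mod_cast ha
  have hnR : (36 : ℝ) ≤ n := by exact_mod_cast hn
  have k0 : 0 ≤ (a : ℝ) / N := div_nonneg haR hNR.le
  have k3 : 3 ≤ (a : ℝ) / N := by nlinarith
  rw [le_div_iff₀ hNR] at k3
  exact_mod_cast k3

/-- simple points -/
lemma ampZ_one {n r d : ℕ} (h : (d + 2).choose 2 ≤ n + r) :
    Emp d (Sum.elim (fun _ : Fin n => 1) fun _ : Fin r => 1) := by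
  obtain ⟨N, a, hN, ha, hNa, hdv, k1, -⟩ := ampS_slope 36 d 1 one_pos
  have h3 := ampZ_three le_rfl hN ha k1
  obtain ⟨U, lo, len, hC, hS, hb⟩ := tri_col d hN h3 hdv
  have hK : hh U len (d + 1) = 0 := (hb (d + 1)).1 (by
    have : (0 : ℤ) ≤ d := Int.natCast_nonneg d
    push_cast
    nlinarith)
  obtain ⟨z, σ, H⟩ := crit_pts (n := 0) (m := 1) (r := n + r) lo hK (by
    simp only [zero_mul, Nat.sub_zero]
    rw [ampZ_len hK]
    exact hS.trans h)
  refine transfer hN hNa d _ (fun l => z (.inr (finSumFinEquiv l)))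
    (fun l => σ (.inr (finSumFinEquiv l))) fun M hM hp => H M (hC M hM) ?_
  rintro (l | l)
  · exact l.elim0
  · have := hp (finSumFinEquiv.symm l)
    rw [Equiv.apply_symm_apply] at this
    rcases e : finSumFinEquiv.symm l with q | q <;> rw [e] at this <;> exact this

lemma ampZ_emp {n m d : ℕ} (hn : 36 ≤ n) (hm : 2 ≤ m) (hr : n < 400 ∨ n < 24 * m)
    (h1 : (d + 1).choose 2 ≤ n * (m + 1).choose 2) (h2 : n * (m + 1).choose 2 < (d + 3).choose 2) :
    Emp d (Sum.elim (fun _ : Fin n => m)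
      fun _ : Fin ((d + 2).choose 2 - n * (m + 1).choose 2) => 1) := by
  obtain ⟨c, r2, r3, hc, b2, b3⟩ : ∃ c r2 r3 : ℕ, n = 4 * c + 2 * r2 + 3 * r3 ∧ r2 ≤ 1 ∧ r3 ≤ 1 := by
    have : n % 4 = 0 ∨ n % 4 = 1 ∨ n % 4 = 2 ∨ n % 4 = 3 := by omega
    rcases this with e | e | e | e
    · exact ⟨n / 4, 0, 0, by omega, by omega, by omega⟩
    · exact ⟨n / 4 - 1, 1, 1, by omega, by omega, by omega⟩
    · exact ⟨n / 4, 1, 0, by omega, by omega, by omega⟩
    · exact ⟨n / 4, 0, 1, by omega, by omega, by omega⟩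
  obtain ⟨N, a, hN, ha, hNa, hdv, k1, k2⟩ := ampS_slope n d ((2 * m + 1) * (m + 1)) (by positivity)
  have h3 := ampZ_three hn hN ha k1
  obtain ⟨U, lo, len, hC, hS, hb⟩ := tri_col d hN h3 hdv
  have hNR : (0 : ℝ) < N := by exact_mod_cast hN
  have haR : (0 : ℝ) ≤ a := by exact_mod_cast ha
  set κ : ℝ := (a : ℝ) / N with hκ
  have hka : (a : ℝ) = κ * N := by rw [hκ, div_mul_cancel₀ _ hNR.ne']
  have hN2 : (0 : ℝ) < (N : ℝ) ^ 2 := by positivity
  have t0 := ampZ_two m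
  have t1 := ampZ_two d
  have t2 : 2 * (d + 2).choose 2 = (d + 1) * (d + 2) := ampZ_two (d + 1)
  have t3 : 2 * (d + 3).choose 2 = (d + 2) * (d + 3) := ampZ_two (d + 2)
  have t4 : 2 * (n * (m + 1).choose 2) = n * (m * (m + 1)) := by rw [← t0]; ring
  have hZ : ∀ i : ℕ, d < κ * i → hh U len i = 0 := fun i hi => (hb i).1 (by
    have : (N : ℝ) * d < a * i := by rw [hka]; nlinarith
    exact_mod_cast this)
  have hS' : ∀ K, ∑ i ∈ Finset.range K, hh U len i ≤ (d + 2).choose 2 := by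
    intro K
    have k3 : 3 ≤ κ := by
      rw [hκ, le_div_iff₀ hNR]
      exact_mod_cast h3
    have hK : hh U len (max K (d + 1)) = 0 := hZ _ (by
      have : ((d + 1 : ℕ) : ℝ) ≤ (max K (d + 1) : ℕ) := by exact_mod_cast le_max_right K (d + 1)
      have h0 : (0 : ℝ) ≤ d := Nat.cast_nonneg d
      push_cast at this ⊢
      nlinarith)
    refine le_trans (Finset.sum_le_sum_of_subset (Finset.range_mono (le_max_left K (d + 1)))) ?_
    rw [ampZ_len hK]
    exact hS
  obtain ⟨hK, H⟩ := ampS_real (d := d) (κ := κ) (hh U len) hc b2 b3 hn hm hr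
    (div_nonneg haR hNR.le) k1 (by exact_mod_cast k2) (by omega) (by omega) hZ
    (fun i hi => by
      have e := (hb i).2.1 (by
        have : (a : ℝ) * i ≤ N * d := by rw [hka]; nlinarith
        exact_mod_cast this)
      have e' : (N : ℝ) ^ 2 * (hh U len i : ℝ) ≤ N * a * d - a ^ 2 * i + N ^ 2 := by
        exact_mod_cast e
      rw [hka] at e'
      refine le_of_mul_le_mul_left ?_ hN2
      linarith)
    (fun i => by
      have e' : (N : ℝ) * a * d - a ^ 2 * (i + 1) + 3 * N * a - N ^ 2 < N ^ 2 * (hh U len i : ℝ) := by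
        exact_mod_cast (hb i).2.2
      rw [hka] at e'
      refine lt_of_mul_lt_mul_left ?_ hN2.le
      linarith)
    (by have := hS' (2 * m + 1); omega)
    (r := (d + 2).choose 2 - n * (m + 1).choose 2) (by omega)
  obtain ⟨z, σ, G⟩ := amp hc (by omega) lo hK H
  exact transfer hN hNa d _ z σ fun M hM hp => G M (hC M hM) hp

theorem shgh36 {n m : ℕ} (hn : 36 ≤ n) (hm : 0 < m) :
    H19.Gen n fun P => ∀ d, finrank ℂ ↥(homogeneousSubmodule (Fin 3) ℂ d ⊓
      Submodule.restrictScalars ℂ (⨅ i : Fin n, H19.hid (P i) ^ m)) =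
      Nat.choose (d + 2) 2 - n * Nat.choose (m + 1) 2 := by
  by_cases h : 400 ≤ n ∧ 24 * m ≤ n
  · exact H19.final n m hm h.2 h.1
  refine assemble (by omega) hm fun d h1 h2 => ?_
  rcases Nat.lt_or_ge m 2 with e | e
  · obtain rfl : m = 1 := by omega
    refine ampZ_one ?_
    simp only [Nat.reduceAdd, Nat.choose_self, mul_one]
    omega
  · exact ampZ_emp hn e (by omega) h1 h2

end Pool.Agent.Lib.MP_d03834_ag.Nag
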