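import Mathlib

/-! Weighted collisions of points of the affine plane. -/

set_option autoImplicit false

namespace Pool.Agent.Lib.MP_d03834_ag.Nag

open MvPolynomial Filter Topology

/-- polynomials in two variables -/
abbrev P2 : Type := MvPolynomial (Fin 2) ℂ

/-- the ideal of a point -/
noncomputable def pt0 (p : Fin 2 → ℂ) : Ideal P2 := RingHom.ker (eval p)

/-- multiplicity m at the point p -/
noncomputable def Fat (p : Fin 2 → ℂ) (m : ℕ) : Submodule ℂ P2 := (pt0 p ^ m).restrictScalars ℂ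

/-- all monomials have weight at least W -/
noncomputable def Mon (a b W : ℕ) : Submodule ℂ P2 where
  carrier := {F | ∀ μ : Fin 2 →₀ ℕ, a * μ 0 + b * μ 1 < W → coeff μ F = 0}
  zero_mem' := fun _ _ => rfl
  add_mem' := fun h h' μ hμ => by rw [coeff_add, h μ hμ, h' μ hμ, add_zero]
  smul_mem' := fun c F h μ hμ => by rw [coeff_smul, h μ hμ, smul_zero]

/-- the substitution x ↦ z + x + τ y -/
noncomputable def cen (z τ : ℂ) : P2 →ₐ[ℂ] P2 := aeval ![C z + X 0 + C τ * X 1, X 1]

/-- the condition of weight W at the centre (z, 0) in the direction τ -/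
noncomputable def Cnd (z τ : ℂ) (a b W : ℕ) : Submodule ℂ P2 :=
  (Mon a b W).comap (cen z τ).toLinearMap

/-- weighted scaling -/
noncomputable def sc (a b : ℕ) (t : ℂ) : P2 →ₐ[ℂ] P2 := aeval ![C (t ^ a) * X 0, C (t ^ b) * X 1]

lemma sc_monomial (a b : ℕ) (t : ℂ) (μ : Fin 2 →₀ ℕ) (c : ℂ) :
    sc a b t (monomial μ c) = t ^ (a * μ 0 + b * μ 1) • monomial μ c := by
  rw [sc, aeval_monomial, monomial_eq, Finsupp.prod_fintype _ _ fun _ => pow_zero _,
    Finsupp.prod_fintype _ _ fun _ => pow_zero _, Fin.prod_univ_two, Fin.prod_univ_two,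
    smul_eq_C_mul]
  simp only [Matrix.cons_val_zero, Matrix.cons_val_one, algebraMap_eq, map_pow, mul_pow, pow_add,
    map_mul, pow_mul]
  ring

lemma Fat_map (φ : P2 →ₐ[ℂ] P2) (p q : Fin 2 → ℂ) (h : ∀ i, eval p (φ (X i)) = q i) (m : ℕ)
    {F : P2} (hF : F ∈ Fat q m) : φ F ∈ Fat p m := by
  have h1 : (pt0 q).map φ ≤ pt0 p := by
    rw [Ideal.map_le_iff_le_comap]
    intro x hx
    have e : (eval p).comp (φ : P2 →+* P2) = eval q := by
      refine MvPolynomial.ringHom_ext (fun c => ?_) fun i => ?_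
      · simp
      · simp [h]
    rw [Ideal.mem_comap, pt0, RingHom.mem_ker]
    exact (RingHom.congr_fun e x).trans hx
  have h2 := Ideal.mem_map_of_mem φ (show F ∈ pt0 q ^ m from hF)
  rw [Ideal.map_pow] at h2
  exact Ideal.pow_right_mono h1 m h2

lemma inj_open {Λ : Type} [Fintype Λ] (V : Submodule ℂ P2) [FiniteDimensional ℂ V]
    (T : ℂ → P2 →ₗ[ℂ] Λ → ℂ) (hc : ∀ x, Continuous fun η => T η x)
    (h0 : ∀ x ∈ V, T 0 x = 0 → x = 0) : ∀ᶠ η in 𝓝 (0 : ℂ), ∀ x ∈ V, T η x = 0 → x = 0 := by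
  let b := Module.finBasis ℂ V
  have h1 : LinearIndependent ℂ fun s => T 0 (b s) :=
    b.linearIndependent.map' ((T 0).comp V.subtype)
      (LinearMap.ker_eq_bot'.2 fun x hx => Subtype.ext (h0 x x.2 hx))
  have h2 : Continuous fun η s => T η (b s) := continuous_pi fun s => hc _
  filter_upwards [h2.continuousAt.eventually h1.eventually] with η hη x hx h
  have h3 := Fintype.linearIndependent_iff.1 hη (b.repr ⟨x, hx⟩) (by
    have := congrArg ((T η).comp V.subtype) (b.sum_repr ⟨x, hx⟩)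
    rw [map_sum] at this
    simp only [map_smul, LinearMap.comp_apply, Submodule.subtype_apply] at this
    rw [this, h])
  have h4 : (⟨x, hx⟩ : V) = 0 := b.repr.injective (by
    ext s
    simp [h3 s])
  exact congrArg Subtype.val h4

/-- collision onto the ideal of the monomials of weight at least W -/
theorem collide {a b : ℕ} (ha : a ≠ 0) (hb : b ≠ 0) (W : ℕ) (I : Submodule ℂ P2)
    (hI : ∀ G ∈ I, (∀ μ ∈ G.support, a * μ 0 + b * μ 1 < W) → G = 0) (φ : P2 →ₗ[ℂ] P2)
    (V : Submodule ℂ P2) [FiniteDimensional ℂ V] (hV : ∀ F ∈ V, φ F ∈ Mon a b W → F = 0) :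
    ∀ᶠ t in 𝓝[≠] (0 : ℂ), ∀ F ∈ V, sc a b t (φ F) ∈ I → F = 0 := by
  classical
  have hfin : {μ : Fin 2 →₀ ℕ | a * μ 0 + b * μ 1 < W}.Finite := by
    refine (Finsupp.finite_of_nat_weight_le ![a, b] (fun i => by fin_cases i <;> simpa) W).subset
      fun μ hμ => ?_
    simp only [Set.mem_ofPred_eq] at hμ ⊢
    rw [Finsupp.weight_apply, Finsupp.sum_fintype _ _ (by simp), Fin.sum_univ_two]
    simp only [Matrix.cons_val_zero, Matrix.cons_val_one, smul_eq_mul]
    rw [mul_comm _ a, mul_comm _ b]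
    omega
  let Λ := hfin.toFinset
  have hΛ : ∀ μ, μ ∈ Λ ↔ a * μ 0 + b * μ 1 < W := fun μ => hfin.mem_toFinset
  have hco : ∀ (c : Λ → ℂ) (μ : Fin 2 →₀ ℕ), coeff μ (∑ l : Λ, c l • monomial l.1 (1 : ℂ)) =
      if h : μ ∈ Λ then c ⟨μ, h⟩ else 0 := by
    intro c μ
    simp only [coeff_sum, coeff_smul, coeff_monomial, smul_eq_mul]
    split_ifs with h
    · rw [Finset.sum_eq_single ⟨μ, h⟩]
      · simp
      · intro l _ hl
        rw [if_neg fun e => hl (Subtype.ext e), mul_zero]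
      · simp
    · exact Finset.sum_eq_zero fun l _ => by rw [if_neg fun e : l.1 = μ => h (e ▸ l.2), mul_zero]
  obtain ⟨G, hG⟩ := LinearMap.exists_leftInverse_of_injective
    (I.mkQ.comp (Fintype.linearCombination ℂ fun l : Λ => (monomial l.1 1 : P2)))
    (LinearMap.ker_eq_bot'.2 fun c hc => by
      rw [LinearMap.comp_apply, Submodule.mkQ_apply, Submodule.Quotient.mk_eq_zero,
        Fintype.linearCombination_apply] at hc
      have h0 := hI _ hc fun μ hμ => by
        rw [mem_support_iff, hco] at hμ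
        exact (hΛ μ).1 (by_contra fun hn => hμ (dif_neg hn))
      funext l
      have := hco c l.1
      rw [h0, dif_pos l.2] at this
      exact this.symm)
  have hG1 : ∀ l : Λ, G (I.mkQ (monomial l.1 1)) = Pi.single l 1 := fun l => by
    simpa using LinearMap.congr_fun hG (Pi.single l 1)
  let T : ℂ → P2 →ₗ[ℂ] Λ → ℂ := fun η => (basisMonomials (Fin 2) ℂ).constr ℂ fun μ l =>
    η ^ (a * μ 0 + b * μ 1 - (a * l.1 0 + b * l.1 1)) * G (I.mkQ (monomial μ 1)) l
  have hT : ∀ η μ c l, T η (monomial μ c) l =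
      c * (η ^ (a * μ 0 + b * μ 1 - (a * l.1 0 + b * l.1 1)) * G (I.mkQ (monomial μ 1)) l) := by
    intro η μ c l
    have : (monomial μ c : P2) = c • basisMonomials (Fin 2) ℂ μ := by
      simp [smul_monomial]
    rw [this, map_smul, Module.Basis.constr_basis]
    rfl
  have hle : ∀ μ (l : Λ), G (I.mkQ (monomial μ 1)) l ≠ 0 →
      μ = l.1 ∨ a * l.1 0 + b * l.1 1 < a * μ 0 + b * μ 1 := by
    intro μ l h
    by_cases hμ : μ ∈ Λ
    · rw [hG1 ⟨μ, hμ⟩] at h
      exact Or.inl (by_contra fun e => h (Pi.single_eq_of_ne (fun e' => e (by rw [e'])) _))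
    · have h1 := (hΛ _).1 l.2
      have h2 := mt (hΛ μ).2 hμ
      omega
  have h1 : ∀ η x l, G (I.mkQ (sc a b η x)) l = η ^ (a * l.1 0 + b * l.1 1) * T η x l := by
    intro η x l
    induction x using MvPolynomial.induction_on' with
    | add p q hp hq => simp only [map_add, Pi.add_apply, hp, hq, mul_add]
    | monomial μ c =>
      have : (monomial μ c : P2) = c • monomial μ 1 := by simp [smul_monomial]
      rw [hT, sc_monomial, this, map_smul, map_smul, map_smul, map_smul, Pi.smul_apply,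
        Pi.smul_apply, smul_eq_mul, smul_eq_mul]
      by_cases h : G (I.mkQ (monomial μ 1)) l = 0
      · simp only [h, mul_zero]
      · have e : a * μ 0 + b * μ 1 = (a * l.1 0 + b * l.1 1) +
            (a * μ 0 + b * μ 1 - (a * l.1 0 + b * l.1 1)) := by
          rcases hle μ l h with e | e
          · rw [e]; simp
          · omega
        conv_lhs => rw [e, pow_add]
        ring
  have h2 : ∀ x l, T 0 x l = coeff l.1 x := by
    intro x l
    induction x using MvPolynomial.induction_on' with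
    | add p q hp hq => simp only [map_add, Pi.add_apply, hp, hq, coeff_add]
    | monomial μ c =>
      rw [hT, coeff_monomial]
      split_ifs with e
      · rw [e, hG1 l]; simp
      · by_cases h : G (I.mkQ (monomial μ 1)) l = 0
        · simp only [h, mul_zero]
        · rw [zero_pow (by have := (hle μ l h).resolve_left e; omega), zero_mul, mul_zero]
  have h3 := inj_open V (fun η => (T η).comp φ) (fun x => continuous_pi fun l => by
      simp only [LinearMap.comp_apply]
      generalize φ x = y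
      induction y using MvPolynomial.induction_on' with
      | add p q hp hq =>
        simp only [map_add, Pi.add_apply]
        exact hp.add hq
      | monomial μ c =>
        simp only [hT]
        fun_prop)
    fun x hx h => hV x hx fun μ hμ => by
      rw [← h2 (φ x) ⟨μ, (hΛ μ).2 hμ⟩]
      exact congrFun h _
  filter_upwards [h3.filter_mono nhdsWithin_le_nhds, self_mem_nhdsWithin] with t ht ht0 F hF h
  refine ht F hF (funext fun l => ?_)
  have := h1 t (φ F) l
  rw [Submodule.mkQ_apply, (Submodule.Quotient.mk_eq_zero I).2 h, map_zero] at this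
  exact (mul_eq_zero.1 this.symm).resolve_left (pow_ne_zero _ ht0)

/-- a cluster of κ points of multiplicity m with weights a, b and bound W -/
def Clu (κ : Type) (m a b W : ℕ) : Prop :=
  ∃ p : κ → Fin 2 → ℂ, ∀ G : P2, (∀ q, G ∈ Fat (p q) m) →
    (∀ μ ∈ G.support, a * μ 0 + b * μ 1 < W) → G = 0

theorem replace_one {κ : Type} [Finite κ] {m a b W : ℕ} (ha : a ≠ 0) (hb : b ≠ 0)
    (h : Clu κ m a b W) {z : ℂ} (hz : z ≠ 0) (τ : ℂ) (V : Submodule ℂ P2) [FiniteDimensional ℂ V]
    (hV : V ⊓ Cnd z τ a b W = ⊥) :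
    ∃ p : κ → Fin 2 → ℂ, (∀ q, p q 0 ≠ 0) ∧ V ⊓ ⨅ q, Fat (p q) m = ⊥ := by
  obtain ⟨p, hp⟩ := h
  have h1 := collide ha hb W (⨅ q, Fat (p q) m)
    (fun G hG => hp G ((Submodule.mem_iInf _).1 hG)) (cen z τ).toLinearMap V fun F hF h =>
      (Submodule.eq_bot_iff _).1 hV F ⟨hF, h⟩
  have h2 : ∀ᶠ t in 𝓝 (0 : ℂ), ∀ q, z + t ^ a * p q 0 + τ * (t ^ b * p q 1) ≠ 0 :=
    eventually_all.2 fun q => (show Continuous fun t : ℂ =>
      z + t ^ a * p q 0 + τ * (t ^ b * p q 1) by fun_prop).continuousAt.eventually_ne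
        (by simpa [ha, hb] using hz)
  obtain ⟨t, h3, h4⟩ := (h1.and (h2.filter_mono nhdsWithin_le_nhds)).exists
  refine ⟨fun q => ![z + t ^ a * p q 0 + τ * (t ^ b * p q 1), t ^ b * p q 1], h4,
    (Submodule.eq_bot_iff _).2 fun F hF => h3 F hF.1 ((Submodule.mem_iInf _).2 fun q => ?_)⟩
  refine Fat_map ((sc a b t).comp (cen z τ)) _ _ (fun i => ?_) m ((Submodule.mem_iInf _).1 hF.2 q)
  fin_cases i <;> simp [sc, cen]

theorem replace {κ : Type} [Finite κ] {m a b W : ℕ} (ha : a ≠ 0) (hb : b ≠ 0)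
    (h : Clu κ m a b W) (k : ℕ) (z τ : Fin k → ℂ) (hz : ∀ l, z l ≠ 0) (V : Submodule ℂ P2)
    [FiniteDimensional ℂ V] (hV : V ⊓ ⨅ l, Cnd (z l) (τ l) a b W = ⊥) :
    ∃ p : Fin k × κ → Fin 2 → ℂ, (∀ q, p q 0 ≠ 0) ∧ V ⊓ ⨅ q, Fat (p q) m = ⊥ := by
  induction k generalizing V with
  | zero => exact ⟨fun q => q.1.elim0, fun q => q.1.elim0, by simpa using hV⟩
  | succ k ih =>
    obtain ⟨p, h1, h2⟩ := ih (fun l => z l.succ) (fun l => τ l.succ) (fun l => hz _)
      (V ⊓ Cnd (z 0) (τ 0) a b W) (by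
        rw [eq_bot_iff, ← hV, inf_assoc]
        exact inf_le_inf_left _ (le_iInf (Fin.cases inf_le_left fun l =>
          inf_le_right.trans (iInf_le _ l))))
    obtain ⟨p0, h3, h4⟩ := replace_one ha hb h (hz 0) (τ 0) (V ⊓ ⨅ q, Fat (p q) m)
      (by rw [inf_right_comm, h2])
    refine ⟨fun q => Fin.cases (p0 q.2) (fun l => p (l, q.2)) q.1,
      fun q => Fin.cases (motive := fun l => (Fin.cases (p0 q.2) (fun l => p (l, q.2)) l :
        Fin 2 → ℂ) 0 ≠ 0) (h3 _) (fun l => h1 _) q.1, ?_⟩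
    rw [eq_bot_iff, ← h4, inf_assoc]
    exact inf_le_inf_left _ (le_inf (le_iInf fun q => iInf_le_of_le (q.1.succ, q.2) le_rfl)
      (le_iInf fun q => iInf_le_of_le (0, q) le_rfl))

end Pool.Agent.Lib.MP_d03834_ag.Nag
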