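import Pool.Agent.Lib.MP_d03834_ag.Nag.AmpA

/-! General directions. -/

set_option autoImplicit false

namespace Pool.Agent.Lib.MP_d03834_ag.Nag

open Filter Module

section wr
open Polynomial

/-- polynomials with a zero of order k at τ -/
noncomputable def Zk (τ : ℂ) (k : ℕ) : Submodule ℂ ℂ[X] :=
  (Ideal.span {(X - C τ) ^ k}).restrictScalars ℂ

lemma mem_Zk {τ : ℂ} {k : ℕ} {f : ℂ[X]} : f ∈ Zk τ k ↔ (X - C τ) ^ k ∣ f :=
  Ideal.mem_span_singleton

lemma ampB_inj {τ : ℂ} {f g : ℂ[X]} (hg : ¬g.IsRoot τ) (hf : f.IsRoot τ)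
    (h : derivative f * g - f * derivative g = 0) : f = 0 := by
  by_contra h0
  obtain ⟨q, h1, h2⟩ := exists_eq_pow_rootMultiplicity_mul_and_not_dvd f h0 τ
  obtain ⟨e, he⟩ : ∃ e, rootMultiplicity τ f = e + 1 :=
    Nat.exists_eq_succ_of_ne_zero ((rootMultiplicity_pos h0).2 hf).ne'
  rw [he] at h1
  have h3 : (X - C τ) ^ e * (C ((e : ℂ) + 1) * q * g +
      (X - C τ) * (derivative q * g - q * derivative g)) = 0 := by
    rw [← h, h1]
    simp only [derivative_mul, derivative_X_sub_C_pow, Nat.add_sub_cancel, map_add, map_natCast,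
      map_one, Nat.cast_add, Nat.cast_one]
    ring
  have h4 := congrArg (eval τ) ((mul_eq_zero.1 h3).resolve_left (pow_ne_zero _ (X_sub_C_ne_zero τ)))
  simp only [eval_add, eval_mul, eval_C, eval_sub, eval_X, sub_self, zero_mul, add_zero,
    eval_zero, mul_eq_zero] at h4
  rcases h4 with (h4 | h4) | h4
  · exact Nat.cast_add_one_ne_zero e h4
  · exact h2 (dvd_iff_isRoot.2 h4)
  · exact hg h4

/-- a general point imposes independent conditions -/
theorem wron (k : ℕ) (W : Submodule ℂ ℂ[X]) [FiniteDimensional ℂ W] :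
    ∀ᶠ τ in cofinite, finrank ℂ ↥(W ⊓ Zk τ k) ≤ finrank ℂ W - k := by
  induction k generalizing W with
  | zero => exact Eventually.of_forall fun τ => Submodule.finrank_mono inf_le_left
  | succ k ih =>
    by_cases h0 : W = ⊥
    · exact Eventually.of_forall fun τ => by rw [h0, bot_inf_eq, finrank_bot]; exact Nat.zero_le _
    obtain ⟨g, hg, hg0⟩ := (Submodule.ne_bot_iff W).1 h0
    let D : ℂ[X] →ₗ[ℂ] ℂ[X] :=
      (LinearMap.mulRight ℂ g).comp derivative - LinearMap.mulRight ℂ (derivative g)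
    have hD : ∀ f, D f = derivative f * g - f * derivative g := fun f => rfl
    have h1 : finrank ℂ (W.map D) + 1 ≤ finrank ℂ W := by
      have e := LinearMap.finrank_range_add_finrank_ker (D.domRestrict W)
      rw [LinearMap.range_domRestrict] at e
      have : LinearMap.ker (D.domRestrict W) ≠ ⊥ := (Submodule.ne_bot_iff _).2
        ⟨⟨g, hg⟩, by rw [LinearMap.mem_ker, LinearMap.domRestrict_apply, hD]; ring,
          fun e => hg0 (congrArg Subtype.val e)⟩
      have := Submodule.finrank_eq_zero.not.2 this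
      omega
    have h2 : ∀ᶠ τ in cofinite, ¬g.IsRoot τ := by
      simpa [eventually_cofinite] using finite_setOfPred_isRoot hg0
    filter_upwards [ih (W.map D), h2] with τ a1 a2
    have h3 : finrank ℂ ↥(W ⊓ Zk τ (k + 1)) ≤ finrank ℂ ↥(W.map D ⊓ Zk τ k) := by
      refine LinearMap.finrank_le_finrank_of_injective (f := D.restrict (p := W ⊓ Zk τ (k + 1))
        (q := W.map D ⊓ Zk τ k) fun f hf => ⟨Submodule.mem_map_of_mem hf.1, mem_Zk.2 ?_⟩) ?_
      · have a3 := mem_Zk.1 hf.2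
        rw [hD]
        exact dvd_sub ((by simpa using pow_sub_one_dvd_derivative_of_pow_dvd a3 :
          (X - C τ) ^ k ∣ derivative f).mul_right _)
          (((pow_dvd_pow _ k.le_succ).trans a3).mul_right _)
      · refine LinearMap.ker_eq_bot.1 (LinearMap.ker_eq_bot'.2 fun f hf => Subtype.ext ?_)
        exact ampB_inj a2 (dvd_iff_isRoot.1 ((dvd_pow_self _ k.succ_ne_zero).trans
          (mem_Zk.1 f.2.2))) (congrArg Subtype.val hf)
    omega

lemma dvd_of_taylor {τ : ℂ} {k : ℕ} {f : ℂ[X]} :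
    (X - C τ) ^ k ∣ f ↔ ∀ a < k, (taylor τ f).coeff a = 0 := by
  rw [← X_pow_dvd_iff]
  constructor
  · intro h
    simpa using _root_.map_dvd (taylorAlgHom τ) h
  · intro h
    simpa [taylor_taylor, sub_eq_add_neg] using _root_.map_dvd (taylorAlgHom (-τ)) h

end wr

open MvPolynomial
open scoped Polynomial

/-- the exponent of x ^ a y ^ i -/
noncomputable def ex (a i : ℕ) : Fin 2 →₀ ℕ := Finsupp.equivFunOnFinite.symm ![a, i]

@[simp] lemma ex_zero (a i : ℕ) : ex a i 0 = a := rfl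
@[simp] lemma ex_one (a i : ℕ) : ex a i 1 = i := rfl

lemma ex_eq {μ ν : Fin 2 →₀ ℕ} (h0 : μ 0 = ν 0) (h1 : μ 1 = ν 1) : μ = ν := by
  ext i
  fin_cases i
  · exact h0
  · exact h1

/-- grading by γ a + i -/
noncomputable def mm (γ : ℕ) : P2 →ₐ[ℂ] ℂ[X][X] :=
  aeval ![Polynomial.C Polynomial.X * Polynomial.X ^ γ, Polynomial.X]

lemma mm_coeff (γ : ℕ) (F : P2) (D a : ℕ) : ((mm γ F).coeff D).coeff a =
    if γ * a ≤ D then coeff (ex a (D - γ * a)) F else 0 := by
  induction F using MvPolynomial.induction_on' with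
  | add p q hp hq =>
    simp only [map_add, Polynomial.coeff_add, hp, hq, coeff_add]
    split_ifs <;> simp
  | monomial μ c =>
    have : mm γ (monomial μ c) =
        Polynomial.monomial (γ * μ 0 + μ 1) (Polynomial.monomial (μ 0) c) := by
      rw [mm, aeval_monomial, Finsupp.prod_fintype _ _ fun _ => pow_zero _, Fin.prod_univ_two,
        ← Polynomial.C_mul_X_pow_eq_monomial, ← Polynomial.C_mul_X_pow_eq_monomial]
      simp only [Matrix.cons_val_zero, Matrix.cons_val_one, Polynomial.algebraMap_apply,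
        Algebra.algebraMap_self, RingHom.id_apply, map_mul, map_pow, mul_pow, pow_add, pow_mul]
      ring
    rw [this, Polynomial.coeff_monomial, coeff_monomial]
    by_cases h : γ * μ 0 + μ 1 = D ∧ μ 0 = a
    · obtain ⟨rfl, rfl⟩ := h
      rw [if_pos rfl, Polynomial.coeff_monomial, if_pos rfl, if_pos (Nat.le_add_right _ _),
        if_pos (ex_eq (μ := μ) (ν := ex (μ 0) (γ * μ 0 + μ 1 - γ * μ 0)) rfl (by simp))]
    · have e : (if γ * μ 0 + μ 1 = D then Polynomial.monomial (μ 0) c else 0).coeff a = 0 := by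
        split_ifs with h1
        · rw [Polynomial.coeff_monomial, if_neg fun h2 => h ⟨h1, h2⟩]
        · rfl
      rw [e]
      split_ifs with h1 h2
      · exact absurd ⟨by rw [h2]; simp only [ex_zero, ex_one]; omega, by rw [h2]; rfl⟩ h
      · rfl
      · rfl

lemma mm_ex (γ : ℕ) (F : P2) (μ : Fin 2 →₀ ℕ) :
    coeff μ F = ((mm γ F).coeff (γ * μ 0 + μ 1)).coeff (μ 0) := by
  rw [mm_coeff, if_pos (Nat.le_add_right _ _)]
  congr 1
  exact ex_eq rfl (by simp)

lemma mm_cen0 (z : ℂ) (F : P2) (i : ℕ) :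
    (mm 0 (cen z 0 F)).coeff i = Polynomial.taylor z ((mm 0 F).coeff i) := by
  have : (mm 0).comp (cen z 0) =
      (Polynomial.mapAlgHom (Polynomial.taylorAlgHom z)).comp (mm 0) := by
    refine MvPolynomial.algHom_ext fun j => ?_
    fin_cases j <;> simp [mm, cen, add_comm]
  exact (congrArg (fun p => Polynomial.coeff p i) (AlgHom.congr_fun this F)).trans
    (Polynomial.coeff_mapAlgHom_apply _ _ _)

lemma mm_cen1 (z τ : ℂ) (F : P2) (i : ℕ) :
    (mm 1 (cen z τ F)).coeff i = Polynomial.taylor τ ((mm 1 (cen z 0 F)).coeff i) := by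
  have : (mm 1).comp (cen z τ) =
      (Polynomial.mapAlgHom (Polynomial.taylorAlgHom τ)).comp ((mm 1).comp (cen z 0)) := by
    refine MvPolynomial.algHom_ext fun j => ?_
    fin_cases j <;> simp [mm, cen, add_mul, add_assoc]
  exact (congrArg (fun p => Polynomial.coeff p i) (AlgHom.congr_fun this F)).trans
    (Polynomial.coeff_mapAlgHom_apply _ _ _)

lemma mem_Cnd {z τ : ℂ} {a b W : ℕ} {F : P2} : F ∈ Cnd z τ a b W ↔
    ∀ μ : Fin 2 →₀ ℕ, a * μ 0 + b * μ 1 < W → coeff μ (cen z τ F) = 0 := Iff.rfl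

lemma mem_ord {z τ : ℂ} {k : ℕ} {F : P2} :
    F ∈ Cnd z τ 1 1 k ↔ ∀ D < k, (mm 1 (cen z 0 F)).coeff D = 0 := by
  have : F ∈ Cnd z τ 1 1 k ↔ ∀ D < k, (mm 1 (cen z τ F)).coeff D = 0 := by
    refine ⟨fun h D hD => Polynomial.ext fun a => ?_, fun h μ hμ => ?_⟩
    · rw [mm_coeff]
      split_ifs with h1
      · exact h _ (by simp only [ex_zero, ex_one]; omega)
      · rfl
    · rw [AlgHom.toLinearMap_apply, mm_ex 1, h _ (by omega), Polynomial.coeff_zero]
  simp only [this, mm_cen1 z τ, Polynomial.taylor_eq_zero]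

lemma dir_one (m : ℕ) (z : ℂ) (V : Submodule ℂ P2) [FiniteDimensional ℂ V] (R : ℕ)
    (h0 : finrank ℂ ↥(V ⊓ Cnd z 0 1 1 (2 * m)) ≤ R + m)
    (h1 : finrank ℂ ↥(V ⊓ Cnd z 0 1 1 (2 * m + 1)) ≤ R) :
    ∀ᶠ τ in cofinite, finrank ℂ ↥(V ⊓ Cnd z τ (m + 1) m (2 * m * m + m)) ≤ R := by
  let φ : P2 →ₗ[ℂ] ℂ[X] := ((Polynomial.lcoeff ℂ[X] (2 * m)).restrictScalars ℂ).comp
    ((mm 1).comp (cen z 0)).toLinearMap
  have hφ : ∀ F, φ F = (mm 1 (cen z 0 F)).coeff (2 * m) := fun F => rfl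
  have key : ∀ S : Submodule ℂ P2, S ≤ V ⊓ Cnd z 0 1 1 (2 * m) → S ⊓ LinearMap.ker φ ≤
      V ⊓ Cnd z 0 1 1 (2 * m + 1) := fun S hS F hF => ⟨(hS hF.1).1, mem_ord.2 fun D hD => by
    by_cases e : D = 2 * m
    · rw [e]; exact hF.2
    · exact mem_ord.1 (hS hF.1).2 D (by omega)⟩
  have rk : ∀ (S : Submodule ℂ P2) [FiniteDimensional ℂ S],
      finrank ℂ (S.map φ) + finrank ℂ ↥(S ⊓ LinearMap.ker φ) = finrank ℂ S := by
    intro S _
    rw [← LinearMap.finrank_range_add_finrank_ker (φ.domRestrict S), LinearMap.range_domRestrict,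
      LinearMap.ker_domRestrict, ← Submodule.finrank_map_subtype_eq, Submodule.map_comap_subtype]
  filter_upwards [wron m ((V ⊓ Cnd z 0 1 1 (2 * m)).map φ)] with τ hτ
  have a1 : V ⊓ Cnd z τ (m + 1) m (2 * m * m + m) ≤ V ⊓ Cnd z 0 1 1 (2 * m) :=
    inf_le_inf_left _ fun F hF => mem_ord.2 (mem_ord.1 (show F ∈ Cnd z τ 1 1 (2 * m) from
      fun μ hμ => hF μ (by nlinarith [Nat.zero_le (μ 1)])))
  have a2 : (V ⊓ Cnd z τ (m + 1) m (2 * m * m + m)).map φ ≤
      (V ⊓ Cnd z 0 1 1 (2 * m)).map φ ⊓ Zk τ m := by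
    refine le_inf (Submodule.map_mono a1) ?_
    rintro _ ⟨F, hF, rfl⟩
    refine mem_Zk.2 (dvd_of_taylor.2 fun a ha => ?_)
    rw [hφ, ← mm_cen1, mm_coeff, if_pos (by omega)]
    refine hF.2 _ ?_
    obtain ⟨e, he⟩ : ∃ e, 2 * m = a + e := ⟨2 * m - a, by omega⟩
    simp only [ex_zero, ex_one, one_mul]
    rw [he, Nat.add_sub_cancel_left]
    nlinarith
  have a3 := rk (V ⊓ Cnd z τ (m + 1) m (2 * m * m + m))
  have a4 := rk (V ⊓ Cnd z 0 1 1 (2 * m))
  have a5 := Submodule.finrank_mono a2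
  have a6 := Submodule.finrank_mono (inf_le_inf_right (LinearMap.ker φ) a1)
  have a7 := Submodule.finrank_mono (key _ le_rfl)
  omega

theorem dirs (m k : ℕ) (z : Fin k → ℂ) {α : Type} [Finite α] (V : α → Submodule ℂ P2)
    [∀ x, FiniteDimensional ℂ (V x)] (R : α → ℕ)
    (h : ∀ x (o : Fin k → Fin 2), finrank ℂ ↥(V x ⊓ ⨅ l, Cnd (z l) 0 1 1 (2 * m + o l)) ≤
      R x + ∑ l, m * (1 - o l)) :
    ∃ τ : Fin k → ℂ, ∀ x,
      finrank ℂ ↥(V x ⊓ ⨅ l, Cnd (z l) (τ l) (m + 1) m (2 * m * m + m)) ≤ R x := by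
  induction k generalizing α with
  | zero =>
    refine ⟨0, fun x => ?_⟩
    have := h x 0
    rw [iInf_of_empty, Finset.univ_eq_empty, Finset.sum_empty, add_zero] at this
    rwa [iInf_of_empty]
  | succ k ih =>
    obtain ⟨τ, hτ⟩ := ih (fun l => z l.succ) (α := α × Fin 2)
      (fun x => V x.1 ⊓ Cnd (z 0) 0 1 1 (2 * m + x.2)) (fun x => R x.1 + m * (1 - x.2))
      fun x o => by
        have := h x.1 (Fin.cons x.2 o)
        rw [Fin.sum_univ_succ, ← add_assoc] at this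
        refine le_trans (Submodule.finrank_mono ?_) this
        rw [inf_assoc]
        exact inf_le_inf_left _ (le_iInf (Fin.cases inf_le_left fun l =>
          inf_le_right.trans (iInf_le _ l)))
    obtain ⟨t, ht⟩ := (eventually_all.2 fun x => dir_one m (z 0)
      (V x ⊓ ⨅ l : Fin k, Cnd (z l.succ) (τ l) (m + 1) m (2 * m * m + m)) (R x)
      (by rw [inf_right_comm]; simpa using hτ (x, 0))
      (by rw [inf_right_comm]; simpa using hτ (x, 1))).exists
    refine ⟨Fin.cons t τ, fun x => le_trans (Submodule.finrank_mono ?_) (ht x)⟩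
    rw [inf_assoc]
    exact inf_le_inf_left _ (le_inf (le_iInf fun l => iInf_le_of_le l.succ le_rfl)
      (iInf_le_of_le 0 le_rfl))

end Pool.Agent.Lib.MP_d03834_ag.Nag
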