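import Pool.Agent.Lib.MP_d03834_ag.Nag.AmpB
import Pool.Agent.Lib.MP_d03834_ag.Nag.CritD

/-! The three clusters, and the passage from polynomials to Laurent polynomials. -/

set_option autoImplicit false

namespace Pool.Agent.Lib.MP_d03834_ag.Nag

open MvPolynomial LaurentPolynomial

/-- a monomial substitution -/
noncomputable def mo (α0 α1 : ℤ) (γ0 γ1 : ℕ) : P2 →ₐ[ℂ] B :=
  aeval ![Polynomial.monomial γ0 (T α0), Polynomial.monomial γ1 (T α1)]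

lemma mo_monomial (α0 α1 : ℤ) (γ0 γ1 : ℕ) (μ : Fin 2 →₀ ℕ) (c : ℂ) :
    mo α0 α1 γ0 γ1 (monomial μ c) =
      c • Polynomial.monomial (γ0 * μ 0 + γ1 * μ 1) (T (α0 * μ 0 + α1 * μ 1) : L) := by
  rw [mo, aeval_monomial, Finsupp.prod_fintype _ _ fun _ => pow_zero _, Fin.prod_univ_two,
    Algebra.smul_def]
  simp only [Matrix.cons_val_zero, Matrix.cons_val_one, Polynomial.monomial_pow, T_pow,
    Polynomial.monomial_mul_monomial, ← T_add, mul_comm α0, mul_comm α1]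

lemma mo_coeff (α0 α1 : ℤ) (γ0 γ1 : ℕ) (F : P2) (j : ℕ) (b : ℤ) :
    ((mo α0 α1 γ0 γ1 F).coeff j).coeff b = ∑ μ ∈ F.support,
      if γ0 * μ 0 + γ1 * μ 1 = j ∧ α0 * μ 0 + α1 * μ 1 = b then coeff μ F else 0 := by
  conv_lhs => rw [F.as_sum, map_sum, Polynomial.finsetSum_coeff, AddMonoidAlgebra.coeff_sum,
    Finsupp.finsetSum_apply]
  refine Finset.sum_congr rfl fun μ _ => ?_
  rw [mo_monomial, Polynomial.coeff_smul, AddMonoidAlgebra.coeff_smul, Finsupp.smul_apply,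
    mono_coeff]
  split_ifs <;> simp

lemma mo_sup {α0 α1 : ℤ} {γ0 γ1 : ℕ} {F : P2} {j : ℕ} {b : ℤ}
    (h : ((mo α0 α1 γ0 γ1 F).coeff j).coeff b ≠ 0) :
    ∃ μ ∈ F.support, γ0 * μ 0 + γ1 * μ 1 = j ∧ α0 * μ 0 + α1 * μ 1 = b := by
  rw [mo_coeff] at h
  obtain ⟨μ, h1, h2⟩ := Finset.exists_ne_zero_of_sum_ne_zero h
  exact ⟨μ, h1, by_contra fun hn => h2 (if_neg hn)⟩

lemma mo_at {α0 α1 : ℤ} {γ0 γ1 : ℕ} (hi : ∀ a b a' b' : ℕ, γ0 * a + γ1 * b = γ0 * a' + γ1 * b' →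
    α0 * a + α1 * b = α0 * a' + α1 * b' → a = a' ∧ b = b') (F : P2) (μ : Fin 2 →₀ ℕ) :
    ((mo α0 α1 γ0 γ1 F).coeff (γ0 * μ 0 + γ1 * μ 1)).coeff (α0 * μ 0 + α1 * μ 1) = coeff μ F := by
  rw [mo_coeff, Finset.sum_eq_single μ]
  · simp
  · intro ν _ hν
    exact if_neg fun h => hν (ex_eq (hi _ _ _ _ h.1 h.2).1 (hi _ _ _ _ h.1 h.2).2)
  · intro h
    simp [notMem_support_iff.1 h]

lemma evL_T (z : ℂˣ) (a : ℤ) : evL z (T a) = ((z ^ a : ℂˣ) : ℂ) := by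
  rw [evL, eval₂_T]

lemma mo_eval (α0 α1 : ℤ) (γ0 γ1 : ℕ) (z : ℂˣ) (σ : ℂ) (F : P2) : mo α0 α1 γ0 γ1 F ∈ pt z σ ↔
    F ∈ pt0 ![((z ^ α0 : ℂˣ) : ℂ) * σ ^ γ0, ((z ^ α1 : ℂˣ) : ℂ) * σ ^ γ1] := by
  have e : (Polynomial.eval₂RingHom (evL z) σ).comp (mo α0 α1 γ0 γ1 : P2 →+* B) =
      eval ![((z ^ α0 : ℂˣ) : ℂ) * σ ^ γ0, ((z ^ α1 : ℂˣ) : ℂ) * σ ^ γ1] := by
    refine MvPolynomial.ringHom_ext (fun c => ?_) fun i => ?_
    · simp [mo, evL_C]
    · fin_cases i <;> simp [mo, evL_T]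
  rw [pt0, RingHom.mem_ker, ← e]
  rfl

lemma clu_of {k m a b W : ℕ} {α0 α1 : ℤ} {γ0 γ1 : ℕ}
    (hi : ∀ a b a' b' : ℕ, γ0 * a + γ1 * b = γ0 * a' + γ1 * b' →
      α0 * a + α1 * b = α0 * a' + α1 * b' → a = a' ∧ b = b') (U : Finset ℤ) (lo len : ℤ → ℕ)
    (h1 : ∀ x y : ℕ, a * x + b * y < W → α0 * x + α1 * y ∈ U ∧
      lo (α0 * x + α1 * y) ≤ γ0 * x + γ1 * y ∧
      γ0 * x + γ1 * y < lo (α0 * x + α1 * y) + len (α0 * x + α1 * y))
    (h2 : ∀ i, hh U len i ≤ k * (m - i)) : Clu (Fin k) m a b W := by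
  obtain ⟨z, σ, h⟩ := crit_pts (n := k) (m := m) (r := 0) (K := m) (U := U) lo (len := len)
    (by simpa using h2 m) (by
      rw [Finset.sum_eq_zero fun i _ => Nat.sub_eq_zero_of_le (h2 i)])
  refine ⟨fun q => ![((z (.inl q) ^ α0 : ℂˣ) : ℂ) * σ (.inl q) ^ γ0,
    ((z (.inl q) ^ α1 : ℂˣ) : ℂ) * σ (.inl q) ^ γ1], fun G hG hs => ?_⟩
  have h0 := h (mo α0 α1 γ0 γ1 G) (fun j β hj => by
    obtain ⟨μ, a1, rfl, rfl⟩ := mo_sup hj
    exact h1 _ _ (hs μ a1)) (by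
    rintro (q | q)
    · have a1 := Ideal.mem_map_of_mem (mo α0 α1 γ0 γ1) (show G ∈ pt0 _ ^ m from hG q)
      rw [Ideal.map_pow] at a1
      exact Ideal.pow_right_mono (Ideal.map_le_iff_le_comap.2 fun x hx =>
        Ideal.mem_comap.2 ((mo_eval α0 α1 γ0 γ1 _ _ x).2 hx)) m a1
    · exact q.elim0)
  ext μ
  rw [← mo_at hi, h0]
  simp

lemma hh_le {U : Finset ℤ} {len : ℤ → ℕ} {i c : ℕ} (x : ℤ)
    (h : ∀ β ∈ U, i < len β → x ≤ β ∧ β < x + c) : hh U len i ≤ c := by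
  refine le_trans (Finset.card_le_card (t := Finset.Ico x (x + c)) fun β hβ => ?_) (by simp)
  rw [Finset.mem_filter] at hβ
  exact Finset.mem_Ico.2 (h β hβ.1 hβ.2)

theorem clu2 (m : ℕ) : Clu (Fin 2) m 2 1 (2 * m) :=
  clu_of (α0 := 0) (α1 := 1) (γ0 := 1) (γ1 := 0) (by omega) (Finset.Ico 0 (2 * m)) 0
    (fun β => (m - β / 2).toNat) (fun x y h => by
      simp only [Finset.mem_Ico, Pi.zero_apply]
      omega) fun i => hh_le 0 fun β h1 h2 => by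
      rw [Finset.mem_Ico] at h1
      omega

theorem clu3 (m : ℕ) : Clu (Fin 3) m 4 3 (6 * m) :=
  clu_of (α0 := 2) (α1 := 1) (γ0 := 1) (γ1 := 0) (by omega) (Finset.Ico 0 (3 * m))
    (fun β => ((3 * β - 6 * m) / 2 + 1).toNat)
    (fun β => (β / 2 + 1 - max ((3 * β - 6 * m) / 2 + 1) 0).toNat) (fun x y h => by
      simp only [Finset.mem_Ico]
      omega) fun i => hh_le (2 * i) fun β h1 h2 => by
      rw [Finset.mem_Ico] at h1
      omega

theorem clu4 (m : ℕ) : Clu (Fin 4) m (m + 1) m (2 * m * m + m) :=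
  clu_of (α0 := 1) (α1 := -1) (γ0 := 0) (γ1 := 1) (by omega) (Finset.Ico (-(2 * m)) (2 * m))
    (fun β => (-β).toNat)
    (fun β => if β < 0 then ((2 * m + β) / 2 + 1).toNat else ((2 * m - β + 1) / 2).toNat)
    (fun x y h => by
      have h1 : x + y < 2 * m ∨ (x + y = 2 * m ∧ x < m) := by
        rcases lt_trichotomy (x + y) (2 * m) with h1 | h1 | h1
        · exact Or.inl h1
        · exact Or.inr ⟨h1, by nlinarith⟩
        · nlinarith
      simp only [Finset.mem_Ico]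
      split_ifs <;> omega) fun i => hh_le (-(2 * (m - i : ℕ))) fun β h1 h2 => by
      rw [Finset.mem_Ico] at h1
      split_ifs at h2 <;> omega

lemma link_X (N : ℕ) : mo 1 0 0 1 (X 0 ^ N) = Polynomial.C (T N) := by
  rw [map_pow, mo, aeval_X, Matrix.cons_val_zero, Polynomial.monomial_zero_left, ← map_pow, T_pow,
    mul_one]

lemma link_ex (M : B) : ∃ (N : ℕ) (G : P2), mo 1 0 0 1 G = M * Polynomial.C (T N) := by
  induction M using Polynomial.induction_on' with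
  | add p q hp hq =>
    obtain ⟨N, G, h⟩ := hp
    obtain ⟨N', G', h'⟩ := hq
    refine ⟨N + N', G * X 0 ^ N' + G' * X 0 ^ N, ?_⟩
    simp only [map_add, map_mul, link_X, h, h', Nat.cast_add, T_add]
    ring
  | monomial j f =>
    obtain ⟨N, p, hp⟩ := f.exists_T_pow
    refine ⟨N, Polynomial.aeval (X 0) p * X 1 ^ j, ?_⟩
    have e : mo 1 0 0 1 (Polynomial.aeval (X 0) p) = Polynomial.C p.toLaurent := by
      clear hp
      induction p using Polynomial.induction_on' with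
      | add p q hp hq => simp only [map_add, hp, hq]
      | monomial n c =>
        rw [Polynomial.aeval_monomial, map_mul, link_X, AlgHom.commutes,
          ← Polynomial.C_mul_X_pow_eq_monomial, Polynomial.toLaurent_C_mul_X_pow, map_mul]
        rfl
    rw [map_mul, e, hp, map_pow, ← Polynomial.C_mul_X_pow_eq_monomial]
    simp only [mo, aeval_X, Matrix.cons_val_one, Matrix.cons_val_zero, T_zero, map_mul,
      Polynomial.monomial_one_one_eq_X]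
    ring

lemma link_inj {F : P2} (h : mo 1 0 0 1 F = 0) : F = 0 := by
  ext μ
  rw [← mo_at (α0 := 1) (α1 := 0) (γ0 := 0) (γ1 := 1) (by omega), h]
  simp

lemma link_pow (z : ℂˣ) (σ : ℂ) (m : ℕ) {M : B} (h : M ∈ pt z σ ^ m) :
    ∃ N : ℕ, ∃ G ∈ pt0 ![z, σ] ^ m, mo 1 0 0 1 G = M * Polynomial.C (T N) := by
  induction m generalizing M with
  | zero =>
    obtain ⟨N, G, hG⟩ := link_ex M
    exact ⟨N, G, by simp, hG⟩
  | succ m ih =>
    rw [Submodule.pow_succ] at h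
    induction h using Submodule.mul_induction_on' with
    | add x _ y _ hx hy =>
      obtain ⟨N, G, h1, h⟩ := hx
      obtain ⟨N', G', h2, h'⟩ := hy
      refine ⟨N + N', G * X 0 ^ N' + G' * X 0 ^ N, Ideal.add_mem _ (Ideal.mul_mem_right _ _ h1)
        (Ideal.mul_mem_right _ _ h2), ?_⟩
      simp only [map_add, map_mul, link_X, h, h', Nat.cast_add, T_add]
      ring
    | mem_mul_mem x hx y hy =>
      obtain ⟨N, G, h1, h⟩ := ih hx
      obtain ⟨N', G', h'⟩ := link_ex y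
      have h2 : G' ∈ pt0 ![z, σ] := by
        simpa using (mo_eval 1 0 0 1 z σ G').1 (h' ▸ Ideal.mul_mem_right _ _ hy)
      refine ⟨N + N', G * G', by rw [pow_succ]; exact Ideal.mul_mem_mul h1 h2, ?_⟩
      simp only [map_mul, h, h', Nat.cast_add, T_add]
      ring

lemma link_fat (z : ℂˣ) (σ : ℂ) (m : ℕ) {F : P2} (h : mo 1 0 0 1 F ∈ pt z σ ^ m) :
    F ∈ Fat ![z, σ] m := by
  obtain ⟨N, G, h1, h2⟩ := link_pow z σ m h
  have h3 : G = F * X 0 ^ N := sub_eq_zero.1 (link_inj (by rw [map_sub, map_mul, link_X, h2, sub_self]))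
  have h4 : pt0 ![z, σ] ⊔ Ideal.span {X 0} = ⊤ := by
    rw [Ideal.eq_top_iff_one, Submodule.mem_sup]
    refine ⟨1 - MvPolynomial.C ((z : ℂ)⁻¹) * X 0, by simp [pt0], MvPolynomial.C ((z : ℂ)⁻¹) * X 0,
      Ideal.mul_mem_left _ _ (Ideal.mem_span_singleton_self _), by ring⟩
  have h5 := Ideal.pow_sup_pow_eq_top (m := m) (n := N) h4
  rw [Ideal.span_singleton_pow, Ideal.eq_top_iff_one, Submodule.mem_sup] at h5
  obtain ⟨x, hx, y, hy, e⟩ := h5
  obtain ⟨c, rfl⟩ := Ideal.mem_span_singleton'.1 hy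
  have : F = F * x + c * G := by rw [h3]; linear_combination (-F) * e
  rw [this]
  exact Ideal.add_mem _ (Ideal.mul_mem_left _ _ hx) (Ideal.mul_mem_left _ _ h1)

end Pool.Agent.Lib.MP_d03834_ag.Nag
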