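import Pool.Agent.Lib.MP_d03834_ag.Nag.AmpC

/-! The criterion with collisions of four points. -/

set_option autoImplicit false

namespace Pool.Agent.Lib.MP_d03834_ag.Nag

open MvPolynomial Module

/-- polynomials supported under the shifted columns -/
noncomputable def V0 (U : Finset ℤ) (len : ℤ → ℕ) (N : ℕ) : Submodule ℂ P2 where
  carrier := {F | ∀ μ : Fin 2 →₀ ℕ, ¬((μ 0 : ℤ) - N ∈ U ∧ μ 1 < len (μ 0 - N)) → coeff μ F = 0}
  zero_mem' := fun _ _ => rfl
  add_mem' := fun h h' μ hμ => by rw [coeff_add, h μ hμ, h' μ hμ, add_zero]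
  smul_mem' := fun c F h μ hμ => by rw [coeff_smul, h μ hμ, smul_zero]

lemma V0_ex {U : Finset ℤ} {len : ℤ → ℕ} {N : ℕ} (hN : ∀ b ∈ U, 0 ≤ b + N) {M : B}
    (h : Col U 0 len M) :
    ∃ G ∈ V0 U len N, mo 1 0 0 1 G = M * Polynomial.C (LaurentPolynomial.T N) := by
  refine ⟨∑ s ∈ cells U len, (M.coeff s.2).coeff s.1 • monomial (ex (s.1 + N).toNat s.2) 1,
    Submodule.sum_mem _ fun s hs => Submodule.smul_mem _ _ fun μ hμ => ?_, ?_⟩
  · have h2 := Finset.mem_sigma.1 hs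
    rw [coeff_monomial, if_neg]
    rintro rfl
    refine hμ ?_
    rw [ex_zero, ex_one, Int.toNat_of_nonneg (hN _ h2.1), add_sub_cancel_right]
    exact ⟨h2.1, Finset.mem_range.1 h2.2⟩
  · conv_rhs => rw [col_sum h]
    rw [map_sum, Finset.sum_mul]
    refine Finset.sum_congr rfl fun s hs => ?_
    rw [map_smul, mo_monomial, ex_zero, ex_one, Int.toNat_of_nonneg (hN _ (Finset.mem_sigma.1 hs).1),
      smul_mul_assoc, Polynomial.monomial_mul_C, ← LaurentPolynomial.T_add]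
    simp

lemma level {ι : Type} [Fintype ι] {x : ι → ℝ} (hx : Function.Injective x) (hp : ∀ l, 0 < x l)
    (need : ι → ℕ → ℕ) {U : Finset ℤ} {len : ℤ → ℕ} {N K : ℕ} (hK : hh U len K = 0)
    (S : Submodule ℂ P2) (h0 : S ≤ V0 U len N) (hN : ∀ b ∈ U, 0 ≤ b + N)
    (h1 : ∀ F ∈ S, ∀ l i,
      (Polynomial.X - Polynomial.C (x l : ℂ)) ^ need l i ∣ (mm 0 F).coeff i) :
    FiniteDimensional ℂ S ∧
      finrank ℂ S ≤ ∑ i ∈ Finset.range K, (hh U len i - ∑ l, need l i) := by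
  classical
  have hV : ∀ i, ∃ V ⊆ U.filter fun b => i < len b, V.card = min (hh U len i) (∑ l, need l i) :=
    fun i => Finset.exists_subset_card_eq (min_le_left _ _)
  choose V hV1 hV2 using hV
  let E : Finset ((_ : ℕ) × ℤ) := (Finset.range K).sigma fun i => (U.filter fun b => i < len b) \ V i
  have hE : E.card ≤ ∑ i ∈ Finset.range K, (hh U len i - ∑ l, need l i) := by
    rw [Finset.card_sigma]
    refine Finset.sum_le_sum fun i _ => ?_
    rw [Finset.card_sdiff_of_subset (hV1 i), hV2]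
    unfold hh
    omega
  let φ : S →ₗ[ℂ] E → ℂ :=
    (LinearMap.pi fun s : E => lcoeff ℂ (ex (s.1.2 + N).toNat s.1.1)).comp S.subtype
  have hφ : Function.Injective φ := by
    refine LinearMap.ker_eq_bot.1 (LinearMap.ker_eq_bot'.2 ?_)
    rintro ⟨F, hF⟩ h
    refine Subtype.ext (MvPolynomial.ext _ _ fun μ => ?_)
    have key : ∀ i, (mm 0 F).coeff i = 0 := fun i => by
      refine critA_cx hx hp (fun l => need l i) (fun l => h1 F hF l i)
        (le_trans (Finset.card_le_card_of_injOn (t := V i) (fun a : ℕ => (a : ℤ) - N)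
          (fun a ha => ?_) fun a _ b _ h => by simpa using h) (by rw [hV2]; exact min_le_right _ _))
      rw [Finset.mem_coe, Polynomial.mem_support_iff, mm_coeff, if_pos (by omega), zero_mul,
        Nat.sub_zero] at ha
      have a1 : (a : ℤ) - N ∈ U ∧ i < len (a - N) := by_contra fun hn => ha (h0 hF _ hn)
      have a2 : i < K := by
        by_contra hn
        have : (a : ℤ) - N ∈ U.filter fun b => K < len b := Finset.mem_filter.2 ⟨a1.1, by omega⟩
        rw [hh, Finset.card_eq_zero] at hK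
        simp [hK] at this
      by_contra hn
      have := congrFun h ⟨⟨i, (a : ℤ) - N⟩, Finset.mem_sigma.2 ⟨Finset.mem_range.2 a2,
        Finset.mem_sdiff.2 ⟨Finset.mem_filter.2 a1, hn⟩⟩⟩
      exact ha (by simpa [φ] using this)
    rw [mm_ex 0, key]
    simp
  refine ⟨Module.Finite.of_injective φ hφ, ?_⟩
  have := LinearMap.finrank_le_finrank_of_injective hφ
  rw [Module.finrank_fintype_fun_eq_card, Fintype.card_coe] at this
  omega

lemma cnd_dvd {z : ℂ} {a b W : ℕ} {F : P2} (h : F ∈ Cnd z 0 a b W) {i k : ℕ}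
    (hk : ∀ e < k, a * e + b * i < W) :
    (Polynomial.X - Polynomial.C z) ^ k ∣ (mm 0 F).coeff i :=
  dvd_of_taylor.2 fun e he => by
    rw [← mm_cen0, mm_coeff, if_pos (by omega)]
    exact h _ (by simpa using hk e he)

lemma simple (r : ℕ) (W : Submodule ℂ P2) [FiniteDimensional ℂ W] (h : finrank ℂ W ≤ r) :
    ∃ p : Fin r → Fin 2 → ℂ, (∀ q, p q 0 ≠ 0) ∧ W ⊓ ⨅ q, Fat (p q) 1 = ⊥ := by
  induction r generalizing W with
  | zero =>
    refine ⟨fun q => q.elim0, fun q => q.elim0, ?_⟩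
    rw [Submodule.finrank_eq_zero.1 (Nat.le_zero.1 h), bot_inf_eq]
  | succ r ih =>
    by_cases h0 : W = ⊥
    · exact ⟨1, fun q => one_ne_zero, by rw [h0, bot_inf_eq]⟩
    obtain ⟨F, h1, h2⟩ := (Submodule.ne_bot_iff W).1 h0
    obtain ⟨p0, h3⟩ : ∃ p0, eval p0 (X 0 * F) ≠ 0 := by
      by_contra hn
      push Not at hn
      exact mul_ne_zero (X_ne_zero _) h2 (MvPolynomial.funext fun x => by rw [hn, map_zero])
    rw [map_mul, eval_X, mul_ne_zero_iff] at h3
    have hlt : W ⊓ Fat p0 1 < W := lt_of_le_of_ne inf_le_left fun e => h3.2 (by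
      simpa [Fat, pt0] using (e.ge h1).2)
    obtain ⟨p, h4, h5⟩ := ih (W ⊓ Fat p0 1) (by
      have := Submodule.finrank_lt_finrank_of_lt hlt
      omega)
    refine ⟨Fin.cons p0 p, Fin.cases h3.1 h4, ?_⟩
    rw [eq_bot_iff, ← h5, inf_assoc]
    exact inf_le_inf_left _ (le_inf (iInf_le_of_le 0 le_rfl)
      (le_iInf fun q => iInf_le_of_le q.succ le_rfl))

/-- the conditions on the level i -/
def need (m z o r2 r3 i : ℕ) : ℕ :=
  z * (2 * m - i) + o * (2 * m + 1 - i) + r2 * ((2 * m - i + 1) / 2) + r3 * ((6 * m - 3 * i + 3) / 4)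

lemma ampD_poly {m r c r2 r3 K N : ℕ} (hm : 0 < m) {U : Finset ℤ} {len : ℤ → ℕ}
    (hK : hh U len K = 0) (hN : ∀ b ∈ U, 0 ≤ b + N)
    (h : ∀ z o, z + o = c →
      ∑ i ∈ Finset.range K, (hh U len i - need m z o r2 r3 i) ≤ r + m * z) :
    ∃ (p : (Fin c × Fin 4) ⊕ (Fin r2 × Fin 2) ⊕ (Fin r3 × Fin 3) → Fin 2 → ℂ)
      (s : Fin r → Fin 2 → ℂ), (∀ q, p q 0 ≠ 0) ∧ (∀ q, s q 0 ≠ 0) ∧
      ∀ F ∈ V0 U len N, (∀ q, F ∈ Fat (p q) m) → (∀ q, F ∈ Fat (s q) 1) → F = 0 := by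
  let x : Fin c ⊕ Fin r2 ⊕ Fin r3 → ℝ := fun l => (Fintype.equivFin _ l : ℕ) + 1
  have hx : Function.Injective x := fun a b e =>
    (Fintype.equivFin _).injective (Fin.ext (by exact_mod_cast add_right_cancel e))
  have hp : ∀ l, 0 < x l := fun l => by positivity
  have hz : ∀ l, (x l : ℂ) ≠ 0 := fun l => Complex.ofReal_ne_zero.2 (hp l).ne'
  haveI := (level (ι := Fin 0) (x := 0) (fun a => a.elim0) (fun a => a.elim0) 0 hK _ le_rfl hN
    fun _ _ l => l.elim0).1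
  let C2 := ⨅ l : Fin r2, Cnd (x (.inr (.inl l))) ((0 : Fin r2 → ℂ) l) 2 1 (2 * m)
  let C3 := ⨅ l : Fin r3, Cnd (x (.inr (.inr l))) ((0 : Fin r3 → ℂ) l) 4 3 (6 * m)
  obtain ⟨τ, hτ⟩ := dirs m c (fun l => x (.inl l)) (α := Unit) (fun _ => V0 U len N ⊓ C2 ⊓ C3)
    (fun _ => r) fun _ o => by
    refine le_trans (level hx hp (Sum.elim (fun l i => 2 * m + o l - i) (Sum.elim
      (fun _ i => (2 * m - i + 1) / 2) fun _ i => (6 * m - 3 * i + 3) / 4)) hK _
      (inf_le_left.trans (inf_le_left.trans inf_le_left)) hN ?_).2 ?_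
    · rintro F ⟨⟨⟨-, a2⟩, a3⟩, a1⟩ (l | l | l) i
      · exact cnd_dvd ((Submodule.mem_iInf _).1 a1 l) fun e he => by
          simp only [Sum.elim_inl] at he
          omega
      · exact cnd_dvd ((Submodule.mem_iInf _).1 a2 l) fun e he => by
          simp only [Sum.elim_inl, Sum.elim_inr] at he
          omega
      · exact cnd_dvd ((Submodule.mem_iInf _).1 a3 l) fun e he => by
          simp only [Sum.elim_inr] at he
          omega
    · have := h (∑ l, (1 - o l)) (∑ l, o l) (by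
        rw [← Finset.sum_add_distrib, Finset.sum_congr rfl (g := fun _ => 1) fun l _ => by omega]
        simp)
      rw [Finset.mul_sum] at this
      refine le_trans (le_of_eq (Finset.sum_congr rfl fun i _ => ?_)) this
      congr 1
      simp only [need, Fintype.sum_sum_type, Sum.elim_inl, Sum.elim_inr, Finset.sum_const,
        Finset.card_univ, Fintype.card_fin, smul_eq_mul, Finset.sum_mul, add_assoc]
      rw [← add_assoc (∑ _, _) (∑ _, _), ← Finset.sum_add_distrib]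
      congr 1
      refine Finset.sum_congr rfl fun l _ => ?_
      generalize o l = y
      fin_cases y <;> simp
  obtain ⟨s, s0, s1⟩ := simple r _ (hτ ())
  obtain ⟨p4, a0, a1⟩ := replace m.succ_ne_zero hm.ne' (clu4 m) c (fun l => x (.inl l)) τ
    (fun l => hz _) (V0 U len N ⊓ C2 ⊓ C3 ⊓ ⨅ q, Fat (s q) 1) (by rw [inf_right_comm, s1])
  obtain ⟨p3, b0, b1⟩ := replace (by norm_num) (by norm_num) (clu3 m) r3
    (fun l => x (.inr (.inr l))) 0 (fun l => hz _)
    (V0 U len N ⊓ C2 ⊓ (⨅ q, Fat (s q) 1) ⊓ ⨅ q, Fat (p4 q) m) (by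
      rw [← a1, inf_right_comm, inf_right_comm _ _ C3])
  obtain ⟨p2, c0, c1⟩ := replace (by norm_num) (by norm_num) (clu2 m) r2
    (fun l => x (.inr (.inl l))) 0 (fun l => hz _)
    (V0 U len N ⊓ (⨅ q, Fat (s q) 1) ⊓ (⨅ q, Fat (p4 q) m) ⊓ ⨅ q, Fat (p3 q) m) (by
      rw [← b1, inf_right_comm, inf_right_comm _ _ C2, inf_right_comm _ _ C2])
  refine ⟨Sum.elim p4 (Sum.elim p2 p3), s, ?_, s0, fun F h0 h1 h2 =>
    (Submodule.eq_bot_iff _).1 c1 F ⟨⟨⟨⟨h0, (Submodule.mem_iInf _).2 h2⟩,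
      (Submodule.mem_iInf _).2 fun q => h1 (.inl q)⟩,
      (Submodule.mem_iInf _).2 fun q => h1 (.inr (.inr q))⟩,
      (Submodule.mem_iInf _).2 fun q => h1 (.inr (.inl q))⟩⟩
  rintro (q | q | q)
  · exact a0 q
  · exact c0 q
  · exact b0 q

/-- the amplified criterion -/
theorem amp {n m r c r2 r3 K : ℕ} (hn : n = 4 * c + 2 * r2 + 3 * r3) (hm : 0 < m) {U : Finset ℤ}
    (lo : ℤ → ℕ) {len : ℤ → ℕ} (hK : hh U len K = 0)
    (h : ∀ z o, z + o = c →
      ∑ i ∈ Finset.range K, (hh U len i - need m z o r2 r3 i) ≤ r + m * z) :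
    ∃ (z : Fin n ⊕ Fin r → ℂˣ) (σ : Fin n ⊕ Fin r → ℂ), ∀ M, Col U lo len M →
      (∀ l, M ∈ pt (z l) (σ l) ^ Sum.elim (fun _ => m) (fun _ => 1) l) → M = 0 := by
  have hN : ∀ b ∈ U, 0 ≤ b + (U.sup Int.natAbs : ℕ) := fun b hb => by
    have := Finset.le_sup (f := Int.natAbs) hb
    omega
  obtain ⟨p, s, p0, s0, H⟩ := ampD_poly hm hK hN h
  obtain ⟨e⟩ : Nonempty ((Fin c × Fin 4) ⊕ (Fin r2 × Fin 2) ⊕ (Fin r3 × Fin 3) ≃ Fin n) :=
    ⟨Fintype.equivFinOfCardEq (by simp; omega)⟩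
  refine ⟨Sum.elim (fun l => Units.mk0 _ (p0 (e.symm l))) fun q => Units.mk0 _ (s0 q),
    compress lo _ (Sum.elim (fun l => p (e.symm l) 1) fun q => s q 1) _ fun M h1 h2 => ?_⟩
  obtain ⟨G, h3, h4⟩ := V0_ex hN h1
  have eta : ∀ y : Fin 2 → ℂ, ![y 0, y 1] = y := fun y => by
    funext i
    fin_cases i <;> rfl
  have h5 := H G h3 (fun q => by
    have := link_fat _ _ _ (h4 ▸ Ideal.mul_mem_right _ _ (h2 (.inl (e q))))
    simpa [eta] using this) fun q => by
    have := link_fat _ _ _ (h4 ▸ Ideal.mul_mem_right _ _ (h2 (.inr q)))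
    simpa [eta] using this
  rw [h5, map_zero] at h4
  exact ((LaurentPolynomial.isUnit_T _).map Polynomial.C).mul_left_eq_zero.1 h4.symm

end Pool.Agent.Lib.MP_d03834_ag.Nag
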