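import Pool.Agent.Lib.MP_d03834_ag.Nag.Transfer
import Pool.Agent.Lib.MP_d03834_ag.Nag.CritD
import Pool.Agent.Lib.MP_d03834_ag.Nag.AmpT

/-! General simple points impose independent conditions. -/

set_option autoImplicit false

namespace Pool.Agent.Lib.MP_d03834_ag.Nag

theorem emp_one {n r d : ℕ} (h : (d + 2).choose 2 ≤ n + r) :
    Emp d (Sum.elim (fun _ : Fin n => 1) fun _ : Fin r => 1) := by
  have hD : ∀ D : ℕ, 0 < D → D ≤ d + 1 → ¬((d : ℤ) + 2) ∣ (3 * ((d : ℤ) + 2) + 1) * D := by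
    intro D h0 h1 h2
    have h3 : ((d : ℤ) + 2) ∣ (D : ℤ) := by
      have e : (3 * ((d : ℤ) + 2) + 1) * D = ((d : ℤ) + 2) * (3 * D) + D := by ring
      rw [e] at h2
      exact (dvd_add_right (dvd_mul_right _ _)).1 h2
    have := Int.le_of_dvd (by exact_mod_cast h0) h3
    omega
  obtain ⟨U, lo, len, h1, h2, -⟩ := tri_col (N := (d : ℤ) + 2) (a := 3 * ((d : ℤ) + 2) + 1) d
    (by omega) (by omega) fun D a b => hD D a (by omega)
  obtain ⟨z, σ, H⟩ := crit_onto (n := 0) (m := 0) (r := n + r) (U := U) lo (len := len)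
    (fun i hi => absurd hi (Nat.not_lt_zero i)) (by omega)
  refine transfer (N := (d : ℤ) + 2) (a := 3 * ((d : ℤ) + 2) + 1) (by omega)
    (by simpa using hD 1 one_pos (by omega)) d _ (fun l => z (.inr (finSumFinEquiv l)))
    (fun l => σ (.inr (finSumFinEquiv l))) fun M hS hM => H M (h1 M hS) ?_
  rintro (l | l)
  · exact l.elim0
  · have := hM (finSumFinEquiv.symm l)
    rw [Equiv.apply_symm_apply] at this
    generalize finSumFinEquiv.symm l = x at this
    rcases x with x | x <;> exact this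

end Pool.Agent.Lib.MP_d03834_ag.Nag
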