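import Pool.Agent.Lib.MP_d03834_ag.Nag.Tay

/-! The rule of signs for sparse Laurent polynomials with complex coefficients. -/

set_option autoImplicit false

namespace Pool.Agent.Lib.MP_d03834_ag.Nag

open Polynomial

lemma critA_sv (P : ℝ[X]) (h : P ≠ 0) : signVariations P + 1 ≤ P.support.card := by
  generalize hn : P.support.card = n
  induction n generalizing P with
  | zero => exact absurd (card_support_eq_zero.1 hn) h
  | succ n ih =>
    by_cases h0 : P.eraseLead = 0
    · have := eraseLead_add_monomial_natDegree_leadingCoeff P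
      rw [h0, zero_add] at this
      rw [← this, signVariations_monomial]
      omega
    · have h1 := ih P.eraseLead h0 (by rw [card_support_eraseLead, hn]; rfl)
      have h2 := signVariations_le_eraseLead_succ P
      omega

lemma critA_real {ι : Type} [Fintype ι] {x : ι → ℝ} (hx : Function.Injective x)
    (hp : ∀ l, 0 < x l) (k : ι → ℕ) {P : ℝ[X]} (hd : ∀ l, (X - C (x l)) ^ k l ∣ P)
    (hc : P.support.card ≤ ∑ l, k l) : P = 0 := by
  classical
  by_contra h0
  have h1 : ∏ l, (X - C (x l)) ^ k l ∣ P :=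
    Finset.prod_dvd_of_coprime
      (fun a _ b _ hab => (pairwise_coprime_X_sub_C hx hab).pow) fun l _ => hd l
  let s : Multiset ℝ := ∑ l, Multiset.replicate (k l) (x l)
  have h2 : (s.map fun a => X - C a).prod = ∏ l, (X - C (x l)) ^ k l := by
    simp only [s]
    rw [← Multiset.coe_mapAddMonoidHom, map_sum, Multiset.prod_sum]
    simp
  have h3 : s ≤ P.roots := (Multiset.prod_X_sub_C_dvd_iff_le_roots h0 s).1 (h2 ▸ h1)
  have h4 : s.countP (0 < ·) = ∑ l, k l := by
    rw [Multiset.countP_eq_card.2]
    · simp [s]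
    · intro a ha
      simp only [s, Multiset.mem_sum, Multiset.mem_replicate] at ha
      obtain ⟨l, -, -, rfl⟩ := ha
      exact hp l
  have h5 := Multiset.countP_le_of_le (0 < ·) h3
  have h6 := roots_countP_pos_le_signVariations P
  have h7 := critA_sv P h0
  omega

lemma critA_half {ι : Type} [Fintype ι] {x : ι → ℝ} (hx : Function.Injective x)
    (hp : ∀ l, 0 < x l) (k : ι → ℕ) {P : ℂ[X]} (hd : ∀ l, (X - C (x l : ℂ)) ^ k l ∣ P)
    (hc : P.support.card ≤ ∑ l, k l) : P + P.map (starRingEnd ℂ) = 0 := by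
  have h1 : P + P.map (starRingEnd ℂ) ∈ lifts (algebraMap ℝ ℂ) := by
    rw [lifts_iff_coeff_lifts]
    intro j
    refine ⟨2 * (P.coeff j).re, ?_⟩
    rw [coeff_add, coeff_map, Complex.add_conj]
    rfl
  obtain ⟨Q, hQ⟩ := (mem_lifts _).1 h1
  have h2 : Q = 0 := by
    refine critA_real hx hp k (fun l => ?_) (le_trans (Finset.card_le_card fun j hj => ?_) hc)
    · rw [← map_dvd_map' (algebraMap ℝ ℂ), hQ]
      have e : ((X - C (x l)) ^ k l).map (algebraMap ℝ ℂ) = (X - C (x l : ℂ)) ^ k l := by simp
      rw [e]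
      refine dvd_add (hd l) ?_
      have := Polynomial.map_dvd (starRingEnd ℂ) (hd l)
      simpa using this
    · rw [mem_support_iff] at hj ⊢
      intro e
      have := congrArg (fun p => coeff p j) hQ
      simp only [coeff_map, coeff_add, e, map_zero, add_zero] at this
      exact hj ((algebraMap ℝ ℂ).injective (by rw [this, map_zero]))
  rw [← hQ, h2, Polynomial.map_zero]

lemma critA_cx {ι : Type} [Fintype ι] {x : ι → ℝ} (hx : Function.Injective x)
    (hp : ∀ l, 0 < x l) (k : ι → ℕ) {P : ℂ[X]} (hd : ∀ l, (X - C (x l : ℂ)) ^ k l ∣ P)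
    (hc : P.support.card ≤ ∑ l, k l) : P = 0 := by
  have h1 := critA_half hx hp k hd hc
  have h2 := critA_half hx hp k (P := C Complex.I * P) (fun l => (hd l).mul_left _)
    (le_trans (Finset.card_le_card fun j hj => by
      rw [mem_support_iff] at hj ⊢
      intro e
      exact hj (by rw [coeff_C_mul, e, mul_zero])) hc)
  ext j
  have e1 := congrArg (fun p => coeff p j) h1
  have e2 := congrArg (fun p => coeff p j) h2
  simp only [coeff_add, coeff_map, coeff_C_mul, coeff_zero, map_mul, Complex.conj_I] at e1 e2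
  have : (2 * Complex.I) * P.coeff j = 0 := by linear_combination Complex.I * e1 + e2
  simpa using this

/-- the points 1, 2, 3, ... -/
noncomputable def zz {n : ℕ} (l : Fin n) : ℂˣ :=
  Units.mk0 (((l : ℝ) + 1 : ℝ) : ℂ) (by
    rw [Complex.ofReal_ne_zero]
    positivity)

/-- a Laurent polynomial with at most as many terms as positive zeros is zero -/
theorem desc {n : ℕ} (k : Fin n → ℕ) {U : Finset ℤ} {f : L} (hU : ∀ b, f.coeff b ≠ 0 → b ∈ U)
    (hk : ∀ l, f ∈ RingHom.ker (evL (zz l)) ^ k l) (hc : U.card ≤ ∑ l, k l) : f = 0 := by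
  obtain ⟨N, p, hp⟩ := f.exists_T_pow
  have h0 : p = 0 := by
    refine critA_cx (x := fun l : Fin n => (l : ℝ) + 1) (fun a b h => ?_) (fun l => by positivity) k
      (fun l => tay_dvd (zz l) (k l) (hp ▸ Ideal.mul_mem_right _ _ (hk l))) (le_trans ?_ hc)
    · exact Fin.ext (by exact_mod_cast add_right_cancel h)
    · refine Finset.card_le_card_of_injOn (fun j => (j : ℤ) - N) (fun j hj => hU _ ?_)
        fun a _ b _ h => by simpa using h
      rw [tay_coeff hp]
      exact mem_support_iff.1 hj
  rw [h0, map_zero] at hp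
  exact (LaurentPolynomial.isUnit_T (N : ℤ)).mul_left_eq_zero.1 hp.symm

end Pool.Agent.Lib.MP_d03834_ag.Nag
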