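import Pool.Agent.Lib.MP_d03834_ag.Nag.CritA

/-! Degeneration to the normal cone of the leaf. -/

set_option autoImplicit false

namespace Pool.Agent.Lib.MP_d03834_ag.Nag

open Polynomial

/-- every exponent (b, j) has b in U and lo b ≤ j < lo b + len b -/
def Col (U : Finset ℤ) (lo len : ℤ → ℕ) (M : B) : Prop :=
  ∀ (j : ℕ) (b : ℤ), (M.coeff j).coeff b ≠ 0 → b ∈ U ∧ lo b ≤ j ∧ j < lo b + len b

/-- the number of columns with more than i points -/
def hh (U : Finset ℤ) (len : ℤ → ℕ) (i : ℕ) : ℕ := (U.filter fun b => i < len b).card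

lemma critB_open {S W : Type} [Fintype S] [AddCommGroup W] [Module ℂ W] (v : S → ℕ → W) (K : ℕ)
    (h0 : LinearIndependent ℂ fun s => v s 0) :
    ∃ η : ℂ, η ≠ 0 ∧ LinearIndependent ℂ fun s => ∑ k ∈ Finset.range (K + 1), η ^ k • v s k := by
  classical
  obtain ⟨G, hG⟩ := LinearMap.exists_leftInverse_of_injective
    (Fintype.linearCombination ℂ fun s => v s 0)
    (LinearMap.ker_eq_bot.2 (linearIndependent_iff_injective_fintypeLinearCombination.1 h0))
  let A : ℂ → Matrix S S ℂ := fun η => Matrix.of fun s' s =>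
    ∑ k ∈ Finset.range (K + 1), η ^ k * G (v s k) s'
  have hA : A 0 = 1 := by
    ext s' s
    have := congrFun (LinearMap.congr_fun hG (Pi.single s 1)) s'
    simp only [LinearMap.comp_apply, Fintype.linearCombination_apply_single, one_smul,
      LinearMap.id_apply] at this
    simp [A, Finset.sum_range_succ', this, Matrix.one_apply, Pi.single_apply]
  have hc : Continuous fun η => (A η).det := by
    refine Continuous.matrix_det (continuous_matrix fun s' s => ?_)
    simp only [A, Matrix.of_apply]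
    fun_prop
  have h1 : ∀ᶠ η in nhds (0 : ℂ), (A η).det ≠ 0 :=
    hc.continuousAt.eventually_ne (by rw [hA, Matrix.det_one]; exact one_ne_zero)
  obtain ⟨η, h2, h3⟩ := ((h1.filter_mono nhdsWithin_le_nhds).and
    (self_mem_nhdsWithin (s := {0}ᶜ) (a := (0 : ℂ)))).exists
  refine ⟨η, h3, Fintype.linearIndependent_iff.2 fun c hc' => congrFun
    (Matrix.eq_zero_of_mulVec_eq_zero h2 (funext fun s' => ?_))⟩
  have := congrFun (congrArg G hc') s'
  simp only [map_sum, map_smul, map_zero, Finset.sum_apply, Pi.smul_apply, smul_eq_mul,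
    Pi.zero_apply] at this
  simp only [A, Matrix.mulVec, dotProduct, Matrix.of_apply, Pi.zero_apply]
  rw [← this]
  exact Finset.sum_congr rfl fun s _ => mul_comm _ _

/-- the substitution s ↦ a + η s -/
noncomputable def sub (a η : ℂ) : B →ₐ[L] B := aeval (C (algebraMap ℂ L a) + C (algebraMap ℂ L η) * X)

lemma evL_C (z : ℂˣ) (a : ℂ) : evL z (LaurentPolynomial.C a) = a := by
  rw [evL, LaurentPolynomial.eval₂_C]
  rfl

lemma sub_pt (z : ℂˣ) (a η u : ℂ) (m : ℕ) {M : B} (h : M ∈ pt z (a + η * u) ^ m) :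
    sub a η M ∈ pt z u ^ m := by
  have h1 : (pt z (a + η * u)).map (sub a η) ≤ pt z u := by
    rw [Ideal.map_le_iff_le_comap]
    intro x hx
    have e : (eval₂RingHom (evL z) u).comp (sub a η : B →+* B) =
        eval₂RingHom (evL z) (a + η * u) := by
      refine Polynomial.ringHom_ext (fun c => ?_) ?_
      · simp [sub]
      · simp [sub, evL_C]
    rw [Ideal.mem_comap, pt, RingHom.mem_ker]
    exact (RingHom.congr_fun e x).trans hx
  have h2 := Ideal.mem_map_of_mem (sub a η) h
  rw [Ideal.map_pow] at h2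
  exact Ideal.pow_right_mono h1 m h2

lemma sub_inj {a η : ℂ} (hη : η ≠ 0) {M : B} (h : sub a η M = 0) : M = 0 := by
  have e : (sub (-a / η) η⁻¹).comp (sub a η) = AlgHom.id L B := by
    refine Polynomial.algHom_ext ?_
    simp only [sub, AlgHom.comp_apply, aeval_X, map_add, map_mul, aeval_C, AlgHom.id_apply,
      algebraMap_eq]
    rw [mul_add, ← mul_assoc, ← add_assoc, ← C_mul, ← C_mul, ← C_add, ← map_mul, ← map_mul,
      ← map_add, mul_inv_cancel₀ hη, mul_div_cancel₀ _ hη]
    simp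
  have := AlgHom.congr_fun e M
  rw [AlgHom.comp_apply, h, map_zero] at this
  exact this.symm

/-- the lattice points under the columns -/
def cells (U : Finset ℤ) (len : ℤ → ℕ) : Finset ((_ : ℤ) × ℕ) :=
  U.sigma fun b => Finset.range (len b)

lemma mono_coeff (j j' : ℕ) (b b' : ℤ) :
    ((monomial j (LaurentPolynomial.T b : L)).coeff j').coeff b' =
      if j = j' ∧ b = b' then 1 else 0 := by
  rw [coeff_monomial]
  by_cases h : j = j'
  · rw [if_pos h, LaurentPolynomial.T, AddMonoidAlgebra.coeff_single, Finsupp.single_apply]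
    simp [h]
  · simp [h]

lemma col_sum {U : Finset ℤ} {lo len : ℤ → ℕ} {M : B} (h : Col U lo len M) :
    M = ∑ s ∈ cells U len, (M.coeff (lo s.1 + s.2)).coeff s.1 •
      monomial (lo s.1 + s.2) (LaurentPolynomial.T s.1 : L) := by
  classical
  ext j b
  rw [finsetSum_coeff, AddMonoidAlgebra.coeff_sum, Finsupp.finsetSum_apply]
  simp only [coeff_smul, AddMonoidAlgebra.coeff_smul, Finsupp.smul_apply, mono_coeff, smul_eq_mul]
  by_cases h0 : (M.coeff j).coeff b = 0
  · rw [h0]
    refine (Finset.sum_eq_zero fun s _ => ?_).symm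
    split_ifs with h1
    · rw [h1.1, h1.2, h0, zero_mul]
    · rw [mul_zero]
  · obtain ⟨h1, h2, h3⟩ := h j b h0
    rw [Finset.sum_eq_single ⟨b, j - lo b⟩]
    · simp [Nat.add_sub_cancel' h2]
    · rintro ⟨b', i⟩ _ hne
      rw [if_neg, mul_zero]
      rintro ⟨e1, e2⟩
      dsimp only at e1 e2
      subst e2
      exact hne (by rw [← e1, Nat.add_sub_cancel_left])
    · intro hn
      refine absurd ?_ hn
      rw [cells, Finset.mem_sigma, Finset.mem_range]
      exact ⟨h1, show j - lo b < len b by omega⟩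

lemma sum_col {U : Finset ℤ} {len : ℤ → ℕ} (c : cells U len → ℂ) (s : cells U len) :
    ((∑ s : cells U len, c s • monomial s.1.2 (LaurentPolynomial.T s.1.1 : L)).coeff s.1.2).coeff
      s.1.1 = c s := by
  classical
  rw [finsetSum_coeff, AddMonoidAlgebra.coeff_sum, Finsupp.finsetSum_apply]
  simp only [coeff_smul, AddMonoidAlgebra.coeff_smul, Finsupp.smul_apply, mono_coeff, smul_eq_mul]
  rw [Finset.sum_eq_single s]
  · simp
  · rintro ⟨⟨b, i⟩, hb⟩ _ hne
    rw [if_neg, mul_zero]
    rintro ⟨e1, e2⟩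
    obtain ⟨⟨b', i'⟩, hs⟩ := s
    dsimp only at e1 e2
    subst e1 e2
    exact hne rfl
  · simp

lemma sum_col' {U : Finset ℤ} {len : ℤ → ℕ} (c : cells U len → ℂ) :
    Col U 0 len (∑ s : cells U len, c s • monomial s.1.2 (LaurentPolynomial.T s.1.1 : L)) := by
  classical
  intro j b h
  rw [finsetSum_coeff, AddMonoidAlgebra.coeff_sum, Finsupp.finsetSum_apply] at h
  obtain ⟨s, -, hs⟩ := Finset.exists_ne_zero_of_sum_ne_zero h
  simp only [coeff_smul, AddMonoidAlgebra.coeff_smul, Finsupp.smul_apply, mono_coeff,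
    smul_eq_mul] at hs
  have h1 : s.1.2 = j ∧ s.1.1 = b := by
    by_contra hn
    exact hs (by rw [if_neg hn, mul_zero])
  have h2 := Finset.mem_sigma.1 s.2
  rw [Finset.mem_range, h1.1, h1.2] at h2
  exact ⟨h2.1, Nat.zero_le _, by simpa using h2.2⟩

lemma sub_pow (η : ℂ) (b : ℤ) (i j K : ℕ) (hK : j ≤ K) :
    (C (algebraMap ℂ L 1) + C (algebraMap ℂ L η) * X) ^ j * monomial i (LaurentPolynomial.T b : L) =
      ∑ k ∈ Finset.range (K + 1),
        η ^ k • (j.choose k : ℂ) • monomial (i + k) (LaurentPolynomial.T b : L) := by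
  rw [map_one, map_one, add_comm, add_pow, Finset.sum_mul]
  refine Finset.sum_subset_zero_on_sdiff (Finset.range_mono (by omega)) (fun k hk => ?_)
    fun k _ => ?_
  · simp only [Finset.mem_sdiff, Finset.mem_range] at hk
    rw [Nat.choose_eq_zero_of_lt (by omega)]
    simp
  · rw [Algebra.smul_def, Algebra.smul_def, ← monomial_mul_X_pow, map_natCast, map_pow,
      Polynomial.algebraMap_apply, one_pow, mul_pow]
    ring

/-- passage to the normal cone of the leaf -/
theorem compress {ι : Type} {U : Finset ℤ} (lo : ℤ → ℕ) {len : ℤ → ℕ} (z : ι → ℂˣ) (u : ι → ℂ)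
    (m : ι → ℕ) (h : ∀ F, Col U 0 len F → (∀ l, F ∈ pt (z l) (u l) ^ m l) → F = 0) :
    ∃ σ : ι → ℂ, ∀ M, Col U lo len M → (∀ l, M ∈ pt (z l) (σ l) ^ m l) → M = 0 := by
  classical
  let I : Submodule ℂ B := (⨅ l, pt (z l) (u l) ^ m l : Ideal B).restrictScalars ℂ
  have hI : ∀ F, I.mkQ F = 0 ↔ ∀ l, F ∈ pt (z l) (u l) ^ m l := fun F => by
    rw [Submodule.mkQ_apply, Submodule.Quotient.mk_eq_zero, Submodule.restrictScalars_mem,
      Ideal.mem_iInf]
  obtain ⟨η, hη, hli⟩ := critB_open (fun (s : cells U len) k => I.mkQ (((lo s.1.1).choose k : ℂ) •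
      monomial (s.1.2 + k) (LaurentPolynomial.T s.1.1 : L))) (U.sup lo) (by
    refine Fintype.linearIndependent_iff.2 fun c hc s => ?_
    simp only [Nat.choose_zero_right, Nat.cast_one, one_smul, add_zero, ← map_smul,
      ← map_sum] at hc
    rw [← sum_col c s, h _ (sum_col' c) ((hI _).1 hc)]
    simp)
  refine ⟨fun l => 1 + η * u l, fun M hM hm => sub_inj (a := 1) hη ?_⟩
  let w : cells U len → B := fun s => (C (algebraMap ℂ L 1) + C (algebraMap ℂ L η) * X) ^ lo s.1.1 *
    monomial s.1.2 (LaurentPolynomial.T s.1.1 : L)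
  have hw : sub 1 η M ∈ Submodule.span ℂ (Set.range w) := by
    rw [col_sum hM, map_sum]
    refine Submodule.sum_mem _ fun s hs => ?_
    rw [show ∀ (c : ℂ) (x : B), sub 1 η (c • x) = c • sub 1 η x from fun c x =>
      ((sub 1 η).restrictScalars ℂ).toLinearMap.map_smul c x]
    refine Submodule.smul_mem _ _ ?_
    have h2 := Finset.mem_sigma.1 hs
    rw [Finset.mem_range] at h2
    have e : sub 1 η (monomial (lo s.1 + s.2) (LaurentPolynomial.T s.1 : L)) =
        (C (algebraMap ℂ L 1) + C (algebraMap ℂ L η) * X) ^ lo s.1 *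
          ((C (algebraMap ℂ L 1) + C (algebraMap ℂ L η) * X) ^ s.2 *
            monomial 0 (LaurentPolynomial.T s.1 : L)) := by
      rw [sub, aeval_monomial, pow_add, monomial_zero_left, algebraMap_eq]
      ring
    rw [e, sub_pow η s.1 0 s.2 s.2 le_rfl, Finset.mul_sum]
    refine Submodule.sum_mem _ fun k hk => ?_
    rw [mul_smul_comm, mul_smul_comm, zero_add]
    refine Submodule.smul_mem _ _ (Submodule.smul_mem _ _ (Submodule.subset_span
      ⟨⟨⟨s.1, k⟩, Finset.mem_sigma.2 ⟨h2.1, Finset.mem_range.2 ?_⟩⟩, rfl⟩))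
    rw [Finset.mem_range] at hk
    dsimp only
    omega
  obtain ⟨c, hc⟩ := (Submodule.mem_span_range_iff_exists_fun ℂ).1 hw
  have h0 := Fintype.linearIndependent_iff.1 hli c (by
    rw [← (hI _).2 fun l => sub_pt (z l) 1 η (u l) (m l) (hm l), ← hc, map_sum]
    refine Finset.sum_congr rfl fun s _ => ?_
    rw [map_smul]
    congr 1
    simp only [w]
    rw [sub_pow η _ _ _ _ (Finset.le_sup (f := lo) (Finset.mem_sigma.1 s.2).1), map_sum]
    simp only [map_smul])
  rw [← hc]
  exact Finset.sum_eq_zero fun s _ => by rw [h0 s, zero_smul]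

end Pool.Agent.Lib.MP_d03834_ag.Nag
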