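import Pool.Agent.Lib.MP_d03834_ag.Nag.CritB

/-! The two criteria on the numbers of long columns. -/

set_option autoImplicit false

namespace Pool.Agent.Lib.MP_d03834_ag.Nag

open Polynomial

lemma critC_tay (z : ℂˣ) (u : ℂ) (m : ℕ) {M : B} (h : M ∈ pt z u ^ m) (i : ℕ) :
    (taylor (algebraMap ℂ L u) M).coeff i ∈ RingHom.ker (evL z) ^ (m - i) := by
  have h1 := tay z m (sub_pt z (u - 1) 1 1 m (M := M) (by simpa using h)) i
  have e : taylor 1 (sub (u - 1) 1 M) = taylor (algebraMap ℂ L u) M := by
    have : (taylorAlgHom (1 : L)).comp (sub (u - 1) 1) = taylorAlgHom (algebraMap ℂ L u) := by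
      refine Polynomial.algHom_ext ?_
      simp only [sub, AlgHom.comp_apply, aeval_X, map_add, map_mul, map_one, map_sub, one_mul,
        taylorAlgHom_apply, taylor_X, taylor_C]
      ring
    exact AlgHom.congr_fun this M
  rwa [e] at h1

lemma critC_coeff (r : L) (F : B) (i K : ℕ) (hK : ∀ j, K ≤ j → F.coeff j = 0) :
    (taylor r F).coeff i = ∑ j ∈ Finset.range K, F.coeff j * (r ^ (j - i) * (j.choose i : L)) := by
  have e : F = ∑ j ∈ Finset.range K, monomial j (F.coeff j) := by
    ext1 j
    rw [finsetSum_coeff]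
    simp only [coeff_monomial, Finset.sum_ite_eq', Finset.mem_range]
    split_ifs with h
    · rfl
    · exact hK j (not_lt.1 h)
  conv_lhs => rw [e]
  rw [map_sum, finsetSum_coeff]
  exact Finset.sum_congr rfl fun j _ => by rw [taylor_monomial, coeff_C_mul, coeff_X_add_C_pow]

lemma critC_top (r : L) (F : B) (i : ℕ) (hK : ∀ j, i < j → F.coeff j = 0) :
    (taylor r F).coeff i = F.coeff i := by
  rw [critC_coeff r F i (i + 1) hK, Finset.sum_range_succ, Finset.sum_eq_zero]
  · simp
  · intro j hj
    rw [Nat.choose_eq_zero_of_lt (Finset.mem_range.1 hj)]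
    simp

lemma critC_sup {U : Finset ℤ} {len : ℤ → ℕ} {F : B} (h : Col U 0 len F) (i : ℕ) (b : ℤ)
    (hb : (F.coeff i).coeff b ≠ 0) : b ∈ U.filter fun b => i < len b :=
  Finset.mem_filter.2 ⟨(h i b hb).1, by simpa using (h i b hb).2.2⟩

lemma critC_zero {U : Finset ℤ} {len : ℤ → ℕ} {F : B} (h : Col U 0 len F) {k : ℕ}
    (h0 : hh U len k = 0) (j : ℕ) (hj : k ≤ j) : F.coeff j = 0 := by
  ext b
  by_contra hb
  have := Finset.mem_filter.1 (critC_sup h j b hb)
  have h2 : b ∈ U.filter fun b => k < len b := Finset.mem_filter.2 ⟨this.1, by omega⟩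
  rw [hh, Finset.card_eq_zero] at h0
  simp [h0] at h2

lemma critC_tip {n m c T : ℕ} (hc : c ≤ n) (hT : T ≤ m) {U : Finset ℤ} {len : ℤ → ℕ}
    (h0 : hh U len (m + 1) = 0) (h1 : ∀ i < m, hh U len i ≤ n * (m - i))
    (h2 : ∀ t, 1 ≤ t → t ≤ T → hh U len (m - t) + c ≤ n * t) (h3 : hh U len m ≤ c * T)
    (F : B) (hF : Col U 0 len F)
    (hm : ∀ l : Fin n, F ∈ pt (zz l) (if (l : ℕ) < c then 1 else 0) ^ m) : F = 0 := by
  have hcard : ∑ l : Fin n, (if (l : ℕ) < c then 1 else 0) = c := by
    rw [Fin.sum_univ_eq_sum_range (fun l => if l < c then 1 else 0) n, ← Finset.card_filter]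
    have : (Finset.range n).filter (fun l => l < c) = Finset.range c := by
      ext l
      simp only [Finset.mem_filter, Finset.mem_range]
      omega
    rw [this, Finset.card_range]
  have hz := critC_zero hF h0
  have key : ∀ t ≤ T, (∀ j, m - t ≤ j → j < m → F.coeff j = 0) ∧
      ∀ l : Fin n, (l : ℕ) < c → F.coeff m ∈ RingHom.ker (evL (zz l)) ^ t := by
    intro t
    induction t with
    | zero => exact fun _ => ⟨fun j a b => by omega, fun l _ => by simp⟩
    | succ t ih =>
      intro ht
      obtain ⟨i1, i2⟩ := ih (by omega)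
      have e : ∀ l : Fin n, (l : ℕ) < c → F.coeff (m - (t + 1)) +
          F.coeff m * (m.choose (m - (t + 1)) : L) ∈ RingHom.ker (evL (zz l)) ^ (t + 1) := by
        intro l hl
        have := critC_tay _ _ m (hm l) (m - (t + 1))
        rw [if_pos hl, map_one, critC_coeff 1 F _ (m + 1) hz,
          Finset.sum_eq_add_of_mem (m - (t + 1)) m (by simp) (by simp) (by omega),
          show m - (m - (t + 1)) = t + 1 by omega] at this
        · simpa using this
        · intro j hj hne
          rw [Finset.mem_range] at hj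
          by_cases hlt : j < m - (t + 1)
          · rw [Nat.choose_eq_zero_of_lt hlt]
            simp
          · rw [i1 j (by omega) (by omega), zero_mul]
      have e0 : F.coeff (m - (t + 1)) = 0 := by
        refine desc (fun l : Fin n => if (l : ℕ) < c then t else t + 1) (critC_sup hF _)
          (fun l => ?_) ?_
        · split_ifs with hl
          · have := Ideal.sub_mem _ (Ideal.pow_le_pow_right (Nat.le_succ t) (e l hl))
              (Ideal.mul_mem_right (m.choose (m - (t + 1)) : L) _ (i2 l hl))
            rwa [add_sub_cancel_right] at this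
          · have := critC_tay _ _ m (hm l) (m - (t + 1))
            rwa [if_neg hl, map_zero, taylor_zero, show m - (m - (t + 1)) = t + 1 by omega] at this
        · have a1 := h2 (t + 1) (by omega) ht
          have a2 : ∑ l : Fin n, (if (l : ℕ) < c then t else t + 1) +
              ∑ l : Fin n, (if (l : ℕ) < c then 1 else 0) = n * (t + 1) := by
            rw [← Finset.sum_add_distrib, Finset.sum_congr rfl (g := fun _ => t + 1)
              fun l _ => by split_ifs <;> rfl]
            simp
          rw [hh] at a1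
          omega
      refine ⟨fun j a b => ?_, fun l hl => ?_⟩
      · by_cases hj : j = m - (t + 1)
        · rw [hj, e0]
        · exact i1 j (by omega) b
      · have a1 := e l hl
        rw [e0, zero_add] at a1
        have a2 : (m.choose (m - (t + 1)) : ℂ) ≠ 0 :=
          Nat.cast_ne_zero.2 (Nat.choose_pos (by omega)).ne'
        have := Ideal.mul_mem_right (algebraMap ℂ L (m.choose (m - (t + 1)) : ℂ)⁻¹) _ a1
        rwa [mul_assoc, ← map_natCast (algebraMap ℂ L), ← map_mul, mul_inv_cancel₀ a2, map_one,
          mul_one] at this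
  have hR : F.coeff m = 0 := by
    refine desc (fun l : Fin n => if (l : ℕ) < c then T else 0) (critC_sup hF _) (fun l => ?_) ?_
    · split_ifs with hl
      · exact (key T le_rfl).2 l hl
      · simp
    · have : ∑ l : Fin n, (if (l : ℕ) < c then T else 0) =
          (∑ l : Fin n, (if (l : ℕ) < c then 1 else 0)) * T := by
        rw [Finset.sum_mul]
        exact Finset.sum_congr rfl fun l _ => by split_ifs <;> simp
      rw [this, hcard]
      exact h3
  have down : ∀ t ≤ m, ∀ j, m - t ≤ j → F.coeff j = 0 := by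
    intro t
    induction t with
    | zero =>
      intro _ j hj
      by_cases e : j = m
      · rw [e, hR]
      · exact hz j (by omega)
    | succ t ih =>
      intro ht j hj
      by_cases e : j = m - (t + 1)
      · refine desc (fun _ : Fin n => m - j) (critC_sup hF _) (fun l => ?_) ?_
        · have := critC_tay _ _ m (hm l) j
          rwa [critC_top _ F j fun j' hj' => ih (by omega) j' (by omega)] at this
        · simpa [hh] using h1 j (by omega)
      · exact ih (by omega) j (by omega)
  ext1 j
  exact down m le_rfl j (by omega)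

/-- criterion for emptiness -/
theorem crit_empty {n m c T : ℕ} (hc : c ≤ n) (hT : T ≤ m) {U : Finset ℤ} (lo : ℤ → ℕ)
    {len : ℤ → ℕ} (h0 : hh U len (m + 1) = 0) (h1 : ∀ i < m, hh U len i ≤ n * (m - i))
    (h2 : ∀ t, 1 ≤ t → t ≤ T → hh U len (m - t) + c ≤ n * t) (h3 : hh U len m ≤ c * T) :
    ∃ (z : Fin n → ℂˣ) (σ : Fin n → ℂ),
      ∀ M, Col U lo len M → (∀ l, M ∈ pt (z l) (σ l) ^ m) → M = 0 :=
  ⟨zz, compress lo zz _ (fun _ => m) (critC_tip hc hT h0 h1 h2 h3)⟩

end Pool.Agent.Lib.MP_d03834_ag.Nag
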