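import Mathlib

/-! Definitions for the degeneration of the plane along a Tate cubic. -/

set_option autoImplicit false

namespace Pool.Agent.Lib.MP_d03834_ag.Nag

open MvPolynomial

/-- Laurent polynomials in y -/
abbrev L : Type := LaurentPolynomial ℂ
/-- power series in t -/
abbrev O : Type := PowerSeries ℂ
/-- power series in t over Laurent polynomials in y -/
abbrev R : Type := PowerSeries L
/-- polynomials in s over Laurent polynomials in y -/
abbrev B : Type := Polynomial L
/-- polynomials in eps over power series in t -/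
abbrev A : Type := Polynomial O

/-- coefficient of y ^ b * t ^ e -/
noncomputable def cz (f : R) (b e : ℤ) : ℂ :=
  if 0 ≤ e then (PowerSeries.coeff e.toNat f).coeff b else 0

/-- theta series of degree r -/
def Th (N r a : ℤ) (f : R) : Prop := ∀ b e : ℤ, cz f (b + r) (e + N * b + a) = cz f b e

/-- all exponents of y are congruent to k modulo 3 -/
def Cl (k : ℤ) (f : R) : Prop := ∀ b e : ℤ, cz f b e ≠ 0 → (3 : ℤ) ∣ b - k

/-- a parametrised cubic -/
structure Data (N a : ℤ) (φ : Fin 3 → R) (c : MvPolynomial (Fin 3) O) (w : R) : Prop where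
  th : ∀ i, Th N 3 a (φ i)
  hom : c.IsHomogeneous 3
  zero : aeval φ c = 0
  der : aeval φ (pderiv 1 c) * w = 1
  unit : IsUnit (φ 2)
  ker : ∀ (D : ℕ) (G : MvPolynomial (Fin 3) O), G.IsHomogeneous D → aeval φ G = 0 → c ∣ G

/-- the cubic in the variables theta 1, theta 0, theta 2 -/
noncomputable def cub (α β γ : O) : MvPolynomial (Fin 3) O :=
  X 0 * X 1 * X 2 - C α * X 1 ^ 3 - C β * X 0 ^ 3 - C γ * X 2 ^ 3

/-- evaluation of a Laurent polynomial -/
noncomputable def evL (z : ℂˣ) : L →+* ℂ := LaurentPolynomial.eval₂ (RingHom.id ℂ) z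

/-- the ideal of the point y = z, s = σ -/
noncomputable def pt (z : ℂˣ) (σ : ℂ) : Ideal B :=
  RingHom.ker (Polynomial.eval₂RingHom (evL z) σ)

/-- support in the triangle of degree d and slope a / N -/
def Sup (N a : ℤ) (d : ℕ) (M : B) : Prop :=
  ∀ (j : ℕ) (b : ℤ), (M.coeff j).coeff b ≠ 0 →
    3 * j ≤ d ∧ -(a * (d - 3 * j)) ≤ N * b ∧ N * b ≤ (3 * N - a) * (d - 3 * j)

/-- the homogeneous ideal of an affine point -/
noncomputable def hid {K : Type*} [CommRing K] (p : Fin 2 → K) : Ideal (MvPolynomial (Fin 3) K) :=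
  Ideal.span ({X 0 - C (p 0) * X 2, X 1 - C (p 1) * X 2} : Set (MvPolynomial (Fin 3) K))

/-- substitution of phi + eps * s * w * e1; the outer variable is eps, the inner one is s -/
noncomputable def Psi (φ : Fin 3 → R) (w : R) :
    MvPolynomial (Fin 3) A →+* Polynomial (Polynomial R) :=
  eval₂Hom (Polynomial.mapRingHom (Polynomial.C.comp (algebraMap O R)))
    ![Polynomial.C (Polynomial.C (φ 0)),
      Polynomial.C (Polynomial.C (φ 1)) + Polynomial.X * Polynomial.C (Polynomial.X * Polynomial.C w),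
      Polynomial.C (Polynomial.C (φ 2))]

/-- coefficient of t ^ e -/
noncomputable def co (e : ℕ) (M : Polynomial R) : B :=
  M.sum fun j a => Polynomial.monomial j (PowerSeries.coeff e a)

/-- no curve of degree d with the multiplicities m at general points -/
def Emp {ι : Type} (d : ℕ) (m : ι → ℕ) : Prop :=
  ∃ G : MvPolynomial (ι × Fin 2) ℂ, G ≠ 0 ∧ ∀ P : ι → Fin 2 → ℂ,
    eval (fun ij : ι × Fin 2 => P ij.1 ij.2) G ≠ 0 →
      ∀ F : MvPolynomial (Fin 3) ℂ, F.IsHomogeneous d → (∀ l, F ∈ hid (P l) ^ m l) → F = 0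

end Pool.Agent.Lib.MP_d03834_ag.Nag
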