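import Pool.Agent.Lib.MP_d03834_ag.Nag.Defs

/-! A row that contributes to the lowest Taylor coefficient of order i has length at least i. -/

set_option autoImplicit false

namespace Pool.Agent.Lib.MP_d03834_ag.Nag

open MvPolynomial

/-- the row of exponent b -/
noncomputable def rowP (b : ℤ) (M : B) : Polynomial ℂ :=
  M.sum fun j a => Polynomial.monomial j (a.coeff b)

lemma row_coeff (b : ℤ) (M : B) (j : ℕ) : (rowP b M).coeff j = (M.coeff j).coeff b := by
  rw [rowP, Polynomial.sum_def, Polynomial.finsetSum_coeff, Finset.sum_eq_single j]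
  · simp
  · intro k _ hk
    simp [Polynomial.coeff_monomial, hk]
  · intro h
    simp [Polynomial.notMem_support_iff.1 h]

lemma row_add (b : ℤ) (M M' : B) : rowP b (M + M') = rowP b M + rowP b M' := by
  ext j
  simp [row_coeff]

lemma row_taylor (b : ℤ) (M : B) (k : ℕ) :
    (Polynomial.taylor 1 (rowP b M)).coeff k = ((Polynomial.taylor 1 M).coeff k).coeff b := by
  induction M using Polynomial.induction_on' with
  | add p q hp hq => simp [row_add, hp, hq]
  | monomial j a =>
    have e : rowP b (Polynomial.monomial j a) = Polynomial.monomial j (a.coeff b) := by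
      ext i
      rw [row_coeff, Polynomial.coeff_monomial, Polynomial.coeff_monomial]
      split_ifs <;> simp
    rw [e, Polynomial.taylor_monomial, Polynomial.taylor_monomial, Polynomial.coeff_C_mul,
      Polynomial.coeff_C_mul, Polynomial.coeff_X_add_C_pow, Polynomial.coeff_X_add_C_pow,
      one_pow, one_pow, one_mul, one_mul, mul_comm a, ← nsmul_eq_mul, mul_comm, ← nsmul_eq_mul,
      AddMonoidAlgebra.coeff_smul, Finsupp.smul_apply]

theorem row {M : B} {i : ℕ} (h : ∀ i' < i, (Polynomial.taylor 1 M).coeff i' = 0) {b : ℤ}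
    (hb : ((Polynomial.taylor 1 M).coeff i).coeff b ≠ 0) :
    ∃ j j' : ℕ, j + i ≤ j' ∧ (M.coeff j).coeff b ≠ 0 ∧ (M.coeff j').coeff b ≠ 0 := by
  have h0 : rowP b M ≠ 0 := by
    intro e
    rw [← row_taylor, e] at hb
    simp at hb
  obtain ⟨q, hq⟩ : Polynomial.X ^ i ∣ Polynomial.taylor 1 (rowP b M) :=
    Polynomial.X_pow_dvd_iff.2 fun k hk => by rw [row_taylor, h k hk]; simp
  have e : rowP b M = (Polynomial.X + Polynomial.C (-1)) ^ i * Polynomial.taylor (-1) q := by
    have := congrArg (Polynomial.taylor (-1 : ℂ)) hq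
    rwa [Polynomial.taylor_taylor, neg_add_cancel, Polynomial.taylor_zero', LinearMap.id_apply,
      Polynomial.taylor_mul, Polynomial.taylor_pow, Polynomial.taylor_X] at this
  generalize Polynomial.taylor (-1) q = r at e
  have hr : r ≠ 0 := by
    rintro rfl
    exact h0 (by rw [e, mul_zero])
  have hp : ((Polynomial.X + Polynomial.C (-1) : Polynomial ℂ) ^ i) ≠ 0 :=
    pow_ne_zero _ (Polynomial.X_add_C_ne_zero _)
  have t0 : ((Polynomial.X + Polynomial.C (-1) : Polynomial ℂ) ^ i).natTrailingDegree = 0 := by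
    refine Polynomial.natTrailingDegree_eq_zero.2 (Or.inr ?_)
    rw [Polynomial.coeff_X_add_C_pow]
    simp
  refine ⟨(rowP b M).natTrailingDegree, (rowP b M).natDegree, ?_, ?_, ?_⟩
  · rw [e, Polynomial.natTrailingDegree_mul hp hr, Polynomial.natDegree_mul hp hr, t0,
      Polynomial.natDegree_pow, Polynomial.natDegree_X_add_C]
    have := Polynomial.natTrailingDegree_le_natDegree r
    omega
  · rw [← row_coeff]
    exact Polynomial.trailingCoeff_nonzero_iff_nonzero.2 h0
  · rw [← row_coeff]
    exact Polynomial.leadingCoeff_ne_zero.2 h0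

end Pool.Agent.Lib.MP_d03834_ag.Nag
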