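import Pool.Agent.Lib.MP_d03834_ag.Nag.Tay
import Pool.Agent.Lib.MP_d03834_ag.Nag.Row

/-! No Laurent polynomial supported in the triangle has multiplicity m at n points of the leaf. -/

set_option autoImplicit false

namespace Pool.Agent.Lib.MP_d03834_ag.Nag

open MvPolynomial

lemma peel_row {d : ℕ} {N a : ℤ} (hN : 0 < N) (h3 : 3 * N ≤ a) {M : B} (hS : Sup N a d M)
    {i : ℕ} {b : ℤ}
    (h : ∃ j j' : ℕ, j + i ≤ j' ∧ (M.coeff j).coeff b ≠ 0 ∧ (M.coeff j').coeff b ≠ 0) :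
    -(a * (d - 3 * i)) ≤ N * b ∧ N * (N * b) ≤ (3 * N - a) * (a * i) := by
  obtain ⟨j, j', hj, h1, h2⟩ := h
  obtain ⟨-, -, a2⟩ := hS j b h1
  obtain ⟨b0, b1, -⟩ := hS j' b h2
  have hj' : (j : ℤ) + i ≤ j' := by exact_mod_cast hj
  have b0' : 3 * (j' : ℤ) ≤ d := by exact_mod_cast b0
  have hj0 : (0 : ℤ) ≤ j := Int.natCast_nonneg j
  have ha : 0 < a := by omega
  refine ⟨by nlinarith, ?_⟩
  have e1 : N * b ≤ (3 * N - a) * (d - 3 * j' + 3 * i) := by nlinarith
  have e2 : a * (N * b) ≤ a * ((3 * N - a) * (d - 3 * j' + 3 * i)) :=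
    mul_le_mul_of_nonneg_left e1 ha.le
  have e3 : (a - 3 * N) * -(a * (d - 3 * j')) ≤ (a - 3 * N) * (N * b) :=
    mul_le_mul_of_nonneg_left b1 (by omega)
  nlinarith

theorem peel {n m d : ℕ} {N a : ℤ} (hN : 0 < N) (h3 : 3 * N ≤ a) (h1 : N * d < a * m)
    (h2 : a * d < N * n * m) {z : Fin n → ℂˣ} (hz : Function.Injective z) {M : B}
    (hS : Sup N a d M) (hM : ∀ l, M ∈ pt (z l) 1 ^ m) : M = 0 := by
  by_contra h0
  have hT : Polynomial.taylor 1 M ≠ 0 := fun e => h0 (Polynomial.taylor_injective 1 (by simpa using e))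
  have hlow : ∀ i' < (Polynomial.taylor 1 M).natTrailingDegree,
      (Polynomial.taylor 1 M).coeff i' = 0 := fun _ h =>
    Polynomial.coeff_eq_zero_of_lt_natTrailingDegree h
  have hne : (Polynomial.taylor 1 M).coeff (Polynomial.taylor 1 M).natTrailingDegree ≠ 0 :=
    Polynomial.trailingCoeff_nonzero_iff_nonzero.2 hT
  generalize (Polynomial.taylor 1 M).natTrailingDegree = i at hlow hne
  obtain ⟨b, b', hb, hb', hbb⟩ := zeros hz (m - i) hne fun l => tay (z l) m (hM l) i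
  obtain ⟨r1, -⟩ := peel_row hN h3 hS (row hlow hb)
  obtain ⟨-, r2⟩ := peel_row hN h3 hS (row hlow hb')
  have ha : 0 < a := by omega
  have key : N * N * (n * ((m - i : ℕ) : ℤ)) ≤ N * a * d - a * a * i := by
    have e1 : N * -(a * (d - 3 * i)) ≤ N * (N * b) := mul_le_mul_of_nonneg_left r1 hN.le
    have e2 : N * N * (b + n * ((m - i : ℕ) : ℤ)) ≤ N * N * b' :=
      mul_le_mul_of_nonneg_left hbb (by positivity)
    nlinarith
  have hi0 : (0 : ℤ) ≤ i := Int.natCast_nonneg i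
  have hd0 : (0 : ℤ) ≤ d := Int.natCast_nonneg d
  have hn0 : (0 : ℤ) ≤ n := Int.natCast_nonneg n
  have f1 : 0 < a * (a * m - N * d) := mul_pos ha (by omega)
  by_cases him : m ≤ i
  · have : (m : ℤ) ≤ i := by exact_mod_cast him
    rw [Nat.sub_eq_zero_of_le him] at key
    have : a * a * m ≤ a * a * i := mul_le_mul_of_nonneg_left this (by positivity)
    simp only [Nat.cast_zero, mul_zero] at key
    nlinarith
  · have hlt : (i : ℤ) < m := by exact_mod_cast not_le.1 him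
    rw [Nat.cast_sub (not_le.1 him).le] at key
    have f2 : 0 < N * (N * n * m - a * d) := mul_pos hN (by omega)
    have g1 : 0 < ((m : ℤ) - i) * (N * (N * n * m - a * d)) := mul_pos (by omega) f2
    have g2 : 0 ≤ (i : ℤ) * (a * (a * m - N * d)) := mul_nonneg hi0 f1.le
    have g3 : (m : ℤ) * (N * N * (n * (m - i))) ≤ m * (N * a * d - a * a * i) :=
      mul_le_mul_of_nonneg_left key (by omega)
    nlinarith

end Pool.Agent.Lib.MP_d03834_ag.Nag
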