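import Pool.Agent.Lib.MP_d03834_ag.Nag.Defs
import Pool.Agent.Lib.MP_d03834_ag.Final

set_option autoImplicit false

namespace Pool.Agent.Lib.MP_d03834_ag.Nag

open MvPolynomial

lemma Sq_root {n m d : ℕ} (hm : 0 < m) (h : d ^ 2 = n * m ^ 2) : ∃ k, d = k * m ∧ n = k ^ 2 := by
  have h1 : m ^ 2 ∣ d ^ 2 := ⟨n, by rw [h, mul_comm]⟩
  obtain ⟨k, rfl⟩ := (Nat.pow_dvd_pow_iff (by norm_num : 2 ≠ 0)).1 h1
  refine ⟨k, mul_comm _ _, ?_⟩
  have h2 : k ^ 2 * m ^ 2 = n * m ^ 2 := by rw [← h]; ring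
  exact (Nat.eq_of_mul_eq_mul_right (by positivity) h2).symm

/-- the square case d ^ 2 = n m ^ 2 from the theorem squares -/
theorem nagata_eq {n m d : ℕ} (hn : 9 < n) (hm : 0 < m) (h : d ^ 2 = n * m ^ 2) :
    Emp d fun _ : Fin n => m := by
  obtain ⟨k, rfl, rfl⟩ := Sq_root hm h
  have hk : 4 ≤ k := by
    by_contra hk
    have : k ≤ 3 := by omega
    nlinarith
  have hW : Win m (k ^ 2) 0 := ⟨by simpa using squares hm k, by simpa using squares hm k⟩
  have hT : T (k * m + 1) ≤ k ^ 2 * T m := by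
    have h1 := two_T (k * m + 1)
    have h2 := two_T m
    have h3 : 2 * (k ^ 2 * T m) = k ^ 2 * (m * (m + 1)) := by rw [← h2]; ring
    have h4 : 4 * (k * m) ≤ k * (k * m) := Nat.mul_le_mul_right _ hk
    have h5 : 4 * 1 ≤ k * m := Nat.mul_le_mul hk hm
    nlinarith
  obtain ⟨G, hG, hP⟩ := win_final hW
  refine ⟨G, hG, fun P hPG F hF hI => ?_⟩
  have h0 := hP P hPG (k * m) (Or.inl (by omega))
  rw [choose_eq_T, choose_eq_T, Nat.sub_eq_zero_of_le hT] at h0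
  have : FiniteDimensional ℂ (homogeneousSubmodule (Fin 3) ℂ (k * m)) :=
    Module.Finite.iff_fg.2 (homogeneousSubmodule_fg _ _ _)
  have : FiniteDimensional ℂ ↥(homogeneousSubmodule (Fin 3) ℂ (k * m) ⊓
      Submodule.restrictScalars ℂ (⨅ i : Fin (k ^ 2), H19.hid (P i) ^ m)) :=
    Submodule.finiteDimensional_of_le inf_le_left
  rw [Submodule.finrank_eq_zero] at h0
  have : F ∈ homogeneousSubmodule (Fin 3) ℂ (k * m) ⊓
      Submodule.restrictScalars ℂ (⨅ i : Fin (k ^ 2), H19.hid (P i) ^ m) := by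
    refine ⟨hF, ?_⟩
    rw [SetLike.mem_coe, Submodule.restrictScalars_mem, Submodule.mem_iInf]
    exact hI
  rw [h0] at this
  exact this

end Pool.Agent.Lib.MP_d03834_ag.Nag
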