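import Pool.Agent.Lib.MP_d03834_ag.Nag.Transfer
import Pool.Agent.Lib.MP_d03834_ag.Nag.Peel
import Pool.Agent.Lib.MP_d03834_ag.Nag.Sq

set_option autoImplicit false

namespace Pool.Agent.Lib.MP_d03834_ag.Nag

open MvPolynomial

theorem Final_pts (n : ℕ) : ∃ z : Fin n → ℂˣ, Function.Injective z := by
  refine ⟨fun l => Units.mk0 ((l : ℕ) + 1 : ℂ) (Nat.cast_add_one_ne_zero _), fun l l' h => ?_⟩
  have h1 := congrArg (fun u : ℂˣ => (u : ℂ)) h
  simp only [Units.val_mk0, add_left_inj, Nat.cast_inj] at h1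
  exact Fin.ext h1

theorem nagata_lt {n m d : ℕ} (hn : 9 < n) (hm : 0 < m) (h : d ^ 2 < n * m ^ 2) :
    Emp d fun _ : Fin n => m := by
  obtain ⟨z, hz⟩ := Final_pts n
  have hn' : (10 : ℤ) ≤ n := by exact_mod_cast hn
  have hm' : (1 : ℤ) ≤ m := by exact_mod_cast hm
  have h' : (d : ℤ) ^ 2 + 1 ≤ n * m ^ 2 := by exact_mod_cast h
  rcases le_or_gt d (3 * m) with hd | hd
  · have hd' : (d : ℤ) ≤ 3 * m := by exact_mod_cast hd
    refine transfer (N := 4) (a := 13) (by norm_num) (by norm_num) d _ z (fun _ => 1)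
      fun M hS hM => peel (by norm_num) (by norm_num) ?_ ?_ hz hS hM
    · linarith
    · nlinarith
  · have hd' : 3 * (m : ℤ) < d := by exact_mod_cast hd
    refine transfer (N := 2 * d * m) (a := 2 * d ^ 2 + 1) (by nlinarith) ?_ d _ z (fun _ => 1)
      fun M hS hM => peel (by nlinarith) (by nlinarith) ?_ ?_ hz hS hM
    · rintro ⟨k, hk⟩
      have h2 : (2 : ℤ) * (d * m * k - d ^ 2) = 1 := by linarith
      omega
    · nlinarith
    · have h0 : (0 : ℤ) < d := by linarith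
      have h3 : (d : ℤ) * (2 * d ^ 2 + 1) < d * (2 * (n * m ^ 2)) :=
        mul_lt_mul_of_pos_left (by linarith) h0
      nlinarith

theorem nagata_all {n m : ℕ} (hn : 9 < n) (hm : 0 < m) :
    ∃ G : MvPolynomial (Fin n × Fin 2) ℂ, G ≠ 0 ∧ ∀ P : Fin n → Fin 2 → ℂ,
      eval (fun ij : Fin n × Fin 2 => P ij.1 ij.2) G ≠ 0 → ∀ d : ℕ, d ^ 2 ≤ n * m ^ 2 →
        ∀ F : MvPolynomial (Fin 3) ℂ, F.IsHomogeneous d → (∀ l, F ∈ hid (P l) ^ m) → F = 0 := by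
  classical
  have key : ∀ d : ℕ, ∃ G : MvPolynomial (Fin n × Fin 2) ℂ, G ≠ 0 ∧ (d ^ 2 ≤ n * m ^ 2 →
      ∀ P : Fin n → Fin 2 → ℂ, eval (fun ij : Fin n × Fin 2 => P ij.1 ij.2) G ≠ 0 →
        ∀ F : MvPolynomial (Fin 3) ℂ, F.IsHomogeneous d → (∀ l, F ∈ hid (P l) ^ m) → F = 0) := by
    intro d
    rcases lt_trichotomy (d ^ 2) (n * m ^ 2) with h | h | h
    · obtain ⟨G, h0, hG⟩ := nagata_lt hn hm h
      exact ⟨G, h0, fun _ => hG⟩
    · obtain ⟨G, h0, hG⟩ := nagata_eq hn hm h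
      exact ⟨G, h0, fun _ => hG⟩
    · exact ⟨1, one_ne_zero, fun h' => absurd h' (by omega)⟩
  choose G h0 hG using key
  refine ⟨∏ d ∈ Finset.range (n * m ^ 2 + 1), G d, Finset.prod_ne_zero_iff.2 fun d _ => h0 d,
    fun P hP d hd => hG d hd P ?_⟩
  rw [map_prod] at hP
  refine Finset.prod_ne_zero_iff.1 hP d (Finset.mem_range.2 ?_)
  have : d ≤ d ^ 2 := Nat.le_self_pow (by norm_num) d
  omega

end Pool.Agent.Lib.MP_d03834_ag.Nag
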