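import Pool.Agent.Lib.MP_d03834_ag.Nag.Defs

set_option autoImplicit false

namespace Pool.Agent.Lib.MP_d03834_ag.Nag

open MvPolynomial

theorem Inj_coeff {θ0 θ2 : R} (h0 : PowerSeries.constantCoeff θ0 = 1)
    (h2 : PowerSeries.constantCoeff θ2 = LaurentPolynomial.T 2) (G : MvPolynomial (Fin 2) O)
    (v : Fin 2 →₀ ℕ) :
    (PowerSeries.constantCoeff ((aeval ![Polynomial.X * Polynomial.C θ0,
      Polynomial.X * Polynomial.C θ2] G : Polynomial R).coeff (v 0 + v 1))).coeff (2 * (v 1 : ℤ)) =
      PowerSeries.constantCoeff (G.coeff v) := by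
  classical
  induction G using MvPolynomial.induction_on' with
  | add p q hp hq =>
    rw [map_add, Polynomial.coeff_add, map_add, coeff_add, map_add, ← hp, ← hq]
    simp
  | monomial u o =>
    have h1 : (aeval ![Polynomial.X * Polynomial.C θ0, Polynomial.X * Polynomial.C θ2]
        (monomial u o) : Polynomial R) =
        Polynomial.monomial (u 0 + u 1) (algebraMap O R o * θ0 ^ u 0 * θ2 ^ u 1) := by
      rw [aeval_monomial, Finsupp.prod_fintype _ _ (by simp), Fin.prod_univ_two,
        ← Polynomial.C_mul_X_pow_eq_monomial, Polynomial.algebraMap_apply]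
      simp only [Matrix.cons_val_zero, Matrix.cons_val_one, map_mul, map_pow]
      ring
    have h3 : PowerSeries.constantCoeff (algebraMap O R o) =
        LaurentPolynomial.C (PowerSeries.constantCoeff o) := rfl
    have h7 : PowerSeries.constantCoeff (algebraMap O R o * θ0 ^ u 0 * θ2 ^ u 1) =
        AddMonoidAlgebra.single ((u 1 : ℤ) * 2) (PowerSeries.constantCoeff o) := by
      rw [map_mul, map_mul, map_pow, map_pow, h0, h2, h3, one_pow, mul_one,
        LaurentPolynomial.T_pow, ← LaurentPolynomial.single_eq_C_mul_T]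
    rw [h1, Polynomial.coeff_monomial, coeff_monomial]
    by_cases huv : u = v
    · subst huv
      rw [if_pos rfl, if_pos rfl, h7, mul_comm]
      simp [-LaurentPolynomial.single_eq_C_mul_T]
    · rw [if_neg huv]
      split_ifs with h4
      · have h5 : u 1 ≠ v 1 := by
          intro h5
          apply huv
          ext i
          fin_cases i
          · simp only [Fin.zero_eta]
            omega
          · exact h5
        rw [h7]
        have h6 : (2 * (v 1 : ℤ)) ≠ u 1 * 2 := by omega
        simp [-LaurentPolynomial.single_eq_C_mul_T, Finsupp.single_eq_of_ne h6]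
      · simp

theorem inj_two {θ0 θ2 : R} (h0 : PowerSeries.constantCoeff θ0 = 1)
    (h2 : PowerSeries.constantCoeff θ2 = LaurentPolynomial.T 2) :
    Function.Injective (aeval ![Polynomial.X * Polynomial.C θ0, Polynomial.X * Polynomial.C θ2] :
      MvPolynomial (Fin 2) O →ₐ[O] Polynomial R) := by
  rw [injective_iff_map_eq_zero]
  have key : ∀ (e : ℕ) (G : MvPolynomial (Fin 2) O), (aeval ![Polynomial.X * Polynomial.C θ0,
      Polynomial.X * Polynomial.C θ2] G : Polynomial R) = 0 →
      ∀ v, PowerSeries.coeff e (G.coeff v) = 0 := by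
    have base : ∀ G : MvPolynomial (Fin 2) O, (aeval ![Polynomial.X * Polynomial.C θ0,
        Polynomial.X * Polynomial.C θ2] G : Polynomial R) = 0 →
        ∀ v, PowerSeries.constantCoeff (G.coeff v) = 0 := by
      intro G hG v
      rw [← Inj_coeff h0 h2 G v, hG]
      simp
    intro e
    induction e with
    | zero =>
      intro G hG v
      rw [PowerSeries.coeff_zero_eq_constantCoeff_apply, base G hG v]
    | succ e ih =>
      intro G hG v
      obtain ⟨G', rfl⟩ : C (PowerSeries.X : O) ∣ G :=
        (C_dvd_iff_dvd_coeff _ _).2 fun u => PowerSeries.X_dvd_iff.2 (base G hG u)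
      rw [map_mul, aeval_C, mul_eq_zero] at hG
      rw [coeff_C_mul, PowerSeries.coeff_succ_X_mul]
      refine ih G' (hG.resolve_left ?_) v
      have h3 : algebraMap O R PowerSeries.X = PowerSeries.map (algebraMap ℂ L) PowerSeries.X := rfl
      rw [Polynomial.algebraMap_apply, Polynomial.C_eq_zero, h3, PowerSeries.map_X]
      exact PowerSeries.X_ne_zero
  intro G hG
  ext v e
  rw [key e G hG v]
  simp

end Pool.Agent.Lib.MP_d03834_ag.Nag
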