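import Pool.Agent.Lib.MP_d03834_ag.Nag.Defs

/-! Taylor coefficients along the leaf, and the number of zeros of a Laurent polynomial. -/

set_option autoImplicit false

namespace Pool.Agent.Lib.MP_d03834_ag.Nag

open MvPolynomial

theorem tay (z : ℂˣ) (m : ℕ) {M : B} (h : M ∈ pt z 1 ^ m) (i : ℕ) :
    (Polynomial.taylor 1 M).coeff i ∈ RingHom.ker (evL z) ^ (m - i) := by
  induction m generalizing M i with
  | zero => simp
  | succ m ih =>
    rw [Submodule.pow_succ] at h
    induction h using Submodule.mul_induction_on' with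
    | add x _ y _ hx hy =>
      rw [map_add, Polynomial.coeff_add]
      exact Ideal.add_mem _ hx hy
    | mem_mul_mem x hx y hy =>
      rw [Polynomial.taylor_mul, Polynomial.coeff_mul]
      refine Ideal.sum_mem _ fun c hc => ?_
      have hc' : c.1 + c.2 = i := Finset.HasAntidiagonal.mem_antidiagonal.1 hc
      by_cases h0 : c.2 = 0
      · have hy' : (Polynomial.taylor 1 y).coeff c.2 ∈ RingHom.ker (evL z) := by
          rw [h0, Polynomial.taylor_coeff_zero, RingHom.mem_ker, ← Polynomial.eval₂_at_apply,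
            map_one]
          exact hy
        have := Ideal.mul_mem_mul (ih hx c.1) hy'
        rw [← Submodule.pow_succ] at this
        exact Ideal.pow_le_pow_right (by omega) this
      · exact Ideal.mul_mem_right _ _ (Ideal.pow_le_pow_right (by omega) (ih hx c.1))

lemma tay_ker (z : ℂˣ) :
    RingHom.ker (evL z) ≤ Ideal.span {(Polynomial.X - Polynomial.C (z : ℂ)).toLaurent} := by
  intro g hg
  obtain ⟨n, p, hp⟩ := g.exists_T_pow
  have e : p.IsRoot z := by
    have := congrArg (evL z) hp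
    rw [map_mul, RingHom.mem_ker.1 hg, zero_mul, evL, LaurentPolynomial.eval₂_toLaurent] at this
    exact this
  rw [Ideal.mem_span_singleton, ← (LaurentPolynomial.isUnit_T (n : ℤ)).dvd_mul_right, ← hp]
  exact map_dvd _ (Polynomial.dvd_iff_isRoot.2 e)

lemma tay_dvd (z : ℂˣ) (k : ℕ) {p : Polynomial ℂ} (h : p.toLaurent ∈ RingHom.ker (evL z) ^ k) :
    (Polynomial.X - Polynomial.C (z : ℂ)) ^ k ∣ p := by
  have := Ideal.pow_right_mono (tay_ker z) k h
  rw [Ideal.span_singleton_pow, Ideal.mem_span_singleton] at this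
  obtain ⟨g, hg⟩ := this
  obtain ⟨n, q, hq⟩ := g.exists_T_pow
  have e : p * Polynomial.X ^ n = (Polynomial.X - Polynomial.C (z : ℂ)) ^ k * q :=
    Polynomial.toLaurent_injective (by
      rw [map_mul, map_mul, Polynomial.toLaurent_X_pow, hq, hg, map_pow, mul_assoc])
  have c : IsCoprime (Polynomial.X - Polynomial.C (z : ℂ)) Polynomial.X := by
    have := Polynomial.isCoprime_X_sub_C_of_isUnit_sub (a := (z : ℂ)) (b := 0) (by simp)
    simpa using this
  exact (c.pow (m := k) (n := n)).dvd_of_dvd_mul_right ⟨q, e⟩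

lemma tay_coeff {f : L} {n : ℕ} {p : Polynomial ℂ}
    (h : p.toLaurent = f * LaurentPolynomial.T n) (j : ℕ) : f.coeff ((j : ℤ) - n) = p.coeff j := by
  have e1 : (p.toLaurent).coeff (j : ℤ) = p.coeff j := by
    rw [LaurentPolynomial.coeff_toLaurent]
    exact Finsupp.mapDomain_apply Nat.castEmbedding.injective _ j
  rw [← e1, h, LaurentPolynomial.T, AddMonoidAlgebra.coeff_mul_single_apply, mul_one,
    sub_eq_add_neg]

/-- a Laurent polynomial with many zeros has a long support -/
theorem zeros {n : ℕ} {z : Fin n → ℂˣ} (hz : Function.Injective z) (k : ℕ) {f : L} (h0 : f ≠ 0)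
    (h : ∀ l, f ∈ RingHom.ker (evL (z l)) ^ k) :
    ∃ b b' : ℤ, f.coeff b ≠ 0 ∧ f.coeff b' ≠ 0 ∧ b + n * k ≤ b' := by
  obtain ⟨N, p, hp⟩ := f.exists_T_pow
  have hp0 : p ≠ 0 := by
    rintro rfl
    rw [map_zero] at hp
    exact h0 ((LaurentPolynomial.isUnit_T (N : ℤ)).mul_left_eq_zero.1 hp.symm)
  obtain ⟨r, hr⟩ : ∏ l, (Polynomial.X - Polynomial.C (z l : ℂ)) ^ k ∣ p :=
    Finset.prod_dvd_of_coprime
      (fun a _ b _ hab => (Polynomial.pairwise_coprime_X_sub_C
        (s := fun l => (z l : ℂ)) (Units.val_injective.comp hz) hab).pow)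
      fun l _ => tay_dvd (z l) k (hp ▸ Ideal.mul_mem_right _ _ (h l))
  have hr0 : r ≠ 0 := by
    rintro rfl
    exact hp0 (by rw [hr, mul_zero])
  have hP : (∏ l, (Polynomial.X - Polynomial.C (z l : ℂ)) ^ k) ≠ 0 := by
    intro e
    exact hp0 (by rw [hr, e, zero_mul])
  have t0 : (∏ l, (Polynomial.X - Polynomial.C (z l : ℂ)) ^ k).natTrailingDegree = 0 := by
    refine Polynomial.natTrailingDegree_eq_zero.2 (Or.inr ?_)
    rw [Polynomial.coeff_zero_eq_eval_zero, Polynomial.eval_prod]
    exact Finset.prod_ne_zero_iff.2 fun l _ => by simp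
  have t1 : (∏ l, (Polynomial.X - Polynomial.C (z l : ℂ)) ^ k).natDegree = n * k := by
    rw [Polynomial.natDegree_prod _ _ fun l _ => pow_ne_zero _ (Polynomial.X_sub_C_ne_zero _)]
    simp
  refine ⟨(p.natTrailingDegree : ℤ) - N, (p.natDegree : ℤ) - N, ?_, ?_, ?_⟩
  · rw [tay_coeff hp]
    exact Polynomial.trailingCoeff_nonzero_iff_nonzero.2 hp0
  · rw [tay_coeff hp]
    exact Polynomial.leadingCoeff_ne_zero.2 hp0
  · have : p.natTrailingDegree + n * k ≤ p.natDegree := by
      rw [hr, Polynomial.natTrailingDegree_mul hP hr0, Polynomial.natDegree_mul hP hr0, t0, t1]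
      have := Polynomial.natTrailingDegree_le_natDegree r
      omega
    have h2 : (p.natTrailingDegree : ℤ) + n * k ≤ p.natDegree := by exact_mod_cast this
    omega

end Pool.Agent.Lib.MP_d03834_ag.Nag
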