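import Pool.Agent.Lib.MP_d03834_ag.Nag.Defs

/-! Products of theta series. -/

set_option autoImplicit false

namespace Pool.Agent.Lib.MP_d03834_ag.Nag

open MvPolynomial

lemma Th_nat (f : R) (b : ℤ) (i : ℕ) : cz f b i = (PowerSeries.coeff i f).coeff b := by
  simp [cz]

lemma Th_neg (f : R) (b : ℤ) {e : ℤ} (he : e < 0) : cz f b e = 0 := if_neg (not_le.2 he)

theorem Th_conv (f g : R) (b e : ℤ) :
    cz (f * g) b e = ∑ᶠ p : ℤ × ℤ, cz f p.1 p.2 * cz g (b - p.1) (e - p.2) := by
  classical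
  rcases lt_or_ge e 0 with he | he
  · rw [Th_neg _ _ he]
    refine (finsum_eq_zero_of_forall_eq_zero fun p => ?_).symm
    rcases lt_or_ge p.2 0 with h | h
    · rw [Th_neg _ _ h, zero_mul]
    · rw [Th_neg g _ (by omega), mul_zero]
  obtain ⟨n, rfl⟩ := Int.eq_ofNat_of_zero_le he
  set S : Finset ℤ := (Finset.range (n + 1)).biUnion fun i => (PowerSeries.coeff i f).coeff.support
    with hS
  rw [finsum_eq_sum_of_support_subset (s := S ×ˢ (Finset.range (n + 1)).map Nat.castEmbedding),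
    Finset.sum_product_right, Finset.sum_map, Th_nat, PowerSeries.coeff_mul,
    Finset.Nat.sum_antidiagonal_eq_sum_range_succ_mk, AddMonoidAlgebra.coeff_sum,
    Finsupp.finsetSum_apply]
  · refine Finset.sum_congr rfl fun i hi => ?_
    have h1 : i ≤ n := Nat.lt_succ_iff.1 (Finset.mem_range.1 hi)
    rw [AddMonoidAlgebra.coeff_mul_apply_left, Finsupp.sum_of_support_subset _
      (Finset.subset_biUnion_of_mem (fun i => (PowerSeries.coeff i f).coeff.support) hi) _
      (by simp)]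
    refine Finset.sum_congr rfl fun c _ => ?_
    simp only [Nat.castEmbedding_apply]
    rw [Th_nat, ← Nat.cast_sub h1, Th_nat, neg_add_eq_sub]
  · rintro ⟨c, i⟩ hp
    have h1 : cz f c i ≠ 0 := left_ne_zero_of_mul hp
    have h2 : cz g (b - c) (n - i) ≠ 0 := right_ne_zero_of_mul hp
    have h3 : 0 ≤ i := not_lt.1 fun h => h1 (Th_neg _ _ h)
    have h4 : 0 ≤ n - i := not_lt.1 fun h => h2 (Th_neg _ _ h)
    obtain ⟨j, rfl⟩ := Int.eq_ofNat_of_zero_le h3
    have h5 : j ∈ Finset.range (n + 1) := Finset.mem_range.2 (by omega)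
    rw [Th_nat] at h1
    exact Finset.mem_coe.2 (Finset.mem_product.2 ⟨Finset.mem_biUnion.2
      ⟨j, h5, Finsupp.mem_support_iff.2 h1⟩, Finset.mem_map.2 ⟨j, h5, rfl⟩⟩)

/-- the shear of the exponent lattice -/
def Th_shear (N r a : ℤ) : ℤ × ℤ ≃ ℤ × ℤ where
  toFun p := (p.1 + r, p.2 + N * p.1 + a)
  invFun p := (p.1 - r, p.2 - N * (p.1 - r) - a)
  left_inv p := Prod.ext (by simp) (by simp only [add_sub_cancel_right]; ring)
  right_inv p := Prod.ext (by simp) (by simp only; ring)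

theorem Th_mul {N r a r' a' : ℤ} {f g : R} (hf : Th N r a f) (hg : Th N r' a' g) :
    Th N (r + r') (a + a') (f * g) := by
  intro b e
  rw [Th_conv, Th_conv, ← finsum_comp_equiv (Th_shear N r a)]
  refine finsum_congr fun p => ?_
  change cz f (p.1 + r) (p.2 + N * p.1 + a) *
    cz g (b + (r + r') - (p.1 + r)) (e + N * b + (a + a') - (p.2 + N * p.1 + a)) = _
  rw [hf, ← hg (b - p.1) (e - p.2)]
  congr 2 <;> ring

theorem Cl_mul {k k' : ℤ} {f g : R} (hf : Cl k f) (hg : Cl k' g) : Cl (k + k') (f * g) := by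
  intro b e h
  by_contra hn
  refine h ?_
  rw [Th_conv]
  refine finsum_eq_zero_of_forall_eq_zero fun p => ?_
  by_contra hp
  have h1 := hf _ _ (left_ne_zero_of_mul hp)
  have h2 := hg _ _ (right_ne_zero_of_mul hp)
  exact hn (by rw [show b - (k + k') = p.1 - k + (b - p.1 - k') by ring]; exact dvd_add h1 h2)

end Pool.Agent.Lib.MP_d03834_ag.Nag
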