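import Pool.Agent.Lib.MP_d03834_ag.Nag.Defs

/-! Definitions for the counting criterion. -/

set_option autoImplicit false

namespace Pool.Agent.Lib.MP_d03834_ag.Nag

open MvPolynomial

/-- the monomial y ^ b * s ^ j lies in the half open triangle of degree d and real slope κ -/
def Cell (κ : ℝ) (d j : ℕ) (b : ℤ) : Prop :=
  3 * j ≤ d ∧ ((-(κ * (d - 3 * j)) ≤ b ∧ (b : ℝ) < (3 - κ) * (d - 3 * j)) ∨ (d = 3 * j ∧ b = 0))

/-- the row b has more than i cells -/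
def Row (κ : ℝ) (d i : ℕ) (b : ℤ) : Prop :=
  ∃ j j' : ℕ, j + i ≤ j' ∧ Cell κ d j b ∧ Cell κ d j' b

/-- the graded model: the coefficient of degree i is supported on the rows with more than i cells -/
def Gr (κ : ℝ) (d : ℕ) (M : B) : Prop :=
  ∀ (i : ℕ) (b : ℤ), (M.coeff i).coeff b ≠ 0 → Row κ d i b

/-- the number of rows with more than i cells -/
noncomputable def hh (κ : ℝ) (d i : ℕ) : ℕ := Set.ncard {b : ℤ | Row κ d i b}

/-- the number of conditions at level i when c points are displaced and T steps are used -/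
def tgt (n m c T i : ℕ) : ℕ :=
  if i < m then n * (m - i) - (if m ≤ i + T then c else 0) else if i = m then c * T else 0

/-- forms of degree d with multiplicity m at the points P -/
noncomputable def Wd {n : ℕ} (d m : ℕ) (P : Fin n → Fin 2 → ℂ) :
    Submodule ℂ (MvPolynomial (Fin 3) ℂ) :=
  homogeneousSubmodule (Fin 3) ℂ d ⊓ Submodule.restrictScalars ℂ (⨅ i : Fin n, hid (P i) ^ m)

/-- at general points the dimension is at most v -/
def Bd (n m d v : ℕ) : Prop :=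
  ∃ G : MvPolynomial (Fin n × Fin 2) ℂ, G ≠ 0 ∧ ∀ P : Fin n → Fin 2 → ℂ,
    eval (fun ij : Fin n × Fin 2 => P ij.1 ij.2) G ≠ 0 → Module.finrank ℂ (Wd d m P) ≤ v

theorem row_of {κ : ℝ} (hκ : 3 ≤ κ) {d i j : ℕ} {b : ℤ} (h1 : 3 * (j + i) ≤ d)
    (h2 : (κ - 3) * (d - 3 * j) < -b) (h3 : (-b : ℝ) ≤ κ * (d - 3 * j - 3 * i)) : Row κ d i b := by
  have hi : (0 : ℝ) ≤ i := Nat.cast_nonneg i
  refine ⟨j, j + i, le_rfl, ⟨by omega, Or.inl ⟨?_, ?_⟩⟩, h1, Or.inl ⟨?_, ?_⟩⟩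
  · nlinarith
  · linarith
  · push_cast
    linarith
  · push_cast
    nlinarith

theorem row_to {κ : ℝ} (hκ : 3 ≤ κ) {d i : ℕ} {b : ℤ} (h : Row κ d i b) :
    ∃ j : ℕ, 3 * (j + i) ≤ d ∧ (-b : ℝ) ≤ κ * (d - 3 * j - 3 * i) ∧
      ((κ - 3) * (d - 3 * j) < -b ∨ (d = 3 * j ∧ i = 0 ∧ b = 0)) := by
  obtain ⟨j, j', h1, ⟨h2, h3⟩, h4, h5⟩ := h
  have h6 : (j : ℝ) + i ≤ j' := by exact_mod_cast h1
  have h7 : (-b : ℝ) ≤ κ * (d - 3 * j') := by
    rcases h5 with h5 | ⟨h5, h8⟩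
    · linarith [h5.1]
    · rw [h8, h5]
      simp
  refine ⟨j, by omega, by nlinarith, ?_⟩
  rcases h3 with h3 | ⟨h3, h8⟩
  · left
    linarith [h3.2]
  · exact Or.inr ⟨h3, by omega, h8⟩

theorem row_finite (κ : ℝ) (d i : ℕ) : {b : ℤ | Row κ d i b}.Finite := by
  refine (Set.finite_Icc (-⌈(|κ| + 3) * d⌉) ⌈(|κ| + 3) * d⌉).subset ?_
  rintro b ⟨j, j', -, ⟨h1, h2⟩, -⟩
  have h3 : 3 * (j : ℝ) ≤ d := by exact_mod_cast h1
  have h4 : (0 : ℝ) ≤ j := Nat.cast_nonneg j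
  have h5 := le_abs_self κ
  have h6 := neg_abs_le κ
  have h7 := abs_nonneg κ
  have h8 := Int.le_ceil ((|κ| + 3) * d)
  have h9 : |(b : ℝ)| ≤ (|κ| + 3) * d := by
    rcases h2 with ⟨h2, h2'⟩ | ⟨-, h2⟩
    · rw [abs_le]
      constructor <;> nlinarith
    · rw [h2]
      simp only [Int.cast_zero, abs_zero]
      positivity
  rw [abs_le] at h9
  constructor
  · have : ((-⌈(|κ| + 3) * d⌉ : ℤ) : ℝ) ≤ b := by
      push_cast
      linarith [h9.1]
    exact_mod_cast this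
  · have : (b : ℝ) ≤ ((⌈(|κ| + 3) * d⌉ : ℤ) : ℝ) := by linarith [h9.2]
    exact_mod_cast this

end Pool.Agent.Lib.MP_d03834_ag.Nag
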