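import Pool.Agent.Lib.MP_d03834_ag.Nag.Th

set_option autoImplicit false

namespace Pool.Agent.Lib.MP_d03834_ag.Nag

open MvPolynomial

theorem Win_nat (f : R) (b : ℤ) (e : ℕ) : cz f b e = (PowerSeries.coeff e f).coeff b := by
  simp [cz]

theorem Win_neg (f : R) (b : ℤ) {e : ℤ} (h : e < 0) : cz f b e = 0 := by
  simp [cz, not_le.2 h]

theorem cz_ext {f g : R} (h : ∀ b e, cz f b e = cz g b e) : f = g := by
  refine PowerSeries.ext fun e => LaurentPolynomial.ext fun b => ?_
  have := h b e
  rwa [Win_nat, Win_nat] at this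

theorem Win_add (f g : R) (b e : ℤ) : cz (f + g) b e = cz f b e + cz g b e := by
  unfold cz
  split_ifs <;> simp

theorem Th_add {N r a : ℤ} {f g : R} (hf : Th N r a f) (hg : Th N r a g) : Th N r a (f + g) := by
  intro b e
  rw [Win_add, Win_add, hf, hg]

theorem Win_zero (N r a : ℤ) : Th N r a 0 := by
  intro b e
  simp [cz]

theorem Win_coeff_alg (o : O) (e : ℕ) :
    PowerSeries.coeff e (algebraMap O R o) = LaurentPolynomial.C (PowerSeries.coeff e o) := by
  have : algebraMap O R o = PowerSeries.map (algebraMap ℂ L) o := rfl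
  rw [this, PowerSeries.coeff_map]
  rfl

theorem Th_alg (N : ℤ) (o : O) : Th N 0 0 (algebraMap O R o) := by
  intro b e
  by_cases hb : b = 0
  · subst hb
    simp
  · have : ∀ e', cz (algebraMap O R o) b e' = 0 := by
      intro e'
      unfold cz
      split_ifs
      · rw [Win_coeff_alg]
        simp [hb]
      · rfl
    rw [add_zero, this, this]

theorem Win_T (u b e : ℤ) :
    cz (PowerSeries.C (LaurentPolynomial.T u)) b e = if b = u ∧ e = 0 then 1 else 0 := by
  unfold cz
  by_cases h : e = 0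
  · subst h
    simp [eq_comm]
  · split_ifs with h1 h2 h2
    · exact absurd h2.2 h
    · rw [PowerSeries.coeff_C, if_neg (by omega)]
      simp
    · exact absurd h2.2 h
    · rfl

theorem Th_T (N u : ℤ) : Th N 0 (N * u) (PowerSeries.C (LaurentPolynomial.T (-u))) := by
  intro b e
  rw [Win_T, Win_T, add_zero]
  by_cases hb : b = -u
  · subst hb
    simp
  · simp [hb]

theorem Win_one (N : ℤ) : Th N 0 0 1 := by
  simpa using Th_alg N 1

theorem Win_pow {N r a : ℤ} {f : R} (h : Th N r a f) (k : ℕ) : Th N (r * k) (a * k) (f ^ k) := by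
  induction k with
  | zero => simpa using Win_one N
  | succ k ih =>
    have := Th_mul ih h
    rw [pow_succ]
    push_cast
    rwa [mul_add, mul_add, mul_one, mul_one]

theorem Win_sum {N r a : ℤ} {κ : Type*} (s : Finset κ) (f : κ → R) (h : ∀ i ∈ s, Th N r a (f i)) :
    Th N r a (∑ i ∈ s, f i) :=
  Finset.sum_induction f (Th N r a) (fun _ _ => Th_add) (Win_zero N r a) h

theorem Th_aeval {N a : ℤ} {φ : Fin 3 → R} (h : ∀ i, Th N 3 a (φ i)) {D : ℕ}
    {G : MvPolynomial (Fin 3) O} (hG : G.IsHomogeneous D) :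
    Th N (3 * D) (a * D) (aeval φ G) := by
  rw [G.as_sum, map_sum]
  refine Win_sum _ _ fun v hv => ?_
  have hd : v 0 + v 1 + v 2 = D := by
    have := hG (mem_support_iff.1 hv)
    rw [← this, Finsupp.weight_apply, Finsupp.sum_fintype _ _ (by simp), Fin.sum_univ_three]
    simp
  rw [aeval_monomial, Finsupp.prod_fintype _ _ (by simp), Fin.prod_univ_three]
  have := Th_mul (Th_alg N (coeff v G))
    (Th_mul (Th_mul (Win_pow (h 0) (v 0)) (Win_pow (h 1) (v 1))) (Win_pow (h 2) (v 2)))
  rw [← hd]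
  push_cast
  rwa [zero_add, zero_add, ← mul_add, ← mul_add, ← mul_add, ← mul_add] at this

theorem window {N r a : ℤ} {f : R} (h : Th N r a f) {e : ℕ}
    (h0 : ∀ e' < e, PowerSeries.coeff e' f = 0) {b : ℤ}
    (hb : (PowerSeries.coeff e f).coeff b ≠ 0) : -a ≤ N * b ∧ N * b ≤ N * r - a := by
  have key : ∀ b' e' : ℤ, cz f b' e' ≠ 0 → (e : ℤ) ≤ e' := by
    intro b' e' h1
    by_contra h2
    apply h1
    unfold cz
    split_ifs with h3
    · rw [h0 _ (by omega)]
      simp
    · rfl
  rw [← Win_nat] at hb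
  have h1 := key _ _ (by rw [h b e]; exact hb)
  have h2 := h (b - r) (e - N * (b - r) - a)
  rw [sub_add_cancel, show (e : ℤ) - N * (b - r) - a + N * (b - r) + a = e by ring] at h2
  have h3 := key _ _ (by rw [← h2]; exact hb)
  constructor <;> nlinarith

end Pool.Agent.Lib.MP_d03834_ag.Nag
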